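import Pool.Agent.W660.FL.Stm

/-!
Local one-parameter subgroups (project FL, part ODE).
-/

set_option linter.unusedSectionVars false

namespace Pool.Agent.W660.FL

open MeasureTheory Complex Filter Topology
open scoped ComplexConjugate InnerProductSpace Manifold ContDiff

noncomputable section

namespace TODE

section

variable {G : Type} [Group G] [TopologicalSpace G] [IsTopologicalGroup G]
  {E : Type} [NormedAddCommGroup E] [NormedSpace ℝ E]

/-- the product in the chart -/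
def M (C : LieChart G E) (p : E × E) : E := C.κ (C.κ.symm p.1 * C.κ.symm p.2)

/-- everything is defined -/
def F4 (C : LieChart G E) (p : E × E) : Prop :=
  p.1 ∈ C.κ.target ∧ p.2 ∈ C.κ.target ∧ C.κ.symm p.1 * C.κ.symm p.2 ∈ C.κ.source

/-- the left invariant vector field -/
def Y (C : LieChart G E) (X a : E) : E := fderiv ℝ (M C) (a, 0) (0, X)

theorem zero_mem (C : LieChart G E) : (0 : E) ∈ C.κ.target := by
  rw [← C.map_one]
  exact C.κ.map_source C.one_mem

theorem symm_zero (C : LieChart G E) : C.κ.symm 0 = 1 := by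
  rw [← C.map_one]
  exact C.κ.left_inv C.one_mem

theorem M_zero_right (C : LieChart G E) {a : E} (ha : a ∈ C.κ.target) : M C (a, 0) = a := by
  unfold M
  rw [symm_zero, mul_one]
  exact C.κ.right_inv ha

theorem M_zero_left (C : LieChart G E) {a : E} (ha : a ∈ C.κ.target) : M C (0, a) = a := by
  unfold M
  rw [symm_zero, one_mul]
  exact C.κ.right_inv ha

theorem symm_M (C : LieChart G E) {p : E × E} (h : F4 C p) :
    C.κ.symm (M C p) = C.κ.symm p.1 * C.κ.symm p.2 :=
  C.κ.left_inv h.2.2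

theorem M_assoc (C : LieChart G E) {a b c : E} (h1 : F4 C (b, a)) (h2 : F4 C (a, c)) :
    M C (b, M C (a, c)) = M C (M C (b, a), c) := by
  have e1 := symm_M C h1
  have e2 := symm_M C h2
  change C.κ (C.κ.symm b * C.κ.symm (M C (a, c))) = C.κ (C.κ.symm (M C (b, a)) * C.κ.symm c)
  rw [e1, e2, mul_assoc]

theorem F4_ev (C : LieChart G E) : ∀ᶠ p in 𝓝 ((0, 0) : E × E), F4 C p := by
  have h0 : C.κ.target ∈ 𝓝 (0 : E) := C.κ.open_target.mem_nhds (zero_mem C)
  have h1 : ∀ᶠ p in 𝓝 ((0, 0) : E × E), p.1 ∈ C.κ.target :=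
    continuousAt_fst.eventually (p := fun a => a ∈ C.κ.target) h0
  have h2 : ∀ᶠ p in 𝓝 ((0, 0) : E × E), p.2 ∈ C.κ.target :=
    continuousAt_snd.eventually (p := fun a => a ∈ C.κ.target) h0
  have hs : ContinuousAt C.κ.symm (0 : E) := C.κ.continuousAt_symm (zero_mem C)
  have hc : ContinuousAt (fun p : E × E => C.κ.symm p.1 * C.κ.symm p.2) (0, 0) := by
    refine ContinuousAt.mul ?_ ?_
    · exact ContinuousAt.comp (x := ((0, 0) : E × E)) (f := Prod.fst) (g := C.κ.symm) hs
        continuousAt_fst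
    · exact ContinuousAt.comp (x := ((0, 0) : E × E)) (f := Prod.snd) (g := C.κ.symm) hs
        continuousAt_snd
  have h3 : ∀ᶠ p in 𝓝 ((0, 0) : E × E), C.κ.symm p.1 * C.κ.symm p.2 ∈ C.κ.source := by
    refine hc.eventually (p := fun z => z ∈ C.κ.source) ?_
    refine C.κ.open_source.mem_nhds ?_
    change C.κ.symm 0 * C.κ.symm 0 ∈ C.κ.source
    rw [symm_zero, mul_one]
    exact C.one_mem
  filter_upwards [h1, h2, h3] with p a b c using ⟨a, b, c⟩

theorem contDiffAt_M (C : LieChart G E) : ContDiffAt ℝ 2 (M C) (0, 0) :=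
  C.mul.of_le (by norm_cast)

theorem contDiffAt_Y (C : LieChart G E) (X : E) : ContDiffAt ℝ 1 (Y C X) 0 := by
  have h1 : ContDiffAt ℝ 1 (fderiv ℝ (M C)) (0, 0) :=
    (contDiffAt_M C).fderiv_right (by norm_num)
  have h2 : ContDiffAt ℝ 1 (fun a : E => fderiv ℝ (M C) (a, (0 : E))) 0 :=
    ContDiffAt.comp (0 : E) (g := fderiv ℝ (M C)) (f := fun a : E => (a, (0 : E))) h1
      (contDiffAt_id.prodMk contDiffAt_const)
  exact h2.clm_apply contDiffAt_const

theorem hasDerivAt_M (C : LieChart G E) (X : E) {a : E} (h : DifferentiableAt ℝ (M C) (a, 0)) :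
    HasDerivAt (fun r : ℝ => M C (a, r • X)) (Y C X a) 0 := by
  have h1 : HasDerivAt (fun r : ℝ => (a, r • X)) ((0 : E), X) 0 := by
    have h2 : HasDerivAt (fun r : ℝ => r • X) X 0 := by
      simpa using (hasDerivAt_id (0 : ℝ)).smul_const X
    exact (hasDerivAt_const (0 : ℝ) a).prodMk h2
  have h3 : HasFDerivAt (M C) (fderiv ℝ (M C) (a, 0)) ((fun r : ℝ => (a, r • X)) 0) := by
    have : ((fun r : ℝ => (a, r • X)) 0) = (a, (0 : E)) := by simp
    rw [this]
    exact h.hasFDerivAt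
  exact h3.comp_hasDerivAt (0 : ℝ) h1

/-- left invariance -/
theorem key (C : LieChart G E) (X : E) {a b : E} (hd1 : DifferentiableAt ℝ (M C) (b, a))
    (hd2 : DifferentiableAt ℝ (M C) (a, 0)) (hd3 : DifferentiableAt ℝ (M C) (M C (b, a), 0))
    (h4 : F4 C (b, a)) (h5 : ∀ᶠ r in 𝓝 (0 : ℝ), F4 C (a, r • X)) :
    fderiv ℝ (M C) (b, a) (0, Y C X a) = Y C X (M C (b, a)) := by
  have e1 := hasDerivAt_M C X hd2
  have e3 := hasDerivAt_M C X hd3
  have e2 : HasDerivAt (fun r : ℝ => M C (b, M C (a, r • X)))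
      (fderiv ℝ (M C) (b, a) (0, Y C X a)) 0 := by
    have h1 : HasDerivAt (fun r : ℝ => (b, M C (a, r • X))) ((0 : E), Y C X a) 0 :=
      (hasDerivAt_const (0 : ℝ) b).prodMk e1
    have h3 : HasFDerivAt (M C) (fderiv ℝ (M C) (b, a))
        ((fun r : ℝ => (b, M C (a, r • X))) 0) := by
      have : ((fun r : ℝ => (b, M C (a, r • X))) 0) = (b, a) := by
        change (b, M C (a, (0 : ℝ) • X)) = (b, a)
        rw [zero_smul, M_zero_right C h4.2.1]
      rw [this]
      exact hd1.hasFDerivAt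
    exact h3.comp_hasDerivAt (0 : ℝ) h1
  refine e2.unique (e3.congr_of_eventuallyEq ?_)
  filter_upwards [h5] with r hr
  exact M_assoc C h4 hr

theorem Y_zero (C : LieChart G E) (X : E) : Y C X 0 = X := by
  have hd : DifferentiableAt ℝ (M C) ((0 : E), (0 : E)) :=
    (contDiffAt_M C).differentiableAt (by norm_num)
  have e1 := hasDerivAt_M C X hd
  have h2 : HasDerivAt (fun r : ℝ => r • X) X 0 := by
    simpa using (hasDerivAt_id (0 : ℝ)).smul_const X
  refine e1.unique (h2.congr_of_eventuallyEq ?_)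
  have h0 : C.κ.target ∈ 𝓝 ((0 : ℝ) • X) := by
    rw [zero_smul]
    exact C.κ.open_target.mem_nhds (zero_mem C)
  have hc : ContinuousAt (fun r : ℝ => r • X) 0 := by fun_prop
  filter_upwards [hc.eventually (p := fun a => a ∈ C.κ.target) h0] with r hr
  exact M_zero_left C hr

end

end TODE

open TODE in
theorem t_ODE {G : Type} [Group G] [TopologicalSpace G] [IsTopologicalGroup G] [T2Space G]
    {E : Type} [NormedAddCommGroup E] [NormedSpace ℝ E] [FiniteDimensional ℝ E] :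
    S_ODE G E := by
  intro C X
  have : CompleteSpace E := FiniteDimensional.complete ℝ E
  obtain ⟨y, hy0, δ, hδ, hy⟩ :=
    (contDiffAt_Y C X).exists_forall_mem_closedBall_exists_eq_forall_mem_Ioo_hasDerivAt₀ 0
  rw [zero_sub, zero_add] at hy
  obtain ⟨K, S, hS, hK⟩ := (contDiffAt_Y C X).exists_lipschitzOnWith
  have hyc : ContinuousAt y 0 := (hy 0 ⟨by linarith, hδ⟩).continuousAt
  -- the good set
  have hM0 : M C ((0 : E), (0 : E)) = 0 := M_zero_right C (zero_mem C)
  have hMc : ContinuousAt (M C) ((0 : E), (0 : E)) := (contDiffAt_M C).continuousAt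
  have hdiff : ∀ᶠ p in 𝓝 ((0, 0) : E × E), DifferentiableAt ℝ (M C) p := by
    filter_upwards [(contDiffAt_M C).eventually (by norm_num)] with p hp
    exact hp.differentiableAt (by norm_num)
  have t2 : Tendsto (fun p : E × E => (p.2, (0 : E))) (𝓝 (0, 0)) (𝓝 (0, 0)) := by
    have : ContinuousAt (fun p : E × E => (p.2, (0 : E))) (0, 0) := by fun_prop
    exact this
  have t3 : Tendsto (fun p : E × E => (M C p, (0 : E))) (𝓝 (0, 0)) (𝓝 (0, 0)) := by
    have h1 : ContinuousAt (fun p : E × E => (M C p, (0 : E))) (0, 0) :=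
      hMc.prodMk continuousAt_const
    have h2 := h1.tendsto
    rw [hM0] at h2
    exact h2
  have hgood : ∀ᶠ p in 𝓝 ((0, 0) : E × E), DifferentiableAt ℝ (M C) p ∧
      fderiv ℝ (M C) p (0, Y C X p.2) = Y C X (M C p) ∧ F4 C p ∧ M C p ∈ S := by
    have h5 : ∀ᶠ p in 𝓝 ((0, 0) : E × E), ∀ᶠ r in 𝓝 (0 : ℝ), F4 C (p.2, r • X) := by
      have h6 := t2.eventually (F4_ev C).eventually_nhds
      filter_upwards [h6] with p hp
      have h7 : Tendsto (fun r : ℝ => (p.2, r • X)) (𝓝 0) (𝓝 (p.2, (0 : E))) := by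
        have h8 : ContinuousAt (fun r : ℝ => (p.2, r • X)) 0 := by fun_prop
        have h9 := h8.tendsto
        rw [zero_smul] at h9
        exact h9
      exact h7.eventually hp
    have h8 : ∀ᶠ p in 𝓝 ((0, 0) : E × E), M C p ∈ S := by
      have h9 := hMc.tendsto
      rw [hM0] at h9
      exact h9.eventually hS
    filter_upwards [hdiff, t2.eventually hdiff, t3.eventually hdiff, F4_ev C, h5, h8]
      with p h1 h2 h3 h4 h5 h6
    exact ⟨h1, key C X h1 h2 h3 h4 h5, h4, h6⟩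
  have ty : Tendsto (fun q : ℝ × ℝ => (y q.1, y q.2)) (𝓝 (0, 0)) (𝓝 (0, 0)) := by
    have h1 : ContinuousAt (fun q : ℝ × ℝ => (y q.1, y q.2)) (0, 0) := by
      refine ContinuousAt.prodMk ?_ ?_
      · exact ContinuousAt.comp (x := ((0, 0) : ℝ × ℝ)) (f := Prod.fst) (g := y) hyc
          continuousAt_fst
      · exact ContinuousAt.comp (x := ((0, 0) : ℝ × ℝ)) (f := Prod.snd) (g := y) hyc
          continuousAt_snd
    have h2 := h1.tendsto
    simp only [hy0] at h2
    exact h2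
  have tz : Tendsto (fun q : ℝ × ℝ => y (q.1 + q.2)) (𝓝 (0, 0)) (𝓝 0) := by
    have h1 : ContinuousAt (fun q : ℝ × ℝ => y (q.1 + q.2)) (0, 0) := by
      refine ContinuousAt.comp (x := ((0, 0) : ℝ × ℝ)) (f := fun q : ℝ × ℝ => q.1 + q.2) (g := y)
        ?_ (by fun_prop)
      change ContinuousAt y (0 + 0)
      rw [add_zero]
      exact hyc
    have h2 := h1.tendsto
    simp only [add_zero, hy0] at h2
    exact h2
  obtain ⟨ρ, hρ, hball⟩ := Metric.eventually_nhds_iff.1
    ((ty.eventually hgood).and (tz.eventually hS))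
  have hgd : ∀ s t : ℝ, |s| < ρ → |t| < ρ → (DifferentiableAt ℝ (M C) (y s, y t) ∧
      fderiv ℝ (M C) (y s, y t) (0, Y C X (y t)) = Y C X (M C (y s, y t)) ∧
      F4 C (y s, y t) ∧ M C (y s, y t) ∈ S) ∧ y (s + t) ∈ S := by
    intro s t hs ht
    refine hball (y := (s, t)) ?_
    rw [Prod.dist_eq, Real.dist_eq, Real.dist_eq, sub_zero, sub_zero]
    exact max_lt hs ht
  set ε : ℝ := min ρ (δ / 2) with hε
  have hε0 : 0 < ε := lt_min hρ (by linarith)
  have hερ : ε ≤ ρ := min_le_left _ _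
  have hεδ : ε ≤ δ / 2 := min_le_right _ _
  have hmul : ∀ s t : ℝ, |s| < ε → |t| < ε → M C (y s, y t) = y (s + t) := by
    intro s t hs ht
    have hs' := abs_lt.1 hs
    have ht' := abs_lt.1 ht
    have heq := ODE_solution_unique_of_mem_Ioo (v := fun _ => Y C X) (s := fun _ => S) (K := K)
      (f := fun t => M C (y s, y t)) (g := fun t => y (s + t)) (a := -ε) (b := ε) (t₀ := 0)
      (fun _ _ => hK) ⟨by linarith, hε0⟩ ?_ ?_ ?_
    · exact heq ⟨ht'.1, ht'.2⟩
    · intro t ht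
      have hta : |t| < ε := abs_lt.2 ⟨ht.1, ht.2⟩
      obtain ⟨⟨h1, h2, h3, h4⟩, -⟩ := hgd s t (hs.trans_le hερ) (hta.trans_le hερ)
      refine ⟨?_, h4⟩
      rw [← h2]
      have h5 : HasDerivAt (fun t : ℝ => (y s, y t)) ((0 : E), Y C X (y t)) t :=
        (hasDerivAt_const t (y s)).prodMk (hy t ⟨by linarith [ht.1], by linarith [ht.2]⟩)
      exact h1.hasFDerivAt.comp_hasDerivAt t h5
    · intro t ht
      have hta : |t| < ε := abs_lt.2 ⟨ht.1, ht.2⟩
      refine ⟨?_, (hgd s t (hs.trans_le hερ) (hta.trans_le hερ)).2⟩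
      exact (hy (s + t) ⟨by linarith [ht.1], by linarith [ht.2]⟩).comp_const_add s t
    · obtain ⟨⟨h1, h2, h3, h4⟩, -⟩ := hgd s 0 (hs.trans_le hερ) (by rw [abs_zero]; exact hρ)
      rw [hy0, add_zero]
      exact M_zero_right C h3.1
  have hmem : ∀ t : ℝ, |t| < ε → y t ∈ C.κ.target := by
    intro t ht
    exact (hgd t 0 (ht.trans_le hερ) (by rw [abs_zero]; exact hρ)).1.2.2.1.1
  refine ⟨ε, hε0, fun t => C.κ.symm (y t), ?_, ?_, ?_, ?_⟩
  · change C.κ.symm (y 0) = 1
    rw [hy0, symm_zero]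
  · intro t ht
    have h1 : ContinuousAt y t :=
      (hy t ⟨by linarith [ht.1], by linarith [ht.2]⟩).continuousAt
    have h2 : ContinuousAt C.κ.symm (y t) :=
      C.κ.continuousAt_symm (hmem t (abs_lt.2 ⟨ht.1, ht.2⟩))
    exact (ContinuousAt.comp (x := t) (f := y) (g := C.κ.symm) h2 h1).continuousWithinAt
  · have h1 := hy 0 ⟨by linarith, hδ⟩
    rw [hy0, Y_zero] at h1
    refine h1.congr_of_eventuallyEq ?_
    filter_upwards [Ioo_mem_nhds (show -ε < 0 by linarith) hε0] with t ht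
    exact C.κ.right_inv (hmem t (abs_lt.2 ⟨ht.1, ht.2⟩))
  · intro s t hs ht _
    change C.κ.symm (y (s + t)) = C.κ.symm (y s) * C.κ.symm (y t)
    rw [← hmul s t hs ht]
    exact symm_M C (hgd s t (hs.trans_le hερ) (ht.trans_le hερ)).1.2.2.1

end

end Pool.Agent.W660.FL
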