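import Pool.Agent.W660.FL.Stm

/-!
# FL-BDY: the Poisson kernel
-/

namespace Pool.Agent.W660.FL

open MeasureTheory Complex Filter Topology
open scoped ComplexConjugate InnerProductSpace Manifold ContDiff

noncomputable section

namespace TBDY

theorem Po_eq (s t : ℝ) (hs : 0 < s) :
    Po s t = s⁻¹ * (Real.pi⁻¹ * (1 + (t / s) ^ 2)⁻¹) := by
  have hpi := Real.pi_pos
  have h1 : (0 : ℝ) < s ^ 2 + t ^ 2 := by positivity
  unfold Po
  field_simp

theorem Po_cont (s : ℝ) (hs : 0 < s) : Continuous (Po s) := by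
  have hpi := Real.pi_pos
  unfold Po
  apply Continuous.div continuous_const (by fun_prop)
  intro t
  positivity

theorem Po_pos (s t : ℝ) (hs : 0 < s) : 0 < Po s t := by
  have hpi := Real.pi_pos
  unfold Po
  positivity

theorem Po_fun (s : ℝ) (hs : 0 < s) :
    Po s = fun t => s⁻¹ * (Real.pi⁻¹ * (1 + (t / s) ^ 2)⁻¹) := by
  funext t; exact Po_eq s t hs

theorem Po_int (s : ℝ) (hs : 0 < s) : Integrable (Po s) := by
  rw [Po_fun s hs]
  exact (((integrable_inv_one_add_sq).comp_div hs.ne').const_mul _).const_mul _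

theorem Po_integral (s : ℝ) (hs : 0 < s) : ∫ t, Po s t = 1 := by
  rw [Po_fun s hs]
  rw [integral_const_mul, integral_const_mul]
  rw [Measure.integral_comp_div (fun y : ℝ => (1 + y ^ 2)⁻¹) s, integral_univ_inv_one_add_sq]
  rw [abs_of_pos hs, smul_eq_mul]
  have hpi := Real.pi_pos
  field_simp

theorem subst (s x : ℝ) (hs : 0 < s) (g : ℝ → ℂ) :
    ∫ t : ℝ, ((Po s (t - x) : ℝ) : ℂ) * g t = ∫ v : ℝ, ((Po 1 v : ℝ) : ℂ) * g (x + s * v) := by
  have h1 : ∀ t : ℝ, ((Po s (t - x) : ℝ) : ℂ) * g t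
      = (fun y : ℝ => (fun v : ℝ => ((s⁻¹ : ℝ) : ℂ) * (((Po 1 v : ℝ) : ℂ) * g (x + s * v))) (y / s)) (t - x) := by
    intro t
    have h2 : Po s (t - x) = s⁻¹ * Po 1 ((t - x) / s) := by
      rw [Po_eq s _ hs, Po_eq 1 _ one_pos]
      simp
    have h3 : x + s * ((t - x) / s) = t := by
      field_simp; ring
    simp only [h3]
    rw [h2]
    push_cast
    ring
  rw [integral_congr_ae (Filter.Eventually.of_forall h1)]
  rw [integral_sub_right_eq_self (fun y : ℝ => (fun v : ℝ => ((s⁻¹ : ℝ) : ℂ) * (((Po 1 v : ℝ) : ℂ) * g (x + s * v))) (y / s)) x]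
  rw [Measure.integral_comp_div (fun v : ℝ => ((s⁻¹ : ℝ) : ℂ) * (((Po 1 v : ℝ) : ℂ) * g (x + s * v))) s]
  rw [integral_const_mul, abs_of_pos hs, Complex.real_smul, ← mul_assoc, ← Complex.ofReal_mul,
    mul_inv_cancel₀ hs.ne']
  simp

end TBDY

open TBDY in
theorem t_BDY : S_BDY := by
  refine ⟨fun s hs => ⟨Po_cont s hs, Po_int s hs, Po_integral s hs, fun t => Po_pos s t hs⟩, ?_⟩
  intro g hg hb x
  obtain ⟨c, hc⟩ := hb
  have hlim : Tendsto (fun s : ℝ => ∫ v : ℝ, ((Po 1 v : ℝ) : ℂ) * g (x + s * v)) (𝓝[>] 0)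
      (𝓝 (∫ v : ℝ, ((Po 1 v : ℝ) : ℂ) * g x)) := by
    apply tendsto_integral_filter_of_dominated_convergence (fun v => Po 1 v * c)
    · apply Filter.Eventually.of_forall
      intro s
      apply Continuous.aestronglyMeasurable
      have h1 := Po_cont 1 one_pos
      fun_prop
    · apply Filter.Eventually.of_forall
      intro s
      apply Filter.Eventually.of_forall
      intro v
      rw [norm_mul, Complex.norm_real, Real.norm_of_nonneg (Po_pos 1 v one_pos).le]
      exact mul_le_mul_of_nonneg_left (hc _) (Po_pos 1 v one_pos).le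
    · exact (Po_int 1 one_pos).mul_const c
    · apply Filter.Eventually.of_forall
      intro v
      apply Tendsto.const_mul
      have h1 : Tendsto (fun s : ℝ => x + s * v) (𝓝[>] 0) (𝓝 x) := by
        have h2 : Continuous (fun s : ℝ => x + s * v) := by fun_prop
        have h3 := h2.tendsto 0
        simp only [zero_mul, add_zero] at h3
        exact h3.mono_left nhdsWithin_le_nhds
      exact (hg.tendsto x).comp h1
  have h1 : ∫ v : ℝ, ((Po 1 v : ℝ) : ℂ) * g x = g x := by
    rw [integral_mul_const, integral_complex_ofReal, Po_integral 1 one_pos]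
    simp
  rw [h1] at hlim
  refine hlim.congr' ?_
  filter_upwards [self_mem_nhdsWithin] with s hs
  exact (subst s x hs g).symm

end

end Pool.Agent.W660.FL
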