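import Pool.Agent.W660.FL.Stm

/-!
Part HOL of project FL: analytic extension of a bounded continuous function to the upper half
plane.
-/

namespace Pool.Agent.W660.FL

open MeasureTheory Complex Filter Topology
open scoped ComplexConjugate InnerProductSpace Manifold ContDiff

noncomputable section

namespace THOL

/-- the kernel -/
def ker (w : ℂ) (t : ℝ) : ℂ := ((t : ℂ) - w)⁻¹ - ((t : ℂ) + I)⁻¹

lemma ne_of_im {w : ℂ} (hw : w.im ≠ 0) (t : ℝ) : (t : ℂ) - w ≠ 0 := by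
  intro h
  apply hw
  have := congrArg Complex.im h
  simpa using this

lemma nsq (z : ℂ) (t : ℝ) : ‖(t : ℂ) - z‖ ^ 2 = (t - z.re) ^ 2 + z.im ^ 2 := by
  rw [← Complex.normSq_eq_norm_sq, Complex.normSq_apply]
  simp
  ring

lemma key {w : ℂ} (hw : w.im ≠ 0) : ∃ K δ : ℝ, 0 < δ ∧ 0 ≤ K ∧ ∀ z ∈ Metric.ball w δ,
    z.im ≠ 0 ∧ ∀ t : ℝ, 1 + t ^ 2 ≤ K * ‖(t : ℂ) - z‖ ^ 2 := by
  have hp : 0 < |w.im| := abs_pos.mpr hw
  set δ := |w.im| / 2 with hδ
  have hδ0 : 0 < δ := by positivity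
  set R := |w.re| + δ with hR
  refine ⟨2 + (1 + 2 * R ^ 2) / δ ^ 2, δ, hδ0, by positivity, ?_⟩
  intro z hz
  rw [Metric.mem_ball, dist_eq_norm] at hz
  have h1 : |z.re - w.re| ≤ ‖z - w‖ := by simpa using Complex.abs_re_le_norm (z - w)
  have h2 : |z.im - w.im| ≤ ‖z - w‖ := by simpa using Complex.abs_im_le_norm (z - w)
  have h3 : δ ≤ |z.im| := by
    have := abs_sub_abs_le_abs_sub w.im z.im
    rw [abs_sub_comm] at this
    linarith
  have h4 : |z.re| ≤ R := by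
    have := abs_sub_abs_le_abs_sub z.re w.re
    linarith
  have h5 : z.im ≠ 0 := by
    intro h
    rw [h, abs_zero] at h3
    linarith
  refine ⟨h5, fun t => ?_⟩
  rw [nsq]
  have h6 : δ ^ 2 ≤ z.im ^ 2 := by
    rw [← sq_abs z.im]
    exact pow_le_pow_left₀ hδ0.le h3 2
  have h7 : z.re ^ 2 ≤ R ^ 2 := by
    rw [← sq_abs z.re]
    exact pow_le_pow_left₀ (abs_nonneg _) h4 2
  have h8 : (1 + 2 * R ^ 2) ≤ (1 + 2 * R ^ 2) / δ ^ 2 * z.im ^ 2 := by
    rw [div_mul_eq_mul_div, le_div_iff₀ (by positivity)]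
    exact mul_le_mul_of_nonneg_left h6 (by positivity)
  have h9 : 0 ≤ (1 + 2 * R ^ 2) / δ ^ 2 * (t - z.re) ^ 2 := by positivity
  nlinarith [sq_nonneg (t - 2 * z.re), sq_nonneg z.im]

lemma cont_inv {w : ℂ} (hw : w.im ≠ 0) : Continuous fun t : ℝ => ((t : ℂ) - w)⁻¹ :=
  Continuous.inv₀ (by fun_prop) fun t => ne_of_im hw t

lemma neI : (-I : ℂ).im ≠ 0 := by simp

lemma cont_ker {w : ℂ} (hw : w.im ≠ 0) : Continuous (ker w) := by
  have h := cont_inv neI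
  simp only [sub_neg_eq_add] at h
  exact (cont_inv hw).sub h

lemma inv_bound {K : ℝ} {z : ℂ} {t : ℝ} (hz : z.im ≠ 0)
    (h : 1 + t ^ 2 ≤ K * ‖(t : ℂ) - z‖ ^ 2) : ‖((t : ℂ) - z)⁻¹‖ ^ 2 ≤ K * (1 + t ^ 2)⁻¹ := by
  have h0 : 0 < ‖(t : ℂ) - z‖ := norm_pos_iff.mpr (ne_of_im hz t)
  rw [norm_inv, inv_pow, ← div_eq_mul_inv, inv_eq_one_div, div_le_div_iff₀ (by positivity)
    (by positivity)]
  linarith

lemma ker_eq {w : ℂ} (hw : w.im ≠ 0) (t : ℝ) :
    ker w t = (w + I) * (((t : ℂ) - w)⁻¹ * ((t : ℂ) + I)⁻¹) := by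
  have h1 := ne_of_im hw t
  have h2 : (t : ℂ) + I ≠ 0 := by
    have := ne_of_im neI t
    simpa using this
  unfold ker
  field_simp
  ring

lemma normI (t : ℝ) : ‖((t : ℂ) + I)⁻¹‖ ^ 2 = (1 + t ^ 2)⁻¹ := by
  have := nsq (-I) t
  simp only [sub_neg_eq_add] at this
  rw [norm_inv, inv_pow, this]
  simp
  ring

lemma ker_bound {w : ℂ} (hw : w.im ≠ 0) {K : ℝ} {t : ℝ}
    (h : 1 + t ^ 2 ≤ K * ‖(t : ℂ) - w‖ ^ 2) :
    ‖ker w t‖ ≤ ‖w + I‖ * ((K + 1) * (1 + t ^ 2)⁻¹) := by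
  rw [ker_eq hw, norm_mul, norm_mul]
  apply mul_le_mul_of_nonneg_left _ (norm_nonneg _)
  have h1 := inv_bound hw h
  have h2 := normI t
  nlinarith [sq_nonneg (‖((t : ℂ) - w)⁻¹‖ - ‖((t : ℂ) + I)⁻¹‖), sq_nonneg ‖((t : ℂ) - w)⁻¹‖,
    sq_nonneg ‖((t : ℂ) + I)⁻¹‖]

lemma integ {g : ℝ → ℂ} (hg : Continuous g) {c : ℝ} (hc : ∀ t, ‖g t‖ ≤ c) {w : ℂ}
    (hw : w.im ≠ 0) : Integrable fun t => ker w t * g t := by
  obtain ⟨K, δ, hδ, hK, h⟩ := key hw
  have hw' := (h w (Metric.mem_ball_self hδ)).2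
  have hI : Integrable fun t : ℝ => ‖w + I‖ * ((K + 1) * (1 + t ^ 2)⁻¹) * c :=
    ((integrable_inv_one_add_sq.const_mul _).const_mul _).mul_const _
  refine hI.mono' ((cont_ker hw).mul hg).aestronglyMeasurable (Eventually.of_forall fun t => ?_)
  rw [norm_mul]
  exact mul_le_mul (ker_bound hw (hw' t)) (hc t) (norm_nonneg _) (by positivity)

lemma deriv_int {g : ℝ → ℂ} (hg : Continuous g) {c : ℝ} (hc : ∀ t, ‖g t‖ ≤ c) {w : ℂ}
    (hw : w.im ≠ 0) : HasDerivAt (fun z => ∫ t : ℝ, ker z t * g t)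
      (∫ t : ℝ, g t * ((t : ℂ) - w)⁻¹ ^ 2) w := by
  obtain ⟨K, δ, hδ, hK, h⟩ := key hw
  have hc0 : 0 ≤ c := (norm_nonneg _).trans (hc 0)
  have hmem : ∀ᶠ z in 𝓝 w, z ∈ Metric.ball w δ := Metric.ball_mem_nhds w hδ
  refine (hasDerivAt_integral_of_dominated_loc_of_deriv_le
    (F := fun z t => ker z t * g t) (F' := fun z t => g t * ((t : ℂ) - z)⁻¹ ^ 2)
    (bound := fun t => c * (K * (1 + t ^ 2)⁻¹)) (Metric.ball_mem_nhds w hδ) ?_
    (integ hg hc hw) ?_ ?_ ?_ ?_).2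
  · filter_upwards [hmem] with z hz
    exact ((cont_ker (h z hz).1).mul hg).aestronglyMeasurable
  · exact (hg.mul ((cont_inv hw).pow 2)).aestronglyMeasurable
  · refine Eventually.of_forall fun t z hz => ?_
    rw [norm_mul, norm_pow]
    exact mul_le_mul (hc t) (inv_bound (h z hz).1 ((h z hz).2 t)) (by positivity) hc0
  · exact (integrable_inv_one_add_sq.const_mul _).const_mul _
  · refine Eventually.of_forall fun t z hz => ?_
    have hz0 := ne_of_im (h z hz).1 t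
    have h1 : HasDerivAt (fun z : ℂ => (t : ℂ) - z) (-1) z := by
      simpa using (hasDerivAt_id z).const_sub (t : ℂ)
    have h2 := (h1.inv hz0).sub_const (((t : ℂ) + I)⁻¹)
    have h3 := h2.mul_const (g t)
    have h4 : g t * ((t : ℂ) - z)⁻¹ ^ 2 = - -1 / ((t : ℂ) - z) ^ 2 * g t := by
      rw [neg_neg, one_div, inv_pow, mul_comm]
    show HasDerivAt (fun z => ker z t * g t) (g t * ((t : ℂ) - z)⁻¹ ^ 2) z
    rw [h4]
    exact h3

lemma lower_zero {g : ℝ → ℂ} (hg : Continuous g) {c : ℝ} (hc : ∀ t, ‖g t‖ ≤ c) (hA : Ana g)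
    {w : ℂ} (hw : w.im < 0) : ∫ t : ℝ, ker w t * g t = 0 := by
  have hop : IsOpen {z : ℂ | z.im < 0} := isOpen_lt Complex.continuous_im continuous_const
  have hcv : Convex ℝ {z : ℂ | z.im < 0} := convex_halfSpace_im_lt 0
  have hI : (-I : ℂ) ∈ {z : ℂ | z.im < 0} := by simp
  have h1 : ∀ z ∈ {z : ℂ | z.im < 0}, HasDerivAt (fun z => ∫ t : ℝ, ker z t * g t) 0 z := by
    intro z hz
    have := deriv_int hg hc (w := z) (ne_of_lt hz)
    rwa [hA z hz] at this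
  have h2 := hop.is_const_of_deriv_eq_zero hcv.isPreconnected
    (fun z hz => (h1 z hz).differentiableAt.differentiableWithinAt)
    (fun z hz => (h1 z hz).deriv) hw hI
  rw [h2]
  have : ∀ t : ℝ, ker (-I) t * g t = 0 := fun t => by simp [ker]
  simp [this]

end THOL

open THOL in
theorem t_HOL : S_HOL := by
  rintro g hg ⟨c, hc⟩ hA
  refine ⟨fun z => (2 * Real.pi * I)⁻¹ * ∫ t : ℝ, THOL.ker z t * g t, ?_, ?_⟩
  · intro z hz
    exact ((deriv_int hg hc (ne_of_gt hz)).const_mul _).differentiableAt.differentiableWithinAt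
  · intro x s hs
    have hz : ((x : ℂ) + s * I).im ≠ 0 := by simpa using hs.ne'
    have hz' : ((x : ℂ) - s * I).im < 0 := by simpa using hs
    have h0 := lower_zero hg hc hA hz'
    have h1 : ∫ t : ℝ, ker (x + s * I) t * g t =
        ∫ t : ℝ, (ker (x + s * I) t * g t - ker (x - s * I) t * g t) := by
      rw [integral_sub (integ hg hc hz) (integ hg hc hz'.ne), h0, sub_zero]
    show (2 * Real.pi * I)⁻¹ * ∫ t : ℝ, THOL.ker (x + s * I) t * g t = _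
    rw [h1, ← integral_const_mul]
    congr 1
    ext t
    have hn1 := ne_of_im hz t
    have hn2 := ne_of_im hz'.ne t
    have hpi : (Real.pi : ℂ) ≠ 0 := by exact_mod_cast Real.pi_ne_zero
    have hsq : (s : ℂ) ^ 2 + ((t : ℂ) - x) ^ 2 ≠ 0 := by
      have : (s ^ 2 + (t - x) ^ 2 : ℝ) ≠ 0 := by positivity
      exact_mod_cast this
    have hprod : ((t : ℂ) - (x + s * I)) * ((t : ℂ) - (x - s * I)) =
        (s : ℂ) ^ 2 + ((t : ℂ) - x) ^ 2 := by
      ring_nf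
      rw [Complex.I_sq]
      ring
    have hdiff : ker (x + s * I) t - ker (x - s * I) t =
        2 * s * I / ((s : ℂ) ^ 2 + ((t : ℂ) - x) ^ 2) := by
      rw [← hprod]
      unfold THOL.ker
      rw [sub_sub_sub_cancel_right, inv_sub_inv hn1 hn2]
      congr 1
      ring
    rw [← sub_mul, hdiff]
    unfold Po
    push_cast
    have hI : (I : ℂ) ≠ 0 := I_ne_zero
    field_simp

end

end Pool.Agent.W660.FL
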