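import Pool.Agent.W660.FL.Stm

/-! # Project FL, part LG: charts of Lie groups -/

namespace Pool.Agent.W660.FL

open MeasureTheory Complex Filter Topology
open scoped ComplexConjugate InnerProductSpace Manifold ContDiff

noncomputable section

namespace TLG

variable {G E : Type} [Group G] [TopologicalSpace G] [NormedAddCommGroup E]
  [NormedSpace ℝ E] [ChartedSpace E G]

/-- the chart at the identity, centred -/
def kap (G E : Type) [Group G] [TopologicalSpace G] [NormedAddCommGroup E]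
    [NormedSpace ℝ E] [ChartedSpace E G] : OpenPartialHomeomorph G E :=
  (chartAt E (1 : G)).trans
    (Homeomorph.addRight (-(chartAt E (1 : G)) 1)).toOpenPartialHomeomorph

theorem kap_source : (kap G E).source = (chartAt E (1 : G)).source := by
  unfold kap
  rw [OpenPartialHomeomorph.trans_source]
  simp

theorem kap_apply (x : G) : kap G E x = (chartAt E (1 : G)) x + -(chartAt E (1 : G)) 1 := by
  unfold kap
  simp

theorem kap_symm (a : E) : (kap G E).symm a = (chartAt E (1 : G)).symm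
    (a + (chartAt E (1 : G)) 1) := by
  unfold kap
  simp [Homeomorph.addRight]

theorem one_mem : (1 : G) ∈ (kap G E).source := by
  rw [kap_source]; exact mem_chart_source E 1

theorem kap_one : kap G E 1 = 0 := by rw [kap_apply]; simp

theorem kap_symm_zero : (kap G E).symm 0 = (1 : G) := by
  rw [← kap_one (G := G) (E := E)]
  exact (kap G E).left_inv one_mem

variable [LieGroup 𝓘(ℝ, E) ∞ G]

theorem kap_smooth : ContMDiffAt 𝓘(ℝ, E) 𝓘(ℝ, E) ∞ (kap G E) (1 : G) := by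
  have h1 : ContMDiffAt 𝓘(ℝ, E) 𝓘(ℝ, E) ∞ (chartAt E (1 : G)) (1 : G) :=
    (contMDiffOn_chart (I := 𝓘(ℝ, E)) (n := ∞) (x := (1 : G))).contMDiffAt
      ((chartAt E (1 : G)).open_source.mem_nhds (mem_chart_source E 1))
  have h2 : ContMDiffAt 𝓘(ℝ, E) 𝓘(ℝ, E) ∞ (fun y : E => y + -(chartAt E (1 : G)) 1)
      ((chartAt E (1 : G)) 1) :=
    contMDiffAt_iff_contDiffAt.2 (contDiffAt_id.add contDiffAt_const)
  have h3 := h2.comp (1 : G) h1
  have e : (kap G E : G → E) = (fun y : E => y + -(chartAt E (1 : G)) 1) ∘ (chartAt E (1 : G)) := by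
    funext x; exact kap_apply x
  rw [e]
  exact h3

theorem kap_symm_smooth : ContMDiffAt 𝓘(ℝ, E) 𝓘(ℝ, E) ∞ ((kap G E).symm) (0 : E) := by
  have h1 : ContMDiffAt 𝓘(ℝ, E) 𝓘(ℝ, E) ∞ ((chartAt E (1 : G)).symm)
      ((chartAt E (1 : G)) 1) :=
    (contMDiffOn_chart_symm (I := 𝓘(ℝ, E)) (n := ∞) (x := (1 : G))).contMDiffAt
      ((chartAt E (1 : G)).open_target.mem_nhds (mem_chart_target E 1))
  have h2 : ContMDiffAt 𝓘(ℝ, E) 𝓘(ℝ, E) ∞ (fun y : E => y + (chartAt E (1 : G)) 1) (0 : E) :=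
    contMDiffAt_iff_contDiffAt.2 (contDiffAt_id.add contDiffAt_const)
  have h1' : ContMDiffAt 𝓘(ℝ, E) 𝓘(ℝ, E) ∞ ((chartAt E (1 : G)).symm)
      ((fun y : E => y + (chartAt E (1 : G)) 1) 0) := by
    simpa using h1
  have h3 := h1'.comp (0 : E) h2
  have e : ((kap G E).symm : E → G) =
      ((chartAt E (1 : G)).symm) ∘ (fun y : E => y + (chartAt E (1 : G)) 1) := by
    funext x; exact kap_symm x
  rw [e]
  exact h3

end TLG

open TLG in
theorem t_LG : S_LG := by
  intro G E _ _ _ _ _ _ _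
  haveI : ContMDiffMul 𝓘(ℝ, E) ∞ G := inferInstance
  refine ⟨⟨kap G E, one_mem, kap_one, ?_, ?_, ?_⟩⟩
  · refine contMDiffAt_iff_contDiffAt.1 ?_
    have hf : ContMDiffAt 𝓘(ℝ, E × E) 𝓘(ℝ, E) ∞ (fun p : E × E => (kap G E).symm p.1)
        ((0, 0) : E × E) :=
      ContMDiffAt.comp (I' := 𝓘(ℝ, E)) ((0, 0) : E × E) (g := ((kap G E).symm : E → G))
        (f := fun p : E × E => p.1) kap_symm_smooth
        (contMDiffAt_iff_contDiffAt.2 contDiffAt_fst)
    have hg : ContMDiffAt 𝓘(ℝ, E × E) 𝓘(ℝ, E) ∞ (fun p : E × E => (kap G E).symm p.2)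
        ((0, 0) : E × E) :=
      ContMDiffAt.comp (I' := 𝓘(ℝ, E)) ((0, 0) : E × E) (g := ((kap G E).symm : E → G))
        (f := fun p : E × E => p.2) kap_symm_smooth
        (contMDiffAt_iff_contDiffAt.2 contDiffAt_snd)
    have hm := hf.mul hg
    have hk : ContMDiffAt 𝓘(ℝ, E) 𝓘(ℝ, E) ∞ (kap G E)
        (((fun p : E × E => (kap G E).symm p.1) * (fun p : E × E => (kap G E).symm p.2)) (0, 0)) := by
      have : ((fun p : E × E => (kap G E).symm p.1) * (fun p : E × E => (kap G E).symm p.2)) (0, 0)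
          = (1 : G) := by
        show (kap G E).symm 0 * (kap G E).symm 0 = 1
        rw [kap_symm_zero, one_mul]
      rw [this]
      exact kap_smooth
    exact hk.comp ((0, 0) : E × E) hm
  · refine contMDiffAt_iff_contDiffAt.1 ?_
    have hf : ContMDiffAt 𝓘(ℝ, E) 𝓘(ℝ, E) ∞ (fun a : E => ((kap G E).symm a)⁻¹) (0 : E) :=
      kap_symm_smooth.inv
    have hk : ContMDiffAt 𝓘(ℝ, E) 𝓘(ℝ, E) ∞ (kap G E)
        ((fun a : E => ((kap G E).symm a)⁻¹) 0) := by
      show ContMDiffAt 𝓘(ℝ, E) 𝓘(ℝ, E) ∞ (kap G E) ((kap G E).symm 0)⁻¹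
      rw [kap_symm_zero, inv_one]
      exact kap_smooth
    exact hk.comp (0 : E) hf
  · intro g
    refine contMDiffAt_iff_contDiffAt.1 ?_
    have hf : ContMDiffAt 𝓘(ℝ, E) 𝓘(ℝ, E) ∞ (fun a : E => g * (kap G E).symm a * g⁻¹) (0 : E) :=
      (contMDiffAt_const.mul kap_symm_smooth).mul contMDiffAt_const
    have hk : ContMDiffAt 𝓘(ℝ, E) 𝓘(ℝ, E) ∞ (kap G E)
        ((fun a : E => g * (kap G E).symm a * g⁻¹) 0) := by
      show ContMDiffAt 𝓘(ℝ, E) 𝓘(ℝ, E) ∞ (kap G E) (g * (kap G E).symm 0 * g⁻¹)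
      rw [kap_symm_zero, mul_one, mul_inv_cancel]
      exact kap_smooth
    exact hk.comp (0 : E) hf

end

end Pool.Agent.W660.FL
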