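import Pool.Agent.W660.FL.Stm

/-!
Laplace integrals with a doubling measure.
-/

namespace Pool.Agent.W660.FL

open MeasureTheory Complex Filter Topology
open scoped ComplexConjugate InnerProductSpace Manifold ContDiff

noncomputable section

namespace TMEAS

/-- the profile times a power is bounded -/
theorem prof_bound (c : ℝ) (hc : 0 < c) (P : ℕ) (s : ℝ) :
    (1 + s ^ 2) ^ (P + 1) * Real.exp (-c * s ^ 2) ≤
      ((P + 1).factorial : ℝ) * Real.exp c / c ^ (P + 1) := by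
  have h1 : 0 ≤ c * (1 + s ^ 2) := by positivity
  have h2 := Real.pow_div_factorial_le_exp (c * (1 + s ^ 2)) h1 (P + 1)
  have h3 : Real.exp (c * (1 + s ^ 2)) = Real.exp c * Real.exp (c * s ^ 2) := by
    rw [← Real.exp_add]; ring_nf
  rw [h3, div_le_iff₀ (by positivity), mul_pow] at h2
  rw [le_div_iff₀ (by positivity)]
  have h4 : Real.exp (-c * s ^ 2) * Real.exp (c * s ^ 2) = 1 := by
    rw [← Real.exp_add]; ring_nf; exact Real.exp_zero
  calc (1 + s ^ 2) ^ (P + 1) * Real.exp (-c * s ^ 2) * c ^ (P + 1)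
      = (c ^ (P + 1) * (1 + s ^ 2) ^ (P + 1)) * Real.exp (-c * s ^ 2) := by ring
    _ ≤ (Real.exp c * Real.exp (c * s ^ 2) * ((P + 1).factorial : ℝ)) *
        Real.exp (-c * s ^ 2) := mul_le_mul_of_nonneg_right h2 (Real.exp_pos _).le
    _ = ((P + 1).factorial : ℝ) * Real.exp c *
        (Real.exp (-c * s ^ 2) * Real.exp (c * s ^ 2)) := by ring
    _ = ((P + 1).factorial : ℝ) * Real.exp c := by rw [h4, mul_one]

theorem pow_le_one_add_sq (P : ℕ) (s : ℝ) (hs : 0 ≤ s) : s ^ P ≤ (1 + s ^ 2) ^ P := by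
  apply pow_le_pow_left₀ hs
  nlinarith [sq_nonneg (s - 1)]

/-- growth of a doubling function -/
theorem growth (m : ℝ → ℝ) (L r₀ : ℝ) (hr₀ : 0 < r₀) (hmono : ∀ r s, r ≤ s → m r ≤ m s)
    (hle : ∀ s, m s ≤ m r₀) (hnn : ∀ s, 0 ≤ m s)
    (hd : ∀ r, 0 < r → 2 * r ≤ r₀ → m (2 * r) ≤ L * m r) (L₁ : ℝ) (hL : L ≤ L₁) (hL0 : 0 ≤ L₁)
    (r : ℝ) (hr : 0 < r) : ∀ j : ℕ, m (2 ^ j * r) ≤ L₁ ^ j * m r := by
  intro j
  induction j with
  | zero => simp
  | succ j ih =>
    have hpos : 0 < 2 ^ j * r := by positivity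
    have key : m (2 ^ (j + 1) * r) ≤ L₁ * m (2 ^ j * r) := by
      by_cases h : 2 * (2 ^ j * r) ≤ r₀
      · have := hd (2 ^ j * r) hpos h
        have e : (2 : ℝ) ^ (j + 1) * r = 2 * (2 ^ j * r) := by ring
        rw [e]
        exact this.trans (mul_le_mul_of_nonneg_right hL (hnn _))
      · rw [not_le] at h
        have h1 := hd (r₀ / 2) (by positivity) (by linarith)
        have h2 : 2 * (r₀ / 2) = r₀ := by ring
        rw [h2] at h1
        have h3 : m (r₀ / 2) ≤ m (2 ^ j * r) := hmono _ _ (by linarith)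
        calc m (2 ^ (j + 1) * r) ≤ m r₀ := hle _
          _ ≤ L * m (r₀ / 2) := h1
          _ ≤ L₁ * m (r₀ / 2) := mul_le_mul_of_nonneg_right hL (hnn _)
          _ ≤ L₁ * m (2 ^ j * r) := mul_le_mul_of_nonneg_left h3 hL0
    calc m (2 ^ (j + 1) * r) ≤ L₁ * m (2 ^ j * r) := key
      _ ≤ L₁ * (L₁ ^ j * m r) := mul_le_mul_of_nonneg_left ih hL0
      _ = L₁ ^ (j + 1) * m r := by ring

/-- least power of two -/
theorem exists_least (t : ℝ) : ∃ j : ℕ, t ≤ 2 ^ j ∧ (j = 0 ∨ (2 : ℝ) ^ j < 2 * t) := by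
  classical
  have hex : ∃ j : ℕ, t ≤ 2 ^ j := by
    obtain ⟨j, hj⟩ := pow_unbounded_of_one_lt t (by norm_num : (1 : ℝ) < 2)
    exact ⟨j, hj.le⟩
  refine ⟨Nat.find hex, Nat.find_spec hex, ?_⟩
  rcases Nat.eq_zero_or_pos (Nat.find hex) with h | h
  · exact Or.inl h
  · right
    obtain ⟨k, hk⟩ := Nat.exists_eq_succ_of_ne_zero h.ne'
    have hmin := Nat.find_min hex (m := k) (by omega)
    rw [not_le] at hmin
    rw [hk, Nat.succ_eq_add_one, pow_succ]
    linarith

/-- pointwise bound -/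
theorem pointwise (c : ℝ) (hc : 0 < c) (P : ℕ) (L₁ : ℝ) (hL1 : 1 ≤ L₁) (hLP : 2 * L₁ ≤ 2 ^ P)
    (s : ℝ) (hs : 0 ≤ s) (J : ℕ) (hJ : s ≤ 2 ^ J) :
    (1 + s ^ 2) * Real.exp (-c * s ^ 2) ≤ ∑ j ∈ Finset.range (J + 1), (if s ≤ 2 ^ j then
      (2 ^ P * (((P + 1).factorial : ℝ) * Real.exp c / c ^ (P + 1))) * (1 / (2 * L₁)) ^ j
        else 0) := by
  set D : ℝ := ((P + 1).factorial : ℝ) * Real.exp c / c ^ (P + 1) with hD
  have hDpos : 0 < D := by rw [hD]; positivity
  have hL0 : 0 < 2 * L₁ := by linarith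
  obtain ⟨j, hj1, hj2⟩ := exists_least s
  have hjJ : j ≤ J := by
    rcases hj2 with h | h
    · omega
    · by_contra hlt
      rw [not_le] at hlt
      have h1 : (2 : ℝ) ^ (J + 1) ≤ 2 ^ j := pow_le_pow_right₀ (by norm_num) hlt
      have h2 : (2 : ℝ) ^ (J + 1) = 2 * 2 ^ J := by ring
      linarith
  have hb := prof_bound c hc P s
  rw [← hD] at hb
  have hmain : (1 + s ^ 2) * Real.exp (-c * s ^ 2) ≤ 2 ^ P * D * (1 / (2 * L₁)) ^ j := by
    have hone : (1 : ℝ) ≤ 2 ^ P := one_le_pow₀ (by norm_num)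
    have hprof : s ^ P * ((1 + s ^ 2) * Real.exp (-c * s ^ 2)) ≤ D := by
      calc s ^ P * ((1 + s ^ 2) * Real.exp (-c * s ^ 2))
          ≤ (1 + s ^ 2) ^ P * ((1 + s ^ 2) * Real.exp (-c * s ^ 2)) :=
            mul_le_mul_of_nonneg_right (pow_le_one_add_sq P s hs) (by positivity)
        _ = (1 + s ^ 2) ^ (P + 1) * Real.exp (-c * s ^ 2) := by ring
        _ ≤ D := hb
    have hprof0 : (1 + s ^ 2) * Real.exp (-c * s ^ 2) ≤ D := by
      have h5 : (1 : ℝ) ≤ (1 + s ^ 2) ^ P := one_le_pow₀ (by nlinarith [sq_nonneg s])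
      calc (1 + s ^ 2) * Real.exp (-c * s ^ 2)
          ≤ (1 + s ^ 2) ^ P * ((1 + s ^ 2) * Real.exp (-c * s ^ 2)) :=
            le_mul_of_one_le_left (by positivity) h5
        _ = (1 + s ^ 2) ^ (P + 1) * Real.exp (-c * s ^ 2) := by ring
        _ ≤ D := hb
    rcases hj2 with h | h
    · subst h
      rw [pow_zero, mul_one]
      calc (1 + s ^ 2) * Real.exp (-c * s ^ 2) ≤ D := hprof0
        _ ≤ 2 ^ P * D := le_mul_of_one_le_left hDpos.le hone
    · rw [div_pow, one_pow, mul_one_div, le_div_iff₀ (by positivity)]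
      have h6 : (2 * L₁) ^ j ≤ (2 ^ P * s ^ P) := by
        calc (2 * L₁) ^ j ≤ ((2 : ℝ) ^ P) ^ j := pow_le_pow_left₀ hL0.le hLP j
          _ = ((2 : ℝ) ^ j) ^ P := by rw [← pow_mul, ← pow_mul, mul_comm]
          _ ≤ (2 * s) ^ P := pow_le_pow_left₀ (by positivity) h.le P
          _ = 2 ^ P * s ^ P := by rw [mul_pow]
      calc (1 + s ^ 2) * Real.exp (-c * s ^ 2) * (2 * L₁) ^ j
          ≤ (1 + s ^ 2) * Real.exp (-c * s ^ 2) * (2 ^ P * s ^ P) :=
            mul_le_mul_of_nonneg_left h6 (by positivity)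
        _ = 2 ^ P * (s ^ P * ((1 + s ^ 2) * Real.exp (-c * s ^ 2))) := by ring
        _ ≤ 2 ^ P * D := mul_le_mul_of_nonneg_left hprof (by positivity)
  refine hmain.trans ?_
  have hmem : j ∈ Finset.range (J + 1) := by
    rw [Finset.mem_range]; omega
  have hsingle := Finset.single_le_sum (f := fun j : ℕ => if s ≤ 2 ^ j then
      (2 ^ P * D) * (1 / (2 * L₁)) ^ j else 0) (s := Finset.range (J + 1)) (fun i _ => by
        split_ifs
        · positivity
        · exact le_rfl) hmem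
  simp only [if_pos hj1] at hsingle
  exact hsingle

end TMEAS

open TMEAS in
theorem t_MEAS : S_MEAS := by
  intro X _ ν N ρ L r₀ hN hρ hfin hr₀ hρ0 hρN hpos hdoub c hc
  set m : ℝ → ℝ := fun r => ν.real {x | x ∈ N ∧ ρ x ≤ r} with hm
  have hsub : ∀ r, {x | x ∈ N ∧ ρ x ≤ r} ⊆ N := fun r x hx => hx.1
  have hfin' : ∀ r, ν {x | x ∈ N ∧ ρ x ≤ r} ≠ ⊤ := fun r =>
    ne_top_of_le_ne_top hfin (measure_mono (hsub r))
  have hmono : ∀ r s, r ≤ s → m r ≤ m s := by
    intro r s hrs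
    exact measureReal_mono (fun x hx => ⟨hx.1, hx.2.trans hrs⟩) (hfin' s)
  have hle : ∀ s, m s ≤ m r₀ := by
    intro s
    exact measureReal_mono (fun x hx => ⟨hx.1, hρN x hx.1⟩) (hfin' r₀)
  have hnn : ∀ s, 0 ≤ m s := fun s => measureReal_nonneg
  have hd : ∀ r, 0 < r → 2 * r ≤ r₀ → m (2 * r) ≤ L * m r := hdoub
  set L₁ : ℝ := max L 1 with hL₁
  have hLL : L ≤ L₁ := le_max_left _ _
  have hL1 : 1 ≤ L₁ := le_max_right _ _
  have hL0 : 0 ≤ L₁ := zero_le_one.trans hL1
  have hgrow := growth m L r₀ hr₀ hmono hle hnn hd L₁ hLL hL0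
  obtain ⟨P, hP⟩ := pow_unbounded_of_one_lt (2 * L₁) (by norm_num : (1 : ℝ) < 2)
  refine ⟨?_, ?_⟩
  · -- the integral
    set A : ℝ := 2 ^ P * (((P + 1).factorial : ℝ) * Real.exp c / c ^ (P + 1)) with hA
    have hA0 : 0 ≤ A := by rw [hA]; positivity
    refine ⟨2 * A, ?_⟩
    intro n hn
    have hn0 : 0 < n := by
      rcases Nat.eq_zero_or_pos n with h | h
      · rw [h] at hn; norm_num at hn
      · exact h
    have hnR : (0 : ℝ) < n := by exact_mod_cast hn0
    have hsq : 0 < Real.sqrt n := Real.sqrt_pos.mpr hnR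
    set r : ℝ := 1 / Real.sqrt n with hr
    have hrpos : 0 < r := by rw [hr]; positivity
    obtain ⟨J, hJ⟩ := pow_unbounded_of_one_lt (r₀ / r) (by norm_num : (1 : ℝ) < 2)
    have hns : ∀ x, (n : ℝ) * ρ x ^ 2 = (ρ x / r) ^ 2 := by
      intro x
      rw [hr, div_div_eq_mul_div, div_one, mul_pow, Real.sq_sqrt hnR.le]
      ring
    have hpt : ∀ x ∈ N, (1 + n * ρ x ^ 2) * Real.exp (-c * n * ρ x ^ 2) ≤
        ∑ j ∈ Finset.range (J + 1), ({y | ρ y ≤ 2 ^ j * r} : Set X).indicator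
          (fun _ => A * (1 / (2 * L₁)) ^ j) x := by
      intro x hx
      have h1 := pointwise c hc P L₁ hL1 hP.le (ρ x / r) (div_nonneg (hρ0 x) hrpos.le) J
        ((div_le_div_of_nonneg_right (hρN x hx) hrpos.le).trans hJ.le)
      rw [← hns x, ← mul_assoc] at h1
      refine h1.trans (le_of_eq ?_)
      apply Finset.sum_congr rfl
      intro j _
      rw [Set.indicator_apply]
      have : (ρ x / r ≤ 2 ^ j) ↔ x ∈ {y | ρ y ≤ 2 ^ j * r} := by
        rw [div_le_iff₀ hrpos]; rfl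
      by_cases h : ρ x / r ≤ 2 ^ j
      · rw [if_pos h, if_pos (this.mp h)]
      · rw [if_neg h, if_neg (fun h' => h (this.mpr h'))]
    have : IsFiniteMeasure (ν.restrict N) := ⟨by
      rw [Measure.restrict_apply_univ]; exact lt_top_iff_ne_top.mpr hfin⟩
    have hmS : ∀ j : ℕ, MeasurableSet {y | ρ y ≤ 2 ^ j * r} := fun j =>
      measurableSet_le hρ measurable_const
    have hint : ∀ j : ℕ, Integrable (({y | ρ y ≤ 2 ^ j * r} : Set X).indicator
          (fun _ => A * (1 / (2 * L₁)) ^ j)) (ν.restrict N) := fun j =>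
      (integrable_const _).indicator (hmS j)
    calc ∫ x in N, (1 + n * ρ x ^ 2) * Real.exp (-c * n * ρ x ^ 2) ∂ν
        ≤ ∫ x in N, ∑ j ∈ Finset.range (J + 1), ({y | ρ y ≤ 2 ^ j * r} : Set X).indicator
          (fun _ => A * (1 / (2 * L₁)) ^ j) x ∂ν := by
          apply integral_mono_of_nonneg
          · exact Eventually.of_forall (fun x => by positivity)
          · exact integrable_finsetSum _ (fun j _ => hint j)
          · exact (ae_restrict_iff' hN).mpr (Eventually.of_forall hpt)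
      _ = ∑ j ∈ Finset.range (J + 1), m (2 ^ j * r) * (A * (1 / (2 * L₁)) ^ j) := by
          rw [integral_finsetSum _ (fun j _ => hint j)]
          apply Finset.sum_congr rfl
          intro j _
          rw [integral_indicator_const _ (hmS j), smul_eq_mul,
            measureReal_restrict_apply (hmS j)]
          congr 2
          ext x
          simp only [Set.mem_inter_iff, Set.mem_ofPred_eq]
          exact and_comm
      _ ≤ ∑ j ∈ Finset.range (J + 1), (1 / 2) ^ j * (A * m r) := by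
          apply Finset.sum_le_sum
          intro j _
          have h1 := hgrow r hrpos j
          have h2 : 0 ≤ A * (1 / (2 * L₁)) ^ j := by positivity
          calc m (2 ^ j * r) * (A * (1 / (2 * L₁)) ^ j)
              ≤ (L₁ ^ j * m r) * (A * (1 / (2 * L₁)) ^ j) := mul_le_mul_of_nonneg_right h1 h2
            _ = (L₁ * (1 / (2 * L₁))) ^ j * (A * m r) := by rw [mul_pow]; ring
            _ = (1 / 2) ^ j * (A * m r) := by
                congr 2
                have : L₁ ≠ 0 := by linarith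
                field_simp
      _ = (∑ j ∈ Finset.range (J + 1), (1 / 2 : ℝ) ^ j) * (A * m r) := by
          rw [Finset.sum_mul]
      _ ≤ 2 * (A * m r) := by
          apply mul_le_mul_of_nonneg_right _ (mul_nonneg hA0 (hnn r))
          rw [geom_sum_eq (by norm_num)]
          have h7 : (0 : ℝ) ≤ (1 / 2) ^ (J + 1) := by positivity
          have h8 : ((1 / 2 : ℝ) ^ (J + 1) - 1) / (1 / 2 - 1) = 2 - 2 * (1 / 2) ^ (J + 1) := by
            rw [div_eq_iff (by norm_num)]
            ring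
          rw [h8]
          linarith
      _ = 2 * A * m r := by ring
  · -- the lower bound
    intro q hq0 hq1
    have hmr₀ : 0 < m r₀ := hpos r₀ hr₀ le_rfl
    have hbound : ∀ n : ℕ, 1 ≤ n → 1 / m (1 / Real.sqrt n) ≤
        (1 + 2 * r₀) ^ P / m r₀ * (n : ℝ) ^ P := by
      intro n hn
      have hnR : (1 : ℝ) ≤ n := by exact_mod_cast hn
      have hsq : 0 < Real.sqrt n := Real.sqrt_pos.mpr (by linarith)
      set r : ℝ := 1 / Real.sqrt n with hr
      have hrpos : 0 < r := by rw [hr]; positivity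
      obtain ⟨j, hj1, hj2⟩ := exists_least (r₀ / r)
      have h1 : m r₀ ≤ L₁ ^ j * m r := by
        refine (hmono _ _ ?_).trans (hgrow r hrpos j)
        rwa [div_le_iff₀ hrpos] at hj1
      have hsn : Real.sqrt n ≤ n := by
        rw [Real.sqrt_le_left (by linarith)]
        nlinarith
      have h2 : (2 : ℝ) ^ j ≤ (1 + 2 * r₀) * n := by
        rcases hj2 with h | h
        · rw [h, pow_zero]
          nlinarith
        · have h3 : r₀ / r = r₀ * Real.sqrt n := by
            rw [hr, div_div_eq_mul_div, div_one]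
          rw [h3] at h
          nlinarith
      have h4 : L₁ ^ j ≤ ((1 + 2 * r₀) * n) ^ P := by
        calc L₁ ^ j ≤ ((2 : ℝ) ^ P) ^ j := pow_le_pow_left₀ hL0 (by linarith) j
          _ = ((2 : ℝ) ^ j) ^ P := by rw [← pow_mul, ← pow_mul, mul_comm]
          _ ≤ ((1 + 2 * r₀) * n) ^ P := pow_le_pow_left₀ (by positivity) h2 P
      have hmr : 0 < m r := by
        rcases (hnn r).eq_or_lt with h | h
        · rw [← h, mul_zero] at h1
          exact absurd h1 (not_le.mpr hmr₀)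
        · exact h
      rw [div_le_iff₀ hmr]
      have h5 : m r₀ ≤ ((1 + 2 * r₀) * n) ^ P * m r :=
        h1.trans (mul_le_mul_of_nonneg_right h4 hmr.le)
      rw [mul_pow] at h5
      calc (1 : ℝ) = m r₀ / m r₀ := (div_self hmr₀.ne').symm
        _ ≤ ((1 + 2 * r₀) ^ P * (n : ℝ) ^ P * m r) / m r₀ :=
            div_le_div_of_nonneg_right h5 hmr₀.le
        _ = (1 + 2 * r₀) ^ P / m r₀ * (n : ℝ) ^ P * m r := by ring
    have hlim : Tendsto (fun n : ℕ => (1 + 2 * r₀) ^ P / m r₀ * ((n : ℝ) ^ P * q ^ n))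
        atTop (𝓝 0) := by
      have := (tendsto_pow_const_mul_const_pow_of_lt_one P hq0 hq1).const_mul
        ((1 + 2 * r₀) ^ P / m r₀)
      rwa [mul_zero] at this
    refine squeeze_zero' (Eventually.of_forall fun n => div_nonneg (pow_nonneg hq0 n) (hnn _))
      ?_ hlim
    filter_upwards [eventually_ge_atTop 1] with n hn
    have h := mul_le_mul_of_nonneg_left (hbound n hn) (pow_nonneg hq0 n)
    calc q ^ n / m (1 / Real.sqrt n) = q ^ n * (1 / m (1 / Real.sqrt n)) := by ring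
      _ ≤ q ^ n * ((1 + 2 * r₀) ^ P / m r₀ * (n : ℝ) ^ P) := h
      _ = (1 + 2 * r₀) ^ P / m r₀ * ((n : ℝ) ^ P * q ^ n) := by ring

end

end Pool.Agent.W660.FL
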