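import Pool.Agent.W660.FL.Stm

/-! Project FL, part MONO. -/

set_option autoImplicit false

namespace Pool.Agent.W660.FL

open MeasureTheory Complex Filter Topology
open scoped ComplexConjugate InnerProductSpace Manifold ContDiff

noncomputable section

namespace TMONO

/-- dominating function -/
def bnd (x r : ℝ) : ℝ := (1 + (r - x) ^ 2)⁻¹

theorem bnd_int (x : ℝ) : Integrable (bnd x) := (integrable_inv_one_add_sq).comp_sub_right x

theorem bnd_nonneg (x r : ℝ) : 0 ≤ bnd x r := by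
  unfold bnd
  positivity

theorem bnd_le (x r : ℝ) : bnd x r ≤ 1 := by
  unfold bnd
  apply inv_le_one_of_one_le₀
  nlinarith [sq_nonneg (r - x)]

/-- the denominator -/
def den (x y r : ℝ) : ℂ := (r : ℂ) - ((x : ℂ) - (y : ℂ) * Complex.I)

theorem den_sq (x y r : ℝ) : ‖den x y r‖ ^ 2 = (r - x) ^ 2 + y ^ 2 := by
  rw [Complex.sq_norm, Complex.normSq_apply]
  unfold den
  simp
  ring

theorem den_ne {x y r : ℝ} (hy : 0 < y) : den x y r ≠ 0 := by
  intro h
  have h1 := den_sq x y r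
  rw [h, norm_zero] at h1
  nlinarith [sq_nonneg (r - x), mul_pos hy hy]

theorem inv_sq_le {x y δ r : ℝ} (hδ : 0 < δ) (hδ1 : δ ≤ 1) (hy : δ ≤ y) :
    ‖(den x y r)⁻¹ ^ 2‖ ≤ δ⁻¹ ^ 2 * bnd x r := by
  rw [norm_pow, norm_inv, inv_pow, den_sq, inv_pow]
  unfold bnd
  rw [← mul_inv]
  apply inv_anti₀ (by positivity)
  have h1 : δ ^ 2 ≤ y ^ 2 := pow_le_pow_left₀ hδ.le hy 2
  have h2 : δ ^ 2 ≤ 1 := pow_le_one₀ hδ.le hδ1
  nlinarith [sq_nonneg (r - x), mul_nonneg (sub_nonneg.2 h2) (sq_nonneg (r - x))]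

theorem inv_le {x y δ r : ℝ} (hδ : 0 < δ) (hy : δ ≤ y) : ‖(den x y r)⁻¹‖ ≤ δ⁻¹ := by
  rw [norm_inv]
  apply inv_anti₀ hδ
  have h1 := den_sq x y r
  have h2 : δ ^ 2 ≤ ‖den x y r‖ ^ 2 := by
    rw [h1]
    nlinarith [sq_nonneg (r - x), pow_le_pow_left₀ hδ.le hy 2]
  exact le_of_sq_le_sq h2 (norm_nonneg _)

theorem inv_cube_le {x y δ r : ℝ} (hδ : 0 < δ) (hδ1 : δ ≤ 1) (hy : δ ≤ y) :
    ‖(den x y r)⁻¹ ^ 3‖ ≤ δ⁻¹ ^ 3 * bnd x r := by
  rw [pow_succ, norm_mul]
  calc ‖(den x y r)⁻¹ ^ 2‖ * ‖(den x y r)⁻¹‖ ≤ (δ⁻¹ ^ 2 * bnd x r) * δ⁻¹ :=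
        mul_le_mul (inv_sq_le hδ hδ1 hy) (inv_le hδ hy) (norm_nonneg _)
          (mul_nonneg (by positivity) (bnd_nonneg x r))
    _ = δ⁻¹ ^ 3 * bnd x r := by ring

theorem den_cont (x y : ℝ) : Continuous (den x y) := by
  unfold den
  exact Complex.continuous_ofReal.sub continuous_const

theorem inv_cont {x y : ℝ} (hy : 0 < y) : Continuous fun r => (den x y r)⁻¹ :=
  (den_cont x y).inv₀ fun _ => den_ne hy

variable {K : Type} [NormedAddCommGroup K] [InnerProductSpace ℂ K]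

theorem smul_int {x y δ : ℝ} (hδ : 0 < δ) (hδ1 : δ ≤ 1) (hy : δ ≤ y) {v : ℝ → K}
    (hv : Continuous v) {c : ℝ} (hc : ∀ r, ‖v r‖ = c) :
    Integrable fun r => (den x y r)⁻¹ ^ 2 • v r := by
  refine Integrable.mono' (g := fun r => δ⁻¹ ^ 2 * bnd x r * c) (((bnd_int x).const_mul _).mul_const _)
    (((inv_cont (hδ.trans_le hy)).pow 2).smul hv).aestronglyMeasurable ?_
  refine Filter.Eventually.of_forall fun r => ?_
  rw [norm_smul, hc]
  exact mul_le_mul_of_nonneg_right (inv_sq_le hδ hδ1 hy) (by rw [← hc r]; exact norm_nonneg _)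

theorem smul_int3 {x y δ : ℝ} (hδ : 0 < δ) (hδ1 : δ ≤ 1) (hy : δ ≤ y) {v : ℝ → K}
    (hv : Continuous v) {c : ℝ} (hc : ∀ r, ‖v r‖ = c) :
    Integrable fun r => (den x y r)⁻¹ ^ 3 • v r := by
  refine Integrable.mono' (g := fun r => δ⁻¹ ^ 3 * bnd x r * c) (((bnd_int x).const_mul _).mul_const _)
    (((inv_cont (hδ.trans_le hy)).pow 3).smul hv).aestronglyMeasurable ?_
  refine Filter.Eventually.of_forall fun r => ?_
  rw [norm_smul, hc]
  exact mul_le_mul_of_nonneg_right (inv_cube_le hδ hδ1 hy) (by rw [← hc r]; exact norm_nonneg _)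

/-- positivity for integrals -/
theorem pos_int [CompleteSpace K] (v v' : ℝ → K) (hv : Continuous v) (hv' : Continuous v')
    (hpos : ∀ (n : ℕ) (c : Fin n → ℂ) (r : Fin n → ℝ),
      0 ≤ (-Complex.I * ⟪∑ j, c j • v (r j), ∑ j, c j • v' (r j)⟫_ℂ).re)
    (f : ℝ → ℂ) (hf : Continuous f) (h1 : Integrable fun r => f r • v r)
    (h2 : Integrable fun r => f r • v' r) :
    0 ≤ (-Complex.I * ⟪∫ r, f r • v r, ∫ r, f r • v' r⟫_ℂ).re := by
  obtain ⟨S, hS⟩ : ∃ S : Submodule ℂ (K × K), S = Submodule.span ℂ (Set.range fun r : ℝ => (v r, v' r)) :=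
    ⟨_, rfl⟩
  have hS1 : ∀ p ∈ S, 0 ≤ (-Complex.I * ⟪p.1, p.2⟫_ℂ).re := by
    intro p hp
    rw [hS, Submodule.mem_span_set'] at hp
    obtain ⟨n, c, g, rfl⟩ := hp
    choose r hr using fun i => (g i).2
    have e1 : (∑ i, c i • (g i : K × K)).1 = ∑ j, c j • v (r j) := by
      rw [Prod.fst_sum]
      refine Finset.sum_congr rfl fun i _ => ?_
      rw [Prod.smul_fst, ← hr i]
    have e2 : (∑ i, c i • (g i : K × K)).2 = ∑ j, c j • v' (r j) := by
      rw [Prod.snd_sum]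
      refine Finset.sum_congr rfl fun i _ => ?_
      rw [Prod.smul_snd, ← hr i]
    rw [e1, e2]
    exact hpos n c r
  have hcl : IsClosed {p : K × K | 0 ≤ (-Complex.I * ⟪p.1, p.2⟫_ℂ).re} := by
    refine isClosed_le continuous_const ?_
    exact Complex.continuous_re.comp (continuous_const.mul (continuous_fst.inner continuous_snd))
  have hS2 : ∀ p ∈ S.topologicalClosure, 0 ≤ (-Complex.I * ⟪p.1, p.2⟫_ℂ).re := by
    intro p hp
    have h3 : closure (S : Set (K × K)) ⊆ {p : K × K | 0 ≤ (-Complex.I * ⟪p.1, p.2⟫_ℂ).re} :=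
      closure_minimal hS1 hcl
    exact h3 hp
  have hmem : ∀ r, f r • (v r, v' r) ∈ S.topologicalClosure := by
    intro r
    refine S.le_topologicalClosure (S.smul_mem _ ?_)
    rw [hS]
    exact Submodule.subset_span ⟨r, rfl⟩
  have hcomp : CompleteSpace ↥S.topologicalClosure :=
    S.isClosed_topologicalClosure.completeSpace_coe
  obtain ⟨G, hG⟩ : ∃ G : ℝ → ↥S.topologicalClosure, ∀ r, (G r : K × K) = f r • (v r, v' r) :=
    ⟨fun r => ⟨_, hmem r⟩, fun _ => rfl⟩
  have hGc : Continuous G := by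
    rw [continuous_induced_rng]
    have : (Subtype.val ∘ G) = fun r => f r • (v r, v' r) := funext hG
    rw [this]
    exact hf.smul (hv.prodMk hv')
  have hpair : Integrable fun r => f r • (v r, v' r) := h1.prodMk h2
  have hGi : Integrable G := by
    refine Integrable.mono hpair hGc.aestronglyMeasurable (Filter.Eventually.of_forall fun r => ?_)
    rw [← hG r]
    exact le_refl _
  have hint : (∫ r, f r • (v r, v' r)) = (∫ r, G r : ↥S.topologicalClosure) := by
    have h3 := S.topologicalClosure.subtypeL.integral_comp_comm hGi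
    refine Eq.trans ?_ h3
    refine integral_congr_ae (Filter.Eventually.of_forall fun r => ?_)
    exact (hG r).symm
  have hfin := hS2 _ (∫ r, G r : ↥S.topologicalClosure).2
  rw [← hint] at hfin
  have e1 : (∫ r, f r • (v r, v' r)).1 = ∫ r, f r • v r :=
    ((ContinuousLinearMap.fst ℂ K K).integral_comp_comm hpair).symm
  have e2 : (∫ r, f r • (v r, v' r)).2 = ∫ r, f r • v' r :=
    ((ContinuousLinearMap.snd ℂ K K).integral_comp_comm hpair).symm
  rw [e1, e2] at hfin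
  exact hfin

theorem den_deriv_y (x r y : ℝ) (hy : 0 < y) :
    HasDerivAt (fun y : ℝ => (den x y r)⁻¹ ^ 2) (-2 * Complex.I * (den x y r)⁻¹ ^ 3) y := by
  have h1 : HasDerivAt (fun y : ℝ => den x y r) Complex.I y := by
    have h2 : HasDerivAt (fun y : ℝ => (y : ℂ) * Complex.I) (1 * Complex.I) y :=
      (HasDerivAt.ofReal_comp (hasDerivAt_id y)).mul_const Complex.I
    have h3 := ((hasDerivAt_const y (r : ℂ)).sub ((hasDerivAt_const y (x : ℂ)).sub h2))
    have e : (0 : ℂ) - (0 - 1 * Complex.I) = Complex.I := by ring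
    rw [e] at h3
    exact h3
  have h2 := (h1.inv (den_ne hy)).pow 2
  refine h2.congr_deriv ?_
  show ((2 : ℕ) : ℂ) * (den x y r)⁻¹ ^ (2 - 1) * (-Complex.I / den x y r ^ 2) =
    -2 * Complex.I * (den x y r)⁻¹ ^ 3
  rw [show (2 - 1 : ℕ) = 1 from rfl, pow_one, div_eq_mul_inv, ← inv_pow]
  push_cast
  ring

theorem den_deriv_r (x r y : ℝ) (hy : 0 < y) :
    HasDerivAt (fun r : ℝ => (den x y r)⁻¹ ^ 2) (-2 * (den x y r)⁻¹ ^ 3) r := by
  have h1 : HasDerivAt (fun r : ℝ => den x y r) 1 r := by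
    have h3 := (HasDerivAt.ofReal_comp (hasDerivAt_id r)).sub
      (hasDerivAt_const r ((x : ℂ) - (y : ℂ) * Complex.I))
    have e : ((1 : ℝ) : ℂ) - 0 = 1 := by push_cast; ring
    rw [e] at h3
    exact h3
  have h2 := (h1.inv (den_ne hy)).pow 2
  refine h2.congr_deriv ?_
  show ((2 : ℕ) : ℂ) * (den x y r)⁻¹ ^ (2 - 1) * (-1 / den x y r ^ 2) =
    -2 * (den x y r)⁻¹ ^ 3
  rw [show (2 - 1 : ℕ) = 1 from rfl, pow_one, div_eq_mul_inv, ← inv_pow]
  push_cast
  ring

end TMONO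

open TMONO in
/-- the monotonicity argument -/
theorem t_MONO : S_MONO := by
  intro K _ _ _ V hV hVV hVc u u' hu hpos a ha
  obtain ⟨x, hx⟩ : ∃ x : ℝ, x = a.re := ⟨_, rfl⟩
  obtain ⟨y0, hy0⟩ : ∃ y0 : ℝ, y0 = -a.im := ⟨_, rfl⟩
  have hy0p : 0 < y0 := by rw [hy0]; linarith
  have haa : a = (x : ℂ) - (y0 : ℂ) * Complex.I := by
    apply Complex.ext
    · simp [hx]
    · simp [hy0]
  obtain ⟨F, hF⟩ : ∃ F : ℝ → K, ∀ y, F y = ∫ r : ℝ, (den x y r)⁻¹ ^ 2 • V r u :=
    ⟨_, fun _ => rfl⟩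
  obtain ⟨W, hW⟩ : ∃ W : ℝ → K, ∀ y, W y = ∫ r : ℝ, (den x y r)⁻¹ ^ 2 • V r u' :=
    ⟨_, fun _ => rfl⟩
  -- derivative of the orbit
  have hVd : ∀ r : ℝ, HasDerivAt (fun t : ℝ => V t u) (V r u') r := by
    intro r
    have h1 : HasDerivAt (fun t : ℝ => V (t - r) u) u' r := by
      have h2 : HasDerivAt (fun t : ℝ => V t u) u' (r - r) := by rwa [sub_self]
      exact HasDerivAt.comp_sub_const r r h2
    have h4 : HasDerivAt (fun t : ℝ => V r (V (t - r) u)) (V r u') r := by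
      have h5 := ((V r).restrictScalars ℝ).hasFDerivAt.comp_hasDerivAt r h1
      exact h5
    refine h4.congr_of_eventuallyEq (Filter.Eventually.of_forall fun t => ?_)
    show V t u = V r (V (t - r) u)
    rw [← hVV]
    congr 2
    ring
  have hmin : ∀ y : ℝ, 0 < y → 0 < min 1 y ∧ min 1 y ≤ 1 ∧ min 1 y ≤ y := fun y hy =>
    ⟨lt_min one_pos hy, min_le_left _ _, min_le_right _ _⟩
  have hi2 : ∀ y : ℝ, 0 < y → ∀ z : K, Integrable fun r => (den x y r)⁻¹ ^ 2 • V r z :=
    fun y hy z => smul_int (hmin y hy).1 (hmin y hy).2.1 (hmin y hy).2.2 (hVc z) (fun r => hV r z)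
  have hi3 : ∀ y : ℝ, 0 < y → ∀ z : K, Integrable fun r => (den x y r)⁻¹ ^ 3 • V r z :=
    fun y hy z => smul_int3 (hmin y hy).1 (hmin y hy).2.1 (hmin y hy).2.2 (hVc z) (fun r => hV r z)
  -- integration by parts
  have hparts : ∀ y : ℝ, 0 < y → ∫ r : ℝ, (-2 * Complex.I * (den x y r)⁻¹ ^ 3) • V r u =
      -Complex.I • W y := by
    intro y hy
    have h1 := integral_eq_zero_of_hasDerivAt_of_integrable
      (fun r => (den_deriv_r x r y hy).smul (hVd r)) (((hi2 y hy u').add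
        ((Integrable.smul (-2 : ℂ) (hi3 y hy u)).congr (Filter.Eventually.of_forall fun r => by
          show (-2 : ℂ) • ((den x y r)⁻¹ ^ 3 • V r u) = (-2 * (den x y r)⁻¹ ^ 3) • V r u
          rw [smul_smul])))) (hi2 y hy u)
    have h2 : ∫ r : ℝ, ((den x y r)⁻¹ ^ 2 • V r u' + (-2 * (den x y r)⁻¹ ^ 3) • V r u) =
        W y + ∫ r : ℝ, (-2 * (den x y r)⁻¹ ^ 3) • V r u := by
      rw [hW]
      refine integral_add (hi2 y hy u') ?_
      exact (Integrable.smul (-2 : ℂ) (hi3 y hy u)).congr (Filter.Eventually.of_forall fun r => by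
          show (-2 : ℂ) • ((den x y r)⁻¹ ^ 3 • V r u) = (-2 * (den x y r)⁻¹ ^ 3) • V r u
          rw [smul_smul])
    have h3 : ∫ r : ℝ, (-2 * (den x y r)⁻¹ ^ 3) • V r u = -W y := by
      have h4 := h2.symm.trans h1
      exact eq_neg_of_add_eq_zero_right h4
    have h5 : ∫ r : ℝ, (-2 * Complex.I * (den x y r)⁻¹ ^ 3) • V r u =
        Complex.I • ∫ r : ℝ, (-2 * (den x y r)⁻¹ ^ 3) • V r u := by
      rw [← integral_smul]
      refine integral_congr_ae (Filter.Eventually.of_forall fun r => ?_)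
      show (-2 * Complex.I * (den x y r)⁻¹ ^ 3) • V r u =
        Complex.I • ((-2 * (den x y r)⁻¹ ^ 3) • V r u)
      rw [smul_smul]
      congr 1
      ring
    rw [h5, h3, smul_neg, neg_smul]
  -- derivative in `y`
  have hFd : ∀ y : ℝ, 0 < y → HasDerivAt F (-Complex.I • W y) y := by
    intro y hy
    obtain ⟨δ, hδ⟩ : ∃ δ : ℝ, δ = min 1 (y / 2) := ⟨_, rfl⟩
    have hδ0 : 0 < δ := by rw [hδ]; exact lt_min one_pos (by linarith)
    have hδ1 : δ ≤ 1 := by rw [hδ]; exact min_le_left _ _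
    have hδ2 : δ ≤ y / 2 := by rw [hδ]; exact min_le_right _ _
    have hs : Set.Ioi (y / 2) ∈ 𝓝 y := Ioi_mem_nhds (by linarith)
    have h1 := hasDerivAt_integral_of_dominated_loc_of_deriv_le (μ := (volume : Measure ℝ))
      (F := fun (y : ℝ) (r : ℝ) => (den x y r)⁻¹ ^ 2 • V r u)
      (F' := fun (y : ℝ) (r : ℝ) => (-2 * Complex.I * (den x y r)⁻¹ ^ 3) • V r u)
      (bound := fun r => 2 * (δ⁻¹ ^ 3 * bnd x r) * ‖u‖) hs
      (by
        filter_upwards [hs] with z hz
        have hz0 : 0 < z := by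
          have : y / 2 < z := hz
          linarith
        exact (((inv_cont hz0).pow 2).smul (hVc u)).aestronglyMeasurable)
      (hi2 y hy u)
      (((continuous_const.mul ((inv_cont hy).pow 3)).smul (hVc u)).aestronglyMeasurable)
      (Filter.Eventually.of_forall fun r z hz => by
        have hz1 : δ ≤ z := hδ2.trans (le_of_lt hz)
        rw [norm_smul, hV, norm_mul, norm_mul, Complex.norm_I, mul_one]
        refine mul_le_mul_of_nonneg_right ?_ (norm_nonneg _)
        have h2 : ‖(-2 : ℂ)‖ = 2 := by simp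
        rw [h2]
        exact mul_le_mul_of_nonneg_left (inv_cube_le hδ0 hδ1 hz1) (by norm_num))
      ((((bnd_int x).const_mul _).const_mul _).mul_const _)
      (Filter.Eventually.of_forall fun r z hz => by
        have hz0 : 0 < z := by
          have : y / 2 < z := hz
          linarith
        exact (den_deriv_y x r z hz0).smul_const (V r u))
    have h3 := h1.2
    rw [hparts y hy] at h3
    have h4 : F = fun n => ∫ r : ℝ, (den x n r)⁻¹ ^ 2 • V r u := funext hF
    rw [h4]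
    exact h3
  -- monotonicity
  obtain ⟨g, hg⟩ : ∃ g : ℝ → ℝ, ∀ y, g y = ‖F y‖ ^ 2 := ⟨_, fun _ => rfl⟩
  have hgre : ∀ y, g y = (⟪F y, F y⟫_ℂ).re := by
    intro y
    rw [hg, inner_self_eq_norm_sq_to_K]
    norm_cast
  have hgd : ∀ y : ℝ, 0 < y → HasDerivAt g (2 * (-Complex.I * ⟪F y, W y⟫_ℂ).re) y := by
    intro y hy
    have h1 := HasDerivAt.inner ℂ (hFd y hy) (hFd y hy)
    have h2 := (Complex.reCLM.hasFDerivAt.comp_hasDerivAt y h1)
    have h3 : g = fun y => Complex.reCLM (⟪F y, F y⟫_ℂ) := funext hgre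
    rw [h3]
    refine HasDerivAt.congr_deriv h2 ?_
    rw [map_add, Complex.reCLM_apply, Complex.reCLM_apply, ← inner_conj_symm (-Complex.I • W y) (F y),
      Complex.conj_re, inner_smul_right]
    ring
  have hgpos : ∀ y : ℝ, 0 < y → 0 ≤ 2 * (-Complex.I * ⟪F y, W y⟫_ℂ).re := by
    intro y hy
    refine mul_nonneg (by norm_num) ?_
    rw [hF, hW]
    exact pos_int (fun r => V r u) (fun r => V r u') (hVc u) (hVc u') hpos
      (fun r => (den x y r)⁻¹ ^ 2) ((inv_cont hy).pow 2) (hi2 y hy u) (hi2 y hy u')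
  have hmono : MonotoneOn g (Set.Ioi 0) := by
    refine monotoneOn_of_deriv_nonneg (convex_Ioi 0) ?_ ?_ ?_
    · exact fun y hy => (hgd y hy).continuousAt.continuousWithinAt
    · rw [interior_Ioi]
      exact fun y hy => (hgd y hy).differentiableAt.differentiableWithinAt
    · rw [interior_Ioi]
      intro y hy
      rw [(hgd y hy).deriv]
      exact hgpos y hy
  -- limit
  have hlim : Tendsto F atTop (𝓝 0) := by
    have h1 : Tendsto (fun y : ℝ => ∫ r : ℝ, (den x y r)⁻¹ ^ 2 • V r u) atTop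
        (𝓝 (∫ _r : ℝ, (0 : K))) := by
      refine tendsto_integral_filter_of_dominated_convergence (fun r => 1⁻¹ ^ 2 * bnd x r * ‖u‖)
        ?_ ?_ (((bnd_int x).const_mul _).mul_const _) ?_
      · filter_upwards [eventually_gt_atTop (0 : ℝ)] with y hy
        exact (((inv_cont hy).pow 2).smul (hVc u)).aestronglyMeasurable
      · filter_upwards [eventually_ge_atTop (1 : ℝ)] with y hy
        refine Filter.Eventually.of_forall fun r => ?_
        rw [norm_smul, hV]
        exact mul_le_mul_of_nonneg_right (inv_sq_le one_pos le_rfl hy) (norm_nonneg _)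
      · refine Filter.Eventually.of_forall fun r => ?_
        rw [tendsto_zero_iff_norm_tendsto_zero]
        have h2 : Tendsto (fun y : ℝ => (y⁻¹) ^ 2 * ‖u‖) atTop (𝓝 (0 ^ 2 * ‖u‖)) :=
          (tendsto_inv_atTop_zero.pow 2).mul_const _
        rw [zero_pow two_ne_zero, zero_mul] at h2
        refine squeeze_zero' (Filter.Eventually.of_forall fun y => norm_nonneg _) ?_ h2
        filter_upwards [eventually_gt_atTop (0 : ℝ)] with y hy
        rw [norm_smul, hV, norm_pow]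
        exact mul_le_mul_of_nonneg_right (pow_le_pow_left₀ (norm_nonneg _) (inv_le hy le_rfl) 2)
          (norm_nonneg _)
    rw [integral_zero] at h1
    have h4 : F = fun n => ∫ r : ℝ, (den x n r)⁻¹ ^ 2 • V r u := funext hF
    rw [h4]
    exact h1
  have hglim : Tendsto g atTop (𝓝 0) := by
    have h1 := (hlim.norm.pow 2)
    rw [norm_zero, zero_pow two_ne_zero] at h1
    have h3 : g = fun y => ‖F y‖ ^ 2 := funext hg
    rw [h3]
    exact h1
  have hg0 : g y0 ≤ 0 := by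
    refine ge_of_tendsto hglim ?_
    filter_upwards [eventually_ge_atTop y0] with y hy
    exact hmono hy0p (hy0p.trans_le hy) hy
  have hF0 : F y0 = 0 := by
    rw [hg] at hg0
    have h1 : ‖F y0‖ = 0 := by
      have h2 := norm_nonneg (F y0)
      nlinarith [sq_nonneg ‖F y0‖]
    exact norm_eq_zero.1 h1
  rw [hF] at hF0
  rw [← hF0]
  refine integral_congr_ae (Filter.Eventually.of_forall fun r => ?_)
  show ((r : ℂ) - a)⁻¹ ^ 2 • V r u = (den x y0 r)⁻¹ ^ 2 • V r u
  unfold den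
  rw [← haa]

end

end Pool.Agent.W660.FL
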