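import Pool.Agent.W660.FL.Stm

/-!
Project FL: multiplicativity of the Poisson integral.
-/

namespace Pool.Agent.W660.FL

open MeasureTheory Complex Filter Topology
open scoped ComplexConjugate InnerProductSpace Manifold ContDiff

noncomputable section

namespace TMULT

theorem bound (hB : S_BDY) (g : ℝ → ℂ) (c : ℝ) (hc : ∀ t, ‖g t‖ ≤ c) (x s : ℝ) (hs : 0 < s) :
    ‖∫ t : ℝ, ((Po s (t - x) : ℝ) : ℂ) * g t‖ ≤ c := by
  obtain ⟨-, hi, h1, hp⟩ := hB.1 s hs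
  have h2 : ‖∫ t : ℝ, ((Po s (t - x) : ℝ) : ℂ) * g t‖ ≤ ∫ t : ℝ, Po s (t - x) * c := by
    refine norm_integral_le_of_norm_le ((hi.comp_sub_right x).mul_const c)
      (Eventually.of_forall fun t => ?_)
    rw [norm_mul, Complex.norm_real, Real.norm_eq_abs, abs_of_pos (hp _)]
    exact mul_le_mul_of_nonneg_left (hc t) (hp _).le
  rw [integral_mul_const, integral_sub_right_eq_self (fun t => Po s t) x, h1, one_mul] at h2
  exact h2

end TMULT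

theorem t_MULT : S_HOL → S_BDY → S_POI → S_MULT := by
  intro hH hB hP g₁ g₂ hg₁ hg₂ hb₁ hb₂ ha₁ ha₂ s hs
  obtain ⟨F₁, hF₁, he₁⟩ := hH g₁ hg₁ hb₁ ha₁
  obtain ⟨F₂, hF₂, he₂⟩ := hH g₂ hg₂ hb₂ ha₂
  obtain ⟨c₁, hc₁⟩ := hb₁
  obtain ⟨c₂, hc₂⟩ := hb₂
  have hn₁ : ∀ z : ℂ, 0 < z.im → ‖F₁ z‖ ≤ c₁ := by
    intro z hz
    have h1 := he₁ z.re z.im hz
    rw [Complex.re_add_im] at h1
    rw [h1]
    exact TMULT.bound hB g₁ c₁ hc₁ z.re z.im hz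
  have hn₂ : ∀ z : ℂ, 0 < z.im → ‖F₂ z‖ ≤ c₂ := by
    intro z hz
    have h1 := he₂ z.re z.im hz
    rw [Complex.re_add_im] at h1
    rw [h1]
    exact TMULT.bound hB g₂ c₂ hc₂ z.re z.im hz
  have hc₁0 : 0 ≤ c₁ := (norm_nonneg _).trans (hc₁ 0)
  have h3 := hP (fun z => F₁ z * F₂ z) (c₁ * c₂) (hF₁.mul hF₂) (by
    intro z hz
    rw [norm_mul]
    exact mul_le_mul (hn₁ z hz) (hn₂ z hz) (norm_nonneg _) hc₁0)
    (fun t => g₁ t * g₂ t) (hg₁.mul hg₂) (by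
    intro t
    refine Tendsto.mul ?_ ?_
    · refine (hB.2 g₁ hg₁ ⟨c₁, hc₁⟩ t).congr' ?_
      filter_upwards [self_mem_nhdsWithin] with δ hδ
      exact (he₁ t δ hδ).symm
    · refine (hB.2 g₂ hg₂ ⟨c₂, hc₂⟩ t).congr' ?_
      filter_upwards [self_mem_nhdsWithin] with δ hδ
      exact (he₂ t δ hδ).symm) s hs
  have h4 := he₁ 0 s hs
  have h5 := he₂ 0 s hs
  simp only [Complex.ofReal_zero, zero_add, sub_zero] at h4 h5
  rw [← h3]
  change F₁ (s * Complex.I) * F₂ (s * Complex.I) = _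
  rw [h4, h5]

end

end Pool.Agent.W660.FL
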