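import Pool.Agent.W660.FL.Stm

namespace Pool.Agent.W660.FL

open MeasureTheory Complex Filter Topology
open scoped ComplexConjugate InnerProductSpace Manifold ContDiff

theorem t_OPS (G : Type) [Group G] [TopologicalSpace G] (E : Type) [NormedAddCommGroup E]
    [NormedSpace ℝ E] (hO : S_ODE G E) (hE : S_EXT G) : S_OPS G E := by
  intro C X
  obtain ⟨ε, hε, g, g0, gc, gd, gm⟩ := hO C X
  obtain ⟨γ, h1, h2⟩ := hE g ε hε g0 gc gm
  refine ⟨γ, h1, ?_⟩
  refine gd.congr_of_eventuallyEq ?_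
  filter_upwards [h2] with t ht
  rw [ht]

end Pool.Agent.W660.FL
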