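import Pool.Agent.W660.FL.Stm

namespace Pool.Agent.W660.FL

open MeasureTheory Complex Filter Topology Asymptotics
open scoped ComplexConjugate InnerProductSpace Manifold ContDiff

noncomputable section

namespace TPE1

theorem add' (E F : Type) [NormedAddCommGroup E] [NormedSpace ℝ E] [NormedAddCommGroup F]
    [NormedSpace ℝ F] (f g : E → F) (hf : Pe2 f) (hg : Pe2 g) : Pe2 (f + g) := by
  obtain ⟨L, B, h⟩ := hf
  obtain ⟨M, D, k⟩ := hg
  refine ⟨L + M, B + D, ?_⟩
  refine (h.add k).congr_left fun a => ?_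
  simp only [Pi.add_apply, add_apply]
  abel

theorem comp' (E F F' : Type) [NormedAddCommGroup E] [NormedSpace ℝ E] [NormedAddCommGroup F]
    [NormedSpace ℝ F] [NormedAddCommGroup F'] [NormedSpace ℝ F'] (T : F →L[ℝ] F') (f : E → F)
    (hf : Pe2 f) : Pe2 (fun a => T (f a)) := by
  obtain ⟨L, B, h⟩ := hf
  refine ⟨T.comp L, (ContinuousLinearMap.compL ℝ E F F' T).comp B, ?_⟩
  have h2 : (fun a => T (f a - f 0 - L a - B a a)) =o[𝓝 0] fun a => ‖a‖ ^ 2 :=
    (T.isBigO_comp _ _).trans_isLittleO h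
  refine h2.congr_left fun a => ?_
  simp [map_sub]

theorem linO (E F : Type) [NormedAddCommGroup E] [NormedSpace ℝ E] [NormedAddCommGroup F]
    [NormedSpace ℝ F] (L : E →L[ℝ] F) : (fun a => L a) =O[𝓝 0] fun a => ‖a‖ :=
  (L.isBigO_id _).norm_right

theorem quadO (E F : Type) [NormedAddCommGroup E] [NormedSpace ℝ E] [NormedAddCommGroup F]
    [NormedSpace ℝ F] (B : E →L[ℝ] E →L[ℝ] F) : (fun a => B a a) =O[𝓝 0] fun a => ‖a‖ ^ 2 := by
  refine IsBigO.of_bound ‖B‖ (Eventually.of_forall fun a => ?_)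
  have := B.le_opNorm₂ a a
  rw [Real.norm_of_nonneg (by positivity)]
  calc ‖B a a‖ ≤ ‖B‖ * ‖a‖ * ‖a‖ := this
    _ = ‖B‖ * ‖a‖ ^ 2 := by ring

theorem powO {E : Type} [NormedAddCommGroup E] : (fun a : E => ‖a‖ ^ 2) =o[𝓝 0] fun a => ‖a‖ := by
  have h : (fun a : E => ‖a‖ * ‖a‖) =o[𝓝 0] fun a => (1 : ℝ) * ‖a‖ := by
    refine IsLittleO.mul_isBigO ?_ (isBigO_refl _ _)
    rw [isLittleO_one_iff]
    simpa using (continuous_norm.tendsto (0 : E))
  refine (h.congr_left fun a => ?_).congr_right fun a => ?_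
  · ring
  · ring

theorem der' (E F : Type) [NormedAddCommGroup E] [NormedSpace ℝ E] [NormedAddCommGroup F]
    [NormedSpace ℝ F] (f : E → F) (L : E →L[ℝ] F) (B : E →L[ℝ] E →L[ℝ] F)
    (h : (fun a => f a - f 0 - L a - B a a) =o[𝓝 0] (fun a => ‖a‖ ^ 2)) :
    HasFDerivAt f L 0 := by
  have h1 : (fun a => f a - f 0 - L a) =O[𝓝 0] fun a => ‖a‖ ^ 2 := by
    refine (h.isBigO.add (quadO E F B)).congr_left fun a => ?_
    abel
  have h2 : (fun a => f a - f 0 - L a) =o[𝓝 0] fun a => a := by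
    have := h1.trans_isLittleO (powO (E := E))
    exact this.of_norm_right
  rw [hasFDerivAt_iff_isLittleO_nhds_zero]
  refine h2.congr_left fun a => ?_
  simp

theorem mul' (E : Type) [NormedAddCommGroup E] [NormedSpace ℝ E] (f g : E → ℂ) (hf : Pe2 f)
    (hg : Pe2 g) : Pe2 (f * g) := by
  obtain ⟨L, B, h⟩ := hf
  obtain ⟨M, D, k⟩ := hg
  have hLO := linO E ℂ L
  have hMO := linO E ℂ M
  have hBO := quadO E ℂ B
  have hDO := quadO E ℂ D
  have hpow := powO (E := E)
  have hone : (fun a : E => ‖a‖) =o[𝓝 0] fun _ : E => (1 : ℝ) := by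
    rw [isLittleO_one_iff]
    simpa using (continuous_norm.tendsto (0 : E))
  have hDo : (fun a => D a a) =o[𝓝 0] fun _ : E => (1 : ℝ) :=
    hDO.trans_isLittleO (hpow.trans hone)
  have hP : (fun a : E => f 0 + L a + B a a) =O[𝓝 0] fun _ : E => (1 : ℝ) := by
    have hc : Continuous fun a : E => f 0 + L a + B a a := by fun_prop
    exact (hc.tendsto 0).isBigO_one ℝ
  have hQ : (fun a : E => g 0 + M a + D a a) =O[𝓝 0] fun _ : E => (1 : ℝ) := by
    have hc : Continuous fun a : E => g 0 + M a + D a a := by fun_prop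
    exact (hc.tendsto 0).isBigO_one ℝ
  have hG : (fun a : E => (g 0 + M a + D a a) + (g a - g 0 - M a - D a a)) =O[𝓝 0]
      fun _ : E => (1 : ℝ) :=
    hQ.add ((k.trans (hpow.trans hone)).isBigO)
  -- the five error terms
  have e1 : (fun a => (f 0 + L a + B a a) * (g a - g 0 - M a - D a a)) =o[𝓝 0]
      fun a => ‖a‖ ^ 2 :=
    (hP.mul_isLittleO k).congr_right fun a => by ring
  have e2 : (fun a => (f a - f 0 - L a - B a a) *
      ((g 0 + M a + D a a) + (g a - g 0 - M a - D a a))) =o[𝓝 0] fun a => ‖a‖ ^ 2 :=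
    (h.mul_isBigO hG).congr_right fun a => by ring
  have e3 : (fun a => L a * D a a) =o[𝓝 0] fun a => ‖a‖ ^ 2 :=
    ((hLO.trans_isLittleO hone).mul_isBigO hDO).congr_right fun a => by ring
  have e4 : (fun a => B a a * M a) =o[𝓝 0] fun a => ‖a‖ ^ 2 :=
    (hBO.mul_isLittleO (hMO.trans_isLittleO hone)).congr_right fun a => by ring
  have e5 : (fun a => B a a * D a a) =o[𝓝 0] fun a => ‖a‖ ^ 2 :=
    (hBO.mul_isLittleO hDo).congr_right fun a => by ring
  refine ⟨f 0 • M + g 0 • L, f 0 • D + g 0 • B +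
    (ContinuousLinearMap.mul ℝ ℂ).bilinearComp L M, ?_⟩
  refine ((((e1.add e2).add e3).add e4).add e5).congr_left fun a => ?_
  simp only [Pi.mul_apply, add_apply, smul_apply, smul_eq_mul,
    ContinuousLinearMap.bilinearComp_apply, ContinuousLinearMap.mul_apply']
  ring

end TPE1

theorem t_PE1 : S_PE1 := ⟨TPE1.add', TPE1.comp', TPE1.mul', TPE1.der'⟩

end

end Pool.Agent.W660.FL
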