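import Pool.Agent.W660.FL.Stm

namespace Pool.Agent.W660.FL

open MeasureTheory Complex Filter Topology Asymptotics
open scoped ComplexConjugate InnerProductSpace Manifold ContDiff

noncomputable section

namespace TPE2

theorem taylor (E F : Type) [NormedAddCommGroup E] [NormedSpace ℝ E] [NormedAddCommGroup F]
    [NormedSpace ℝ F] (f : E → F) (hf : ContDiffAt ℝ 2 f 0) : Pe2 f := by
  have h1 : ContDiffAt ℝ 1 (fderiv ℝ f) 0 := hf.fderiv_right (by norm_num)
  have h2 : HasFDerivAt (fderiv ℝ f) (fderiv ℝ (fderiv ℝ f) 0) 0 :=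
    (h1.differentiableAt (by norm_num)).hasFDerivAt
  set D := fderiv ℝ (fderiv ℝ f) 0 with hD
  have h3 : ∀ᶠ a in 𝓝 (0 : E), HasFDerivAt f (fderiv ℝ f a) a := by
    have := hf.eventually (by norm_num)
    filter_upwards [this] with a ha
    exact (ha.differentiableAt (by norm_num)).hasFDerivAt
  refine ⟨fderiv ℝ f 0, (1 / 2 : ℝ) • D, ?_⟩
  rw [isLittleO_iff]
  intro ε hε
  have h4 : ∀ᶠ a in 𝓝 (0 : E), ‖fderiv ℝ f a - fderiv ℝ f 0 - D a‖ ≤ ε * ‖a‖ := by
    have := h2.isLittleO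
    rw [isLittleO_iff] at this
    have := this hε
    filter_upwards [this] with a ha
    simpa using ha
  obtain ⟨δ, hδ, hball⟩ := Metric.eventually_nhds_iff_ball.1 (h3.and h4)
  filter_upwards [Metric.ball_mem_nhds (0 : E) hδ] with a ha
  have hseg : ∀ t ∈ Set.Icc (0 : ℝ) 1, t • a ∈ Metric.ball (0 : E) δ := by
    intro t ht
    rw [mem_ball_zero_iff] at ha ⊢
    rw [norm_smul, Real.norm_of_nonneg ht.1]
    calc t * ‖a‖ ≤ 1 * ‖a‖ := by gcongr; exact ht.2
      _ < δ := by simpa using ha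
  have key := norm_image_sub_le_of_norm_deriv_le_segment_01'
    (f := fun t : ℝ => f (t • a) - f 0 - t • (fderiv ℝ f 0 a) - (t ^ 2 / 2) • (D a a))
    (f' := fun t : ℝ => fderiv ℝ f (t • a) a - (fderiv ℝ f 0 a) - t • (D a a))
    (C := ε * ‖a‖ ^ 2) ?_ ?_
  · have e : (fun t : ℝ => f (t • a) - f 0 - t • (fderiv ℝ f 0 a) - (t ^ 2 / 2) • (D a a)) 1 -
      (fun t : ℝ => f (t • a) - f 0 - t • (fderiv ℝ f 0 a) - (t ^ 2 / 2) • (D a a)) 0 =
      f a - f 0 - fderiv ℝ f 0 a - ((1 / 2 : ℝ) • D) a a := by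
      simp
    rw [e] at key
    refine key.trans (le_of_eq ?_)
    rw [Real.norm_of_nonneg (by positivity)]
  · intro t ht
    have hA : HasDerivAt (fun t : ℝ => t • a) a t := by
      simpa using (hasDerivAt_id t).smul_const a
    have hB : HasDerivAt (fun t : ℝ => f (t • a)) (fderiv ℝ f (t • a) a) t :=
      (hball _ (hseg t ht)).1.comp_hasDerivAt t hA
    have hC : HasDerivAt (fun t : ℝ => t • (fderiv ℝ f 0 a)) (fderiv ℝ f 0 a) t := by
      simpa using (hasDerivAt_id t).smul_const (fderiv ℝ f 0 a)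
    have hE : HasDerivAt (fun t : ℝ => (t ^ 2 / 2) • (D a a)) (t • (D a a)) t := by
      have h5 : HasDerivAt (fun t : ℝ => t ^ 2 / 2) t t := by
        have := (hasDerivAt_pow 2 t).div_const 2
        simpa using this
      exact h5.smul_const (D a a)
    exact (((hB.sub_const (f 0)).sub hC).sub hE).hasDerivWithinAt
  · intro t ht
    have h6 := (hball _ (hseg t ⟨ht.1, ht.2.le⟩)).2
    have e : fderiv ℝ f (t • a) a - (fderiv ℝ f 0 a) - t • (D a a) =
        (fderiv ℝ f (t • a) - fderiv ℝ f 0 - D (t • a)) a := by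
      simp
    rw [e]
    calc ‖(fderiv ℝ f (t • a) - fderiv ℝ f 0 - D (t • a)) a‖
        ≤ ‖fderiv ℝ f (t • a) - fderiv ℝ f 0 - D (t • a)‖ * ‖a‖ :=
          ContinuousLinearMap.le_opNorm _ _
      _ ≤ (ε * ‖t • a‖) * ‖a‖ := by gcongr
      _ ≤ (ε * ‖a‖) * ‖a‖ := by
          gcongr
          rw [norm_smul, Real.norm_of_nonneg ht.1]
          calc t * ‖a‖ ≤ 1 * ‖a‖ := by gcongr; exact ht.2.le
            _ = ‖a‖ := one_mul _
      _ = ε * ‖a‖ ^ 2 := by ring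

theorem linO (E F : Type) [NormedAddCommGroup E] [NormedSpace ℝ E] [NormedAddCommGroup F]
    [NormedSpace ℝ F] (L : E →L[ℝ] F) : (fun a => L a) =O[𝓝 0] fun a => ‖a‖ :=
  (L.isBigO_id _).norm_right

theorem quadO (E F : Type) [NormedAddCommGroup E] [NormedSpace ℝ E] [NormedAddCommGroup F]
    [NormedSpace ℝ F] (B : E →L[ℝ] E →L[ℝ] F) : (fun a => B a a) =O[𝓝 0] fun a => ‖a‖ ^ 2 := by
  refine IsBigO.of_bound ‖B‖ (Eventually.of_forall fun a => ?_)
  have := B.le_opNorm₂ a a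
  rw [Real.norm_of_nonneg (by positivity)]
  calc ‖B a a‖ ≤ ‖B‖ * ‖a‖ * ‖a‖ := this
    _ = ‖B‖ * ‖a‖ ^ 2 := by ring

theorem powO {E : Type} [NormedAddCommGroup E] : (fun a : E => ‖a‖ ^ 2) =o[𝓝 0] fun a => ‖a‖ := by
  have h : (fun a : E => ‖a‖ * ‖a‖) =o[𝓝 0] fun a => (1 : ℝ) * ‖a‖ := by
    refine IsLittleO.mul_isBigO ?_ (isBigO_refl _ _)
    rw [isLittleO_one_iff]
    simpa using (continuous_norm.tendsto (0 : E))
  refine (h.congr_left fun a => ?_).congr_right fun a => ?_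
  · ring
  · ring

theorem comp (E F : Type) [NormedAddCommGroup E] [NormedSpace ℝ E] [NormedAddCommGroup F]
    [NormedSpace ℝ F] (f : E → F) (c : E → E) (hf : Pe2 f) (hc : ContDiffAt ℝ 2 c 0)
    (hc0 : c 0 = 0) : Pe2 (f ∘ c) := by
  obtain ⟨L, B, hr⟩ := hf
  obtain ⟨A, Q, hq⟩ := taylor E E c hc
  rw [hc0] at hq
  refine ⟨L.comp A, (ContinuousLinearMap.compL ℝ E E F L).comp Q + B.bilinearComp A A, ?_⟩
  have hq' : (fun a => c a - A a - Q a a) =o[𝓝 0] fun a => ‖a‖ ^ 2 :=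
    hq.congr_left fun a => by simp
  -- c a - A a = O(‖a‖^2)
  have h1 : (fun a => c a - A a) =O[𝓝 0] fun a => ‖a‖ ^ 2 := by
    refine (hq'.isBigO.add (quadO E E Q)).congr_left fun a => ?_
    abel
  have h2 : c =O[𝓝 0] fun a => ‖a‖ := by
    refine ((h1.trans powO.isBigO).add (linO E E A)).congr_left fun a => ?_
    abel
  have hct : Tendsto c (𝓝 0) (𝓝 0) := by
    have := hc.continuousAt.tendsto
    rwa [hc0] at this
  have h3 : (fun a => f (c a) - f 0 - L (c a) - B (c a) (c a)) =o[𝓝 0] fun a => ‖a‖ ^ 2 := by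
    have := hr.comp_tendsto hct
    refine this.trans_isBigO ?_
    have h2' : (fun a => ‖c a‖) =O[𝓝 0] fun a => ‖a‖ := h2.norm_left
    exact h2'.pow 2
  have h4 : (fun a => L (c a - A a - Q a a)) =o[𝓝 0] fun a => ‖a‖ ^ 2 :=
    (L.isBigO_comp _ _).trans_isLittleO hq'
  have hbil : ∀ (u v : E → E), u =O[𝓝 0] (fun a => ‖a‖ ^ 2) → v =O[𝓝 0] (fun a => ‖a‖) →
      ((fun a => B (u a) (v a)) =o[𝓝 0] fun a => ‖a‖ ^ 2) ∧
      ((fun a => B (v a) (u a)) =o[𝓝 0] fun a => ‖a‖ ^ 2) := by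
    intro u v hu hv
    have hpo : (fun a : E => ‖a‖ ^ 2 * ‖a‖) =o[𝓝 0] fun a => ‖a‖ ^ 2 := by
      have h : (fun a : E => ‖a‖ ^ 2 * ‖a‖) =o[𝓝 0] fun a => ‖a‖ ^ 2 * (1 : ℝ) := by
        refine IsBigO.mul_isLittleO (isBigO_refl _ _) ?_
        rw [isLittleO_one_iff]
        simpa using (continuous_norm.tendsto (0 : E))
      exact h.congr_right fun a => by ring
    have huv : (fun a => ‖u a‖ * ‖v a‖) =o[𝓝 0] fun a => ‖a‖ ^ 2 :=
      (hu.norm_left.mul hv.norm_left).trans_isLittleO hpo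
    constructor
    · refine IsBigO.trans_isLittleO ?_ huv
      refine IsBigO.of_bound ‖B‖ (Eventually.of_forall fun a => ?_)
      rw [Real.norm_of_nonneg (by positivity)]
      calc ‖B (u a) (v a)‖ ≤ ‖B‖ * ‖u a‖ * ‖v a‖ := B.le_opNorm₂ _ _
        _ = ‖B‖ * (‖u a‖ * ‖v a‖) := by ring
    · refine IsBigO.trans_isLittleO ?_ huv
      refine IsBigO.of_bound ‖B‖ (Eventually.of_forall fun a => ?_)
      rw [Real.norm_of_nonneg (by positivity)]
      calc ‖B (v a) (u a)‖ ≤ ‖B‖ * ‖v a‖ * ‖u a‖ := B.le_opNorm₂ _ _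
        _ = ‖B‖ * (‖u a‖ * ‖v a‖) := by ring
  have h5 := (hbil (fun a => c a - A a) c h1 h2).1
  have h6 := (hbil (fun a => c a - A a) (fun a => A a) h1 (linO E E A)).2
  refine (((h3.add h4).add h5).add h6).congr_left fun a => ?_
  simp only [Function.comp_apply, hc0, map_sub, sub_apply, add_apply,
    ContinuousLinearMap.comp_apply, ContinuousLinearMap.compL_apply,
    ContinuousLinearMap.bilinearComp_apply]
  abel

end TPE2

theorem t_PE2 : S_PE2 :=
  ⟨fun E F _ _ _ _ f hf => TPE2.taylor E F f hf,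
    fun E F _ _ _ _ f c hf hc hc0 => TPE2.comp E F f c hf hc hc0⟩

end

end Pool.Agent.W660.FL
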