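import Pool.Agent.W660.FL.Stm

namespace Pool.Agent.W660.FL

open MeasureTheory Complex Filter Topology
open scoped ComplexConjugate InnerProductSpace Manifold ContDiff

noncomputable section

namespace TPOI

/-- the function that is integrated over rectangles -/
def Phi (F : ℂ → ℂ) (s : ℝ) (z : ℂ) : ℂ := dslope F (s * I) z * (2 * I * s / (z + s * I))

theorem ne_of_im {s : ℝ} (hs : 0 < s) {z : ℂ} (hz : 0 ≤ z.im) : z + s * I ≠ 0 := by
  intro h
  have := congrArg Complex.im h
  simp at this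
  linarith

theorem phi_bound {F : ℂ → ℂ} {c s : ℝ} (hs : 0 < s) (hb : ∀ z : ℂ, 0 ≤ z.im → ‖F z‖ ≤ c)
    {z : ℂ} (hz : 0 ≤ z.im) {R : ℝ} (hR : 2 * s ≤ R) (hzR : R ≤ ‖z‖) :
    ‖Phi F s z‖ ≤ 16 * c * s / R ^ 2 := by
  have hR0 : 0 < R := by linarith
  have hc : 0 ≤ c := (norm_nonneg _).trans (hb 0 (by simp))
  have hsI : ‖(s : ℂ) * I‖ = s := by
    rw [norm_mul, Complex.norm_I, mul_one, Complex.norm_real, Real.norm_eq_abs, abs_of_pos hs]
  have h1 : R / 2 ≤ ‖z - s * I‖ := by
    have := norm_sub_norm_le z (s * I)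
    rw [hsI] at this
    linarith
  have h2 : R / 2 ≤ ‖z + s * I‖ := by
    have := norm_sub_norm_le z (-(s * I))
    rw [norm_neg, hsI, sub_neg_eq_add] at this
    linarith
  have hne : z ≠ s * I := by
    rintro rfl
    rw [sub_self, norm_zero] at h1
    linarith
  have h3 : ‖F z - F (s * I)‖ ≤ 2 * c := by
    have := norm_sub_le (F z) (F (s * I))
    have h4 := hb z hz
    have h5 := hb (s * I) (by simp [hs.le])
    linarith
  have h6 : ‖(2 * I * s : ℂ)‖ = 2 * s := by
    rw [mul_assoc, mul_comm I, norm_mul, hsI]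
    simp
  rw [Phi, dslope_of_ne _ hne, slope_def_module, norm_mul, norm_smul, norm_inv, norm_div, h6]
  calc ‖z - s * I‖⁻¹ * ‖F z - F (s * I)‖ * (2 * s / ‖z + s * I‖)
      ≤ (R / 2)⁻¹ * (2 * c) * (2 * s / (R / 2)) := by
        have e1 : ‖z - s * I‖⁻¹ ≤ (R / 2)⁻¹ := inv_anti₀ (by positivity) h1
        have e2 : 2 * s / ‖z + s * I‖ ≤ 2 * s / (R / 2) :=
          div_le_div_of_nonneg_left (by positivity) (by positivity) h2
        gcongr
    _ = 16 * c * s / R ^ 2 := by
        field_simp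
        ring

theorem rect {F : ℂ → ℂ} {δ c s : ℝ} (hδ : 0 < δ) (hs : 0 < s)
    (hF : DifferentiableOn ℂ F {z | -δ < z.im}) (hb : ∀ z : ℂ, 0 ≤ z.im → ‖F z‖ ≤ c)
    {R : ℝ} (hR : 2 * s ≤ R) :
    ‖∫ t in (-R)..R, Phi F s (t : ℂ)‖ ≤ 64 * c * s / R := by
  have hR0 : 0 < R := by linarith
  have hc : 0 ≤ c := (norm_nonneg _).trans (hb 0 (by simp))
  have hopen : IsOpen {z : ℂ | -δ < z.im} := isOpen_lt continuous_const Complex.continuous_im
  have hds : DifferentiableOn ℂ (dslope F (s * I)) {z | -δ < z.im} := by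
    rw [Complex.differentiableOn_dslope]
    · exact hF
    · apply hopen.mem_nhds
      simp only [Set.mem_ofPred_eq, mul_im, ofReal_re, I_im, mul_one, ofReal_im, I_re, mul_zero,
        add_zero]
      linarith
  have hΦ : DifferentiableOn ℂ (Phi F s) {z | 0 ≤ z.im} := by
    refine DifferentiableOn.mul (hds.mono fun z hz => ?_) ?_
    · have : (0:ℝ) ≤ z.im := hz
      show -δ < z.im
      linarith
    · intro z hz
      refine DifferentiableAt.differentiableWithinAt ?_
      refine DifferentiableAt.div (by fun_prop) (by fun_prop) (ne_of_im hs hz)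
  have hcauchy := Complex.integral_boundary_rect_eq_zero_of_differentiableOn (Phi F s)
    (⟨-R, 0⟩ : ℂ) (⟨R, R⟩ : ℂ) (hΦ.mono fun z hz => by
      have h2 := hz.2
      rw [Set.uIcc_of_le hR0.le] at h2
      exact h2.1)
  simp only [ofReal_zero, zero_mul, add_zero] at hcauchy
  set B : ℝ := 16 * c * s / R ^ 2 with hB
  have hB0 : 0 ≤ B := by positivity
  have b1 : ‖∫ x in (-R)..R, Phi F s (x + R * I)‖ ≤ B * |R - -R| := by
    refine intervalIntegral.norm_integral_le_of_norm_le_const fun x _ => ?_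
    refine phi_bound hs hb (by simp [hR0.le]) hR ?_
    have := Complex.abs_im_le_norm ((x : ℂ) + R * I)
    simp only [add_im, ofReal_im, mul_im, ofReal_re, I_im, mul_one, I_re, mul_zero, add_zero,
      zero_add, abs_of_pos hR0] at this
    exact this
  have b2 : ‖∫ y in (0:ℝ)..R, Phi F s (R + y * I)‖ ≤ B * |R - 0| := by
    refine intervalIntegral.norm_integral_le_of_norm_le_const fun y hy => ?_
    rw [Set.uIoc_of_le hR0.le] at hy
    refine phi_bound hs hb (by simp [hy.1.le]) hR ?_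
    have := Complex.abs_re_le_norm ((R : ℂ) + y * I)
    simp only [add_re, ofReal_re, mul_re, I_re, mul_zero, ofReal_im, I_im, mul_one, sub_self,
      add_zero, abs_of_pos hR0] at this
    exact this
  have b3 : ‖∫ y in (0:ℝ)..R, Phi F s (((-R : ℝ) : ℂ) + y * I)‖ ≤ B * |R - 0| := by
    refine intervalIntegral.norm_integral_le_of_norm_le_const fun y hy => ?_
    rw [Set.uIoc_of_le hR0.le] at hy
    refine phi_bound hs hb (by simp [hy.1.le]) hR ?_
    have := Complex.abs_re_le_norm (((-R : ℝ) : ℂ) + y * I)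
    simp only [add_re, ofReal_re, mul_re, I_re, mul_zero, ofReal_im, I_im, mul_one, sub_self,
      add_zero, abs_neg, abs_of_pos hR0] at this
    exact this
  have e : ∫ t in (-R)..R, Phi F s (t : ℂ) = (∫ x in (-R)..R, Phi F s (x + R * I)) -
      I • (∫ y in (0:ℝ)..R, Phi F s (R + y * I)) +
      I • ∫ y in (0:ℝ)..R, Phi F s (((-R : ℝ) : ℂ) + y * I) := by
    linear_combination hcauchy
  rw [e]
  have n1 := norm_add_le ((∫ x in (-R)..R, Phi F s (x + R * I)) -
      I • (∫ y in (0:ℝ)..R, Phi F s (R + y * I)))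
      (I • ∫ y in (0:ℝ)..R, Phi F s (((-R : ℝ) : ℂ) + y * I))
  have n2 := norm_sub_le (∫ x in (-R)..R, Phi F s (x + R * I))
      (I • (∫ y in (0:ℝ)..R, Phi F s (R + y * I)))
  rw [norm_smul, Complex.norm_I, one_mul] at n1 n2
  have a1 : |R - -R| = 2 * R := by
    rw [abs_of_pos] <;> linarith
  have a2 : |R - 0| = R := by rw [sub_zero, abs_of_pos hR0]
  rw [a1] at b1
  rw [a2] at b2 b3
  have h4 : 64 * c * s / R = B * (2 * R) + B * R + B * R := by
    rw [hB]
    field_simp
    ring
  rw [h4]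
  linarith

theorem step1 (hbdy : S_BDY) {F : ℂ → ℂ} {δ c s : ℝ} (hδ : 0 < δ) (hs : 0 < s)
    (hF : DifferentiableOn ℂ F {z | -δ < z.im}) (hb : ∀ z : ℂ, 0 ≤ z.im → ‖F z‖ ≤ c) :
    F (s * I) = ∫ t : ℝ, ((Po s t : ℝ) : ℂ) * F t := by
  obtain ⟨hPc, hPi, hP1, -⟩ := hbdy.1 s hs
  have hFc : Continuous fun t : ℝ => F (t : ℂ) := by
    refine hF.continuousOn.comp_continuous Complex.continuous_ofReal fun t => ?_
    show -δ < ((t : ℂ)).im
    rw [ofReal_im]
    linarith
  have hPi' : Integrable fun t : ℝ => ((Po s t : ℝ) : ℂ) := hPi.ofReal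
  have hI1 : Integrable fun t : ℝ => ((Po s t : ℝ) : ℂ) * F t := by
    exact hPi'.mul_bdd hFc.aestronglyMeasurable
      (Filter.Eventually.of_forall fun t => hb t (by simp))
  have hI2 : Integrable fun t : ℝ => ((Po s t : ℝ) : ℂ) * F (s * I) := hPi'.mul_const _
  have hΦ : ∀ t : ℝ, Phi F s (t : ℂ) =
      2 * Real.pi * I * (((Po s t : ℝ) : ℂ) * F t - ((Po s t : ℝ) : ℂ) * F (s * I)) := by
    intro t
    have hne : (t : ℂ) ≠ s * I := by
      intro h
      have := congrArg Complex.im h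
      simp at this
      linarith
    have h1 : (t : ℂ) - s * I ≠ 0 := sub_ne_zero.mpr hne
    have h2 : (t : ℂ) + s * I ≠ 0 := ne_of_im hs (by simp)
    have h3 : ((s : ℂ) ^ 2 + (t : ℂ) ^ 2) = ((t : ℂ) - s * I) * ((t : ℂ) + s * I) := by
      ring_nf
      rw [Complex.I_sq]
      ring
    rw [Phi, dslope_of_ne _ hne, slope_def_module, Po, smul_eq_mul]
    push_cast
    rw [h3]
    have hpi : (Real.pi : ℂ) ≠ 0 := by exact_mod_cast Real.pi_ne_zero
    field_simp
  have hΦi : Integrable fun t : ℝ => Phi F s (t : ℂ) := by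
    simp only [hΦ]
    exact (hI1.sub hI2).const_mul _
  have hlim1 : Tendsto (fun R : ℝ => ∫ t in (-R)..R, Phi F s (t : ℂ)) atTop
      (𝓝 (∫ t : ℝ, Phi F s (t : ℂ))) :=
    intervalIntegral_tendsto_integral hΦi tendsto_neg_atTop_atBot tendsto_id
  have hlim2 : Tendsto (fun R : ℝ => ∫ t in (-R)..R, Phi F s (t : ℂ)) atTop (𝓝 0) := by
    rw [tendsto_zero_iff_norm_tendsto_zero]
    refine squeeze_zero' (Filter.Eventually.of_forall fun R => norm_nonneg _)
      ((eventually_ge_atTop (2 * s)).mono fun R hR => rect hδ hs hF hb hR) ?_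
    exact tendsto_const_nhds.div_atTop tendsto_id
  have hzero := tendsto_nhds_unique hlim1 hlim2
  simp only [hΦ] at hzero
  rw [integral_const_mul, integral_sub hI1 hI2, integral_mul_const] at hzero
  have hP1' : ∫ t : ℝ, ((Po s t : ℝ) : ℂ) = 1 := by
    rw [integral_complex_ofReal, hP1, ofReal_one]
  rw [hP1', one_mul] at hzero
  have hne : (2 * Real.pi * I : ℂ) ≠ 0 := Complex.two_pi_I_ne_zero
  have := (mul_eq_zero.mp hzero).resolve_left hne
  exact (sub_eq_zero.mp this).symm

end TPOI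

open TPOI in
theorem t_POI : S_BDY → S_POI := by
  intro hbdy F c hF hb f hf hlim s hs
  have hopen : IsOpen {z : ℂ | 0 < z.im} := isOpen_lt continuous_const Complex.continuous_im
  obtain ⟨hPc, hPi, hP1, hPpos⟩ := hbdy.1 s hs
  have hstep : ∀ δ : ℝ, 0 < δ → F (s * I + δ * I) =
      ∫ t : ℝ, ((Po s t : ℝ) : ℂ) * F (t + δ * I) := by
    intro δ hδ
    have hFδ : DifferentiableOn ℂ (fun z => F (z + δ * I)) {z | -δ < z.im} := by
      refine hF.comp (by fun_prop) fun z hz => ?_
      have hz' : -δ < z.im := hz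
      show 0 < (z + δ * I).im
      simp only [add_im, mul_im, ofReal_re, I_im, mul_one, ofReal_im, I_re, mul_zero, add_zero]
      linarith
    exact step1 hbdy hδ hs hFδ (fun z hz => hb _ (by
      simp only [add_im, mul_im, ofReal_re, I_im, mul_one, ofReal_im, I_re, mul_zero, add_zero]
      linarith))
  have hL : Tendsto (fun δ : ℝ => F (s * I + δ * I)) (𝓝[>] 0) (𝓝 (F (s * I))) := by
    have hc : ContinuousAt F (s * I) := by
      refine (hF.continuousOn).continuousAt (hopen.mem_nhds ?_)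
      show 0 < ((s : ℂ) * I).im
      simp [hs]
    have h1 : Tendsto (fun δ : ℝ => (s : ℂ) * I + δ * I) (𝓝[>] 0) (𝓝 (s * I)) := by
      have h2 : Continuous fun δ : ℝ => (s : ℂ) * I + δ * I := by fun_prop
      have h3 := h2.tendsto 0
      simp only [ofReal_zero, zero_mul, add_zero] at h3
      exact h3.mono_left nhdsWithin_le_nhds
    exact hc.tendsto.comp h1
  have hRR : Tendsto (fun δ : ℝ => ∫ t : ℝ, ((Po s t : ℝ) : ℂ) * F (t + δ * I)) (𝓝[>] 0)
      (𝓝 (∫ t : ℝ, ((Po s t : ℝ) : ℂ) * f t)) := by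
    refine tendsto_integral_filter_of_dominated_convergence (fun t => Po s t * c) ?_ ?_
      (hPi.mul_const c) ?_
    · filter_upwards [self_mem_nhdsWithin] with δ hδ
      have hδ' : 0 < δ := hδ
      have hcont : Continuous fun t : ℝ => F (t + δ * I) := by
        refine hF.continuousOn.comp_continuous (by fun_prop) fun t => ?_
        show 0 < ((t : ℂ) + δ * I).im
        simp [hδ']
      exact ((Complex.continuous_ofReal.comp hPc).mul hcont).aestronglyMeasurable
    · filter_upwards [self_mem_nhdsWithin] with δ hδ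
      have hδ' : 0 < δ := hδ
      refine Filter.Eventually.of_forall fun t => ?_
      rw [norm_mul, Complex.norm_real, Real.norm_eq_abs, abs_of_pos (hPpos t)]
      exact mul_le_mul_of_nonneg_left (hb _ (by simp [hδ'])) (hPpos t).le
    · exact Filter.Eventually.of_forall fun t => (hlim t).const_mul _
  refine tendsto_nhds_unique (hL.congr' ?_) hRR
  filter_upwards [self_mem_nhdsWithin] with δ hδ
  exact hstep δ hδ

end

end Pool.Agent.W660.FL
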