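import Pool.Agent.W660.FL.Stm

/-!
Project FL (helper660): a finite dimensional separation statement.
-/

namespace Pool.Agent.W660.FL

open MeasureTheory Complex Filter Topology
open scoped ComplexConjugate InnerProductSpace Manifold ContDiff

theorem t_SEP : S_SEP := by
  intro E _ _ _ S hS hne h0
  have hfin : ∀ F : Finset S, (Metric.sphere (0 : E) 1 ∩
      ⋂ α ∈ F, {X : E | 0 ≤ (α : E →L[ℝ] ℝ) X}).Nonempty := by
    intro F
    obtain ⟨α₀, hα₀⟩ := hne
    have hTfin : (insert α₀ ((fun α : S => (α : E →L[ℝ] ℝ)) '' (F : Set S))).Finite :=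
      (F.finite_toSet.image _).insert _
    have hTS : insert α₀ ((fun α : S => (α : E →L[ℝ] ℝ)) '' (F : Set S)) ⊆ S := by
      intro α hα
      rcases hα with rfl | ⟨β, -, rfl⟩
      · exact hα₀
      · exact β.2
    have hK := hTfin.isCompact_convexHull ℝ
    have h0' : (0 : E →L[ℝ] ℝ) ∉
        convexHull ℝ (insert α₀ ((fun α : S => (α : E →L[ℝ] ℝ)) '' (F : Set S))) :=
      fun h => h0 (convexHull_min hTS hS h)
    obtain ⟨f, u, hf0, hf⟩ := geometric_hahn_banach_point_closed
      (convex_convexHull ℝ _) hK.isClosed h0'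
    rw [map_zero] at hf0
    let g : Module.Dual ℝ (Module.Dual ℝ E) :=
      { toFun := fun φ => f (LinearMap.toContinuousLinearMap φ)
        map_add' := fun φ ψ => by rw [map_add, map_add]
        map_smul' := fun c φ => by rw [map_smul, map_smul, RingHom.id_apply] }
    let X : E := (Module.evalEquiv ℝ E).symm g
    have hX : ∀ α : E →L[ℝ] ℝ, α X = f α := by
      intro α
      have h1 : Module.evalEquiv ℝ E X = g := LinearEquiv.apply_symm_apply _ _
      have h2 := congrArg (fun t => t (α : E →ₗ[ℝ] ℝ)) h1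
      have h3 : Module.evalEquiv ℝ E X (α : E →ₗ[ℝ] ℝ) = α X := rfl
      have h4 : g (α : E →ₗ[ℝ] ℝ) = f α := rfl
      rw [← h3, ← h4]
      exact h2
    have hpos : ∀ α ∈ insert α₀ ((fun α : S => (α : E →L[ℝ] ℝ)) '' (F : Set S)), 0 < α X := by
      intro α hα
      rw [hX]
      exact hf0.trans (hf α (subset_convexHull ℝ _ hα))
    have hX0 : X ≠ 0 := by
      intro h
      have := hpos α₀ (Set.mem_insert _ _)
      rw [h, map_zero] at this
      exact lt_irrefl _ this
    have hn : 0 < ‖X‖ := norm_pos_iff.2 hX0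
    refine ⟨(‖X‖)⁻¹ • X, ?_, ?_⟩
    · rw [mem_sphere_zero_iff_norm, norm_smul, norm_inv, norm_norm, inv_mul_cancel₀ hn.ne']
    · simp only [Set.mem_iInter, Set.mem_setOf_eq]
      intro α hα
      rw [map_smul, smul_eq_mul]
      exact mul_nonneg (inv_nonneg.2 hn.le)
        (hpos α (Set.mem_insert_of_mem _ ⟨α, hα, rfl⟩)).le
  have hcomp : IsCompact (Metric.sphere (0 : E) 1) := by
    have : ProperSpace E := FiniteDimensional.proper ℝ E
    exact isCompact_sphere _ _
  obtain ⟨X, hX1, hX2⟩ := hcomp.inter_iInter_nonempty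
    (fun α : S => {X : E | 0 ≤ (α : E →L[ℝ] ℝ) X})
    (fun α => isClosed_le continuous_const α.1.continuous) hfin
  refine ⟨X, ?_, ?_⟩
  · rintro rfl
    rw [mem_sphere_zero_iff_norm, norm_zero] at hX1
    exact zero_ne_one hX1
  · intro α hα
    exact Set.mem_iInter.1 hX2 ⟨α, hα⟩

end Pool.Agent.W660.FL
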