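import Pool.Agent.W660.FL.Stm

/-!
Project FL, part STRC: strict convexity.
-/

namespace Pool.Agent.W660.FL

open MeasureTheory Complex Filter Topology
open scoped ComplexConjugate InnerProductSpace Manifold ContDiff

theorem t_STRC : S_STRC := by
  intro K _ _ _ v w c p hv hvc hw hp hp0 hpi hp1 hint t
  have hI : Integrable (fun t => ((p t : ℝ) : ℂ) • v t) := by
    refine Integrable.mono' (hpi.mul_const c) ?_ (Filter.Eventually.of_forall fun s => ?_)
    · exact ((Complex.continuous_ofReal.comp hp).smul hv).aestronglyMeasurable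
    · rw [norm_smul, Complex.norm_real, Real.norm_of_nonneg (hp0 s).le, hvc s]
  have hre : ∀ s, RCLike.re (⟪w, ((p s : ℝ) : ℂ) • v s⟫_ℂ) = p s * RCLike.re (⟪w, v s⟫_ℂ) := by
    intro s
    rw [inner_smul_right]
    show (((p s : ℝ) : ℂ) * ⟪w, v s⟫_ℂ).re = p s * (⟪w, v s⟫_ℂ).re
    rw [Complex.re_ofReal_mul]
  have h1 : ∫ s, p s * RCLike.re (⟪w, v s⟫_ℂ) = c ^ 2 := by
    have h2 := integral_inner (𝕜 := ℂ) hI w
    rw [hint] at h2
    have h3 : Integrable (fun s => ⟪w, ((p s : ℝ) : ℂ) • v s⟫_ℂ) := hI.const_inner w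
    have h4 := integral_re (𝕜 := ℂ) h3
    rw [h2, inner_self_eq_norm_sq, hw] at h4
    rw [← h4]
    exact integral_congr_ae (Filter.Eventually.of_forall fun s => (hre s).symm)
  have hI2 : Integrable (fun s => p s * RCLike.re (⟪w, v s⟫_ℂ)) := by
    have h3 : Integrable (fun s => ⟪w, ((p s : ℝ) : ℂ) • v s⟫_ℂ) := hI.const_inner w
    exact h3.re.congr (Filter.Eventually.of_forall fun s => hre s)
  have hI1 : Integrable (fun s => p s * c ^ 2) := hpi.mul_const _
  have h5 : ∫ s, p s * (c ^ 2 - RCLike.re (⟪w, v s⟫_ℂ)) = 0 := by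
    have h6 : (fun s => p s * (c ^ 2 - RCLike.re (⟪w, v s⟫_ℂ))) =
        fun s => p s * c ^ 2 - p s * RCLike.re (⟪w, v s⟫_ℂ) := by
      funext s
      ring
    rw [h6, integral_sub hI1 hI2, h1, integral_mul_const, hp1]
    ring
  have h7 : Integrable (fun s => p s * (c ^ 2 - RCLike.re (⟪w, v s⟫_ℂ))) := by
    have h6 : (fun s => p s * (c ^ 2 - RCLike.re (⟪w, v s⟫_ℂ))) =
        fun s => p s * c ^ 2 - p s * RCLike.re (⟪w, v s⟫_ℂ) := by
      funext s
      ring
    rw [h6]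
    exact hI1.sub hI2
  have hle : ∀ s, RCLike.re (⟪w, v s⟫_ℂ) ≤ c ^ 2 := by
    intro s
    have h8 := re_inner_le_norm (𝕜 := ℂ) w (v s)
    rw [hw, hvc s] at h8
    rw [sq]
    exact h8
  have h9 : (fun s => p s * (c ^ 2 - RCLike.re (⟪w, v s⟫_ℂ))) =ᵐ[volume] fun _ => (0 : ℝ) := by
    refine (integral_eq_zero_iff_of_nonneg (fun s => ?_) h7).1 h5
    exact mul_nonneg (hp0 s).le (sub_nonneg.2 (hle s))
  have hcont : Continuous (fun s => p s * (c ^ 2 - RCLike.re (⟪w, v s⟫_ℂ))) := by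
    refine hp.mul (continuous_const.sub ?_)
    exact RCLike.continuous_re.comp (continuous_const.inner hv)
  have h10 := (Continuous.ae_eq_iff_eq volume hcont continuous_const).1 h9
  have h11 : p t * (c ^ 2 - RCLike.re (⟪w, v t⟫_ℂ)) = 0 := congrFun h10 t
  have h12 : c ^ 2 - RCLike.re (⟪w, v t⟫_ℂ) = 0 := by
    rcases mul_eq_zero.1 h11 with h13 | h13
    · exact absurd h13 (hp0 t).ne'
    · exact h13
  have h14 : ‖v t - w‖ ^ 2 = 0 := by
    rw [norm_sub_sq (𝕜 := ℂ), inner_re_symm, hvc t, hw]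
    linarith
  have h15 : ‖v t - w‖ = 0 := by
    rwa [sq_eq_zero_iff] at h14
  exact sub_eq_zero.1 (norm_eq_zero.1 h15)

end Pool.Agent.W660.FL
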