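import Mathlib

/-!
Definitions for project FL (problem MP_2da52b_an): closed translation-invariant Tauberian
subalgebras with full spectrum of the Fourier algebra of a Lie group.
-/

namespace Pool.Agent.W660.FL

open MeasureTheory Complex Filter Topology
open scoped ComplexConjugate InnerProductSpace Manifold ContDiff

noncomputable section

/-! ### The Fourier algebra -/

section FA

variable {G : Type} [Group G] [MeasurableSpace G]

/-- the coefficient function `x ↦ ⟨λ(x) ξ, η⟩` of the left regular representation,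
`(λ(x) ξ)(y) = ξ (x⁻¹ y)` -/
def coef (μ : Measure G) (ξ η : G → ℂ) (x : G) : ℂ := ∫ y, ξ (x⁻¹ * y) * conj (η y) ∂μ

/-- `u = ⟨λ(·) ξ, η⟩` with `ξ, η ∈ L²` and `‖ξ‖ ‖η‖ ≤ c` -/
def InFA (μ : Measure G) (c : ℝ) (u : G → ℂ) : Prop :=
  ∃ ξ η : G → ℂ, MemLp ξ 2 μ ∧ MemLp η 2 μ ∧
    (eLpNorm ξ 2 μ).toReal * (eLpNorm η 2 μ).toReal ≤ c ∧ ∀ x, u x = coef μ ξ η x

/-- the Fourier algebra `A(G)` (as a set of functions) -/
def FA (μ : Measure G) : Set (G → ℂ) := {u | ∃ c, InFA μ c u}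

/-- closed, translation-invariant, Tauberian subalgebra of `A(G)` all of whose characters are
evaluations at points of `G` -/
structure IsAlg [TopologicalSpace G] (μ : Measure G) (A : Set (G → ℂ)) : Prop where
  sub : A ⊆ FA μ
  add : ∀ u ∈ A, ∀ v ∈ A, u + v ∈ A
  smul : ∀ (c : ℂ), ∀ u ∈ A, c • u ∈ A
  mul : ∀ u ∈ A, ∀ v ∈ A, u * v ∈ A
  closed : ∀ u ∈ FA μ, (∀ ε > 0, ∃ v ∈ A, InFA μ ε (u - v)) → u ∈ A
  left : ∀ g, ∀ u ∈ A, (fun x => u (g * x)) ∈ A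
  right : ∀ g, ∀ u ∈ A, (fun x => u (x * g)) ∈ A
  taub : ∀ u ∈ A, ∀ ε > 0, ∃ v ∈ A, HasCompactSupport v ∧ InFA μ ε (u - v)
  spec : ∀ χ : (G → ℂ) → ℂ, (∀ u ∈ A, ∀ v ∈ A, χ (u + v) = χ u + χ v) →
    (∀ (c : ℂ), ∀ u ∈ A, χ (c • u) = c * χ u) →
    (∀ u ∈ A, ∀ v ∈ A, χ (u * v) = χ u * χ v) → (∃ u ∈ A, χ u ≠ 0) →
    ∃ g : G, ∀ u ∈ A, χ u = u g
  sep : ∀ g h : G, g ≠ h → ∃ u ∈ A, u g ≠ u h
  nz : ∀ g : G, ∃ u ∈ A, u g ≠ 0

end FA

/-! ### The Hilbert space `L²(G)` -/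

section L2

variable {G : Type} [Group G] [TopologicalSpace G] [IsTopologicalGroup G]
  [MeasurableSpace G] [BorelSpace G]

/-- `L²(G)` -/
abbrev HH (μ : Measure G) := Lp ℂ 2 μ

/-- `(U x ξ)(y) = ξ (x y)` -/
def U (μ : Measure G) [μ.IsMulLeftInvariant] (x : G) : HH μ →ₗᵢ[ℂ] HH μ :=
  Lp.compMeasurePreservingₗᵢ ℂ (fun y => x * y) (measurePreserving_mul_left μ x)

/-- continuous with compact support -/
def Cc (u : G → ℂ) : Prop := Continuous u ∧ HasCompactSupport u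

open Classical in
/-- the class in `L²(G)` of a function -/
def cl (μ : Measure G) (u : G → ℂ) : HH μ := if h : MemLp u 2 μ then h.toLp u else 0

/-- the positive definite function `x ↦ ⟨U x ξ, η⟩` (linear in `ξ`) -/
def mc (μ : Measure G) [μ.IsMulLeftInvariant] (ξ η : HH μ) (x : G) : ℂ := ⟪η, U μ x ξ⟫_ℂ

/-- convolution -/
def conv (μ : Measure G) (f w : G → ℂ) (x : G) : ℂ := ∫ z, f z * w (z⁻¹ * x) ∂μ

end L2

/-! ### Second order Peano expansion at `0` -/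

section Peano

variable {E F : Type} [NormedAddCommGroup E] [NormedSpace ℝ E] [NormedAddCommGroup F]
  [NormedSpace ℝ F]

/-- second order expansion at `0` -/
def Pe2 (f : E → F) : Prop := ∃ (L : E →L[ℝ] F) (B : E →L[ℝ] E →L[ℝ] F),
  (fun a => f a - f 0 - L a - B a a) =o[𝓝 0] fun a => ‖a‖ ^ 2

end Peano

/-! ### Charts at the identity -/

/-- a smooth chart at the identity in which the group operations are smooth -/
structure LieChart (G : Type) [Group G] [TopologicalSpace G] (E : Type) [NormedAddCommGroup E]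
    [NormedSpace ℝ E] where
  κ : OpenPartialHomeomorph G E
  one_mem : (1 : G) ∈ κ.source
  map_one : κ 1 = 0
  mul : ContDiffAt ℝ ∞ (fun p : E × E => κ (κ.symm p.1 * κ.symm p.2)) (0, 0)
  inv : ContDiffAt ℝ ∞ (fun a : E => κ (κ.symm a)⁻¹) 0
  cnj : ∀ g : G, ContDiffAt ℝ ∞ (fun a : E => κ (g * κ.symm a * g⁻¹)) 0

section Ch

variable {G : Type} [Group G] [TopologicalSpace G] [IsTopologicalGroup G]
  [MeasurableSpace G] [BorelSpace G] {E : Type} [NormedAddCommGroup E] [NormedSpace ℝ E]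

/-- smooth vectors (second order) -/
def Sm (μ : Measure G) [μ.IsMulLeftInvariant] (C : LieChart G E) (ξ : HH μ) : Prop :=
  Pe2 fun a : E => U μ (C.κ.symm a) ξ

/-- the class of normalised functions -/
def InP (C : LieChart G E) (A : Set (G → ℂ)) (φ : G → ℂ) : Prop :=
  φ ∈ A ∧ Cc φ ∧ φ 1 = 1 ∧ (∀ x, ‖φ x‖ ≤ 1) ∧ (∀ x, φ x⁻¹ = conj (φ x)) ∧
    Pe2 fun a : E => φ (C.κ.symm a)

/-- `φ (κ⁻¹ a) = 1 + i α(a) + ...` -/
def HasAl (C : LieChart G E) (φ : G → ℂ) (α : E →L[ℝ] ℝ) : Prop :=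
  HasFDerivAt (fun a : E => φ (C.κ.symm a)) ((Complex.I : ℂ) • (Complex.ofRealCLM.comp α)) 0

/-- `|φ| < 1` off the identity, nondegenerate maximum -/
def Strict (C : LieChart G E) (φ : G → ℂ) : Prop :=
  (∀ x, x ≠ 1 → ‖φ x‖ < 1) ∧ ∃ c > 0, ∀ᶠ a in 𝓝 (0 : E), ‖φ (C.κ.symm a)‖ ≤ 1 - c * ‖a‖ ^ 2

/-- the function on `G` which is `F ∘ κ` in the chart and `0` outside -/
def lift (C : LieChart G E) (F : E → ℂ) (z : G) : ℂ := by
  classical exact if z ∈ C.κ.source then F (C.κ z) else 0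

/-- small balls in the chart -/
def Bk (C : LieChart G E) (r : ℝ) : Set G := {x | x ∈ C.κ.source ∧ ‖C.κ x‖ ≤ r}

end Ch

/-- one-parameter subgroup -/
def IsOne {G : Type} [Group G] [TopologicalSpace G] (γ : ℝ → G) : Prop :=
  Continuous γ ∧ ∀ s t, γ (s + t) = γ s * γ t

/-- Poisson kernel -/
def Po (s t : ℝ) : ℝ := s / (Real.pi * (s ^ 2 + t ^ 2))

/-- condition of analyticity in the upper half plane -/
def Ana (g : ℝ → ℂ) : Prop := ∀ a : ℂ, a.im < 0 → ∫ r : ℝ, g r * ((r : ℂ) - a)⁻¹ ^ 2 = 0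

end

end Pool.Agent.W660.FL
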