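import Pool.Agent.W660.FL.Defs

/-!
Statements of the parts of project FL (problem MP_2da52b_an).
-/

namespace Pool.Agent.W660.FL

open MeasureTheory Complex Filter Topology
open scoped ComplexConjugate InnerProductSpace Manifold ContDiff

noncomputable section

section A

variable (G : Type) [Group G] [TopologicalSpace G] [IsTopologicalGroup G] [T2Space G]
  [LocallyCompactSpace G] [SecondCountableTopology G] [MeasurableSpace G] [BorelSpace G]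
  (μ : Measure G) [μ.IsHaarMeasure]

/-! ### Part I: the Hilbert space and the algebra -/

/-- basic facts on the translations -/
def S_UB : Prop :=
  (∀ (x y : G) (ξ : HH μ), U μ (x * y) ξ = U μ y (U μ x ξ)) ∧ (∀ ξ : HH μ, U μ 1 ξ = ξ) ∧
  (∀ ξ : HH μ, Continuous fun x => U μ x ξ) ∧
  (∀ (x : G) (ξ η : HH μ), ⟪η, U μ x ξ⟫_ℂ = ⟪U μ x⁻¹ η, ξ⟫_ℂ)

/-- continuous functions with compact support -/
def S_CC : Prop :=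
  (∀ u : G → ℂ, Cc u → MemLp u 2 μ ∧ Integrable u μ) ∧
  (∀ u v : G → ℂ, Cc u → Cc v → Cc (u + v) ∧ cl μ (u + v) = cl μ u + cl μ v) ∧
  (∀ (c : ℂ) (u : G → ℂ), Cc u → Cc (c • u) ∧ cl μ (c • u) = c • cl μ u) ∧
  (∀ u : G → ℂ, Cc u → ∀ x, Cc (fun y => u (x * y)) ∧ Cc (fun y => u (y * x)) ∧
    U μ x (cl μ u) = cl μ (fun y => u (x * y))) ∧
  (∀ u v : G → ℂ, Cc u → Cc v → ⟪cl μ v, cl μ u⟫_ℂ = ∫ y, conj (v y) * u y ∂μ) ∧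
  (∀ u v : G → ℂ, Cc u → Cc v → cl μ u = cl μ v → u = v) ∧
  (∀ (ξ : HH μ) (ε : ℝ), 0 < ε → ∃ u : G → ℂ, Cc u ∧ ‖ξ - cl μ u‖ ≤ ε)

/-- coefficient functions in terms of `U` -/
def S_FAC : Prop :=
  (∀ ξ η : HH μ, InFA μ (‖ξ‖ * ‖η‖) (mc μ ξ η)) ∧
  (∀ (c : ℝ) (u : G → ℂ), InFA μ c u → ∃ ξ η : HH μ, ‖ξ‖ * ‖η‖ ≤ c ∧ ∀ x, u x = mc μ ξ η x)

/-- vectors all of whose coefficient functions are in `A` -/
def SA (A : Set (G → ℂ)) : Set (HH μ) := {ζ | ∀ η : HH μ, mc μ ζ η ∈ A}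

/-- the closed subspace `SA` -/
def S_SA : Prop := ∀ A : Set (G → ℂ), IsAlg μ A →
  0 ∈ SA G μ A ∧ (∀ ζ ∈ SA G μ A, ∀ ζ' ∈ SA G μ A, ζ + ζ' ∈ SA G μ A) ∧
  (∀ (c : ℂ), ∀ ζ ∈ SA G μ A, c • ζ ∈ SA G μ A) ∧
  (∀ ζ : HH μ, (∀ ε > 0, ∃ ζ' ∈ SA G μ A, ‖ζ - ζ'‖ ≤ ε) → ζ ∈ SA G μ A) ∧
  (∀ ζ ∈ SA G μ A, ∀ g, U μ g ζ ∈ SA G μ A) ∧
  ((∀ ζ, ζ ∈ SA G μ A) → A = FA μ)

/-- averages of coefficient functions -/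
def S_INTA : Prop := ∀ A : Set (G → ℂ), IsAlg μ A →
  (∀ (η : HH μ) (f : G → HH μ), Integrable f μ → (∀ z, mc μ (f z) η ∈ A) →
    mc μ (∫ z, f z ∂μ) η ∈ A) ∧
  (∀ (ξ : HH μ) (f : G → HH μ), Integrable f μ → (∀ z, mc μ ξ (f z) ∈ A) →
    mc μ ξ (∫ z, f z ∂μ) ∈ A)

/-- elements of `A` -/
def S_DSA : Prop := ∀ A : Set (G → ℂ), IsAlg μ A → ∀ u ∈ A, Continuous u ∧
  (∃ c, ∀ x, ‖u x‖ ≤ c) ∧ (HasCompactSupport u → cl μ u ∈ SA G μ A)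

/-- uniform density of the compactly supported elements -/
def S_SUPD : Prop := ∀ A : Set (G → ℂ), IsAlg μ A → ∀ u ∈ A, ∀ ε > 0, ∃ v ∈ A, Cc v ∧
  ∀ x, ‖u x - v x‖ ≤ ε

/-- positive definite functions -/
def S_PHI : Prop := ∀ A : Set (G → ℂ), IsAlg μ A → ∀ u ∈ A, HasCompactSupport u →
  mc μ (cl μ u) (cl μ u) ∈ A ∧ Cc (mc μ (cl μ u) (cl μ u)) ∧
  mc μ (cl μ u) (cl μ u) 1 = ((‖cl μ u‖ ^ 2 : ℝ) : ℂ) ∧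
  (∀ x, ‖mc μ (cl μ u) (cl μ u) x‖ ≤ ‖cl μ u‖ ^ 2) ∧
  ∀ x, mc μ (cl μ u) (cl μ u) x⁻¹ = conj (mc μ (cl μ u) (cl μ u) x)

/-- convolutions are in `A` -/
def S_CONVA : Prop := ∀ f w : G → ℂ, Cc f → Cc w → ∀ A : Set (G → ℂ), IsAlg μ A →
  (w ∈ A → conv μ f w ∈ A) ∧ (f ∈ A → conv μ f w ∈ A)

/-- convolutions in `L²` -/
def S_CONVL : Prop := ∀ f w : G → ℂ, Cc f → Cc w → Cc (conv μ f w) ∧
  Integrable (fun z => f z • U μ z⁻¹ (cl μ w)) μ ∧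
  cl μ (conv μ f w) = ∫ z, f z • U μ z⁻¹ (cl μ w) ∂μ

/-- approximate identity -/
def S_APPR : Prop := ∀ w : G → ℂ, Cc w → ∀ ε > 0, ∃ V ∈ 𝓝 (1 : G), ∀ f : G → ℂ, Cc f →
  (∀ x, (f x).im = 0 ∧ 0 ≤ (f x).re) → ∫ x, f x ∂μ = 1 → (∀ x, x ∉ V → f x = 0) →
  (∀ x, ‖conv μ f w x - w x‖ ≤ ε) ∧ ‖cl μ (conv μ f w) - cl μ w‖ ≤ ε

/-- the conclusion of the proof -/
def S_FIN : Prop := ∀ A : Set (G → ℂ), IsAlg μ A → ∀ g : ℕ → G → ℂ,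
  (∀ n, g n ∈ A ∧ Cc (g n)) → (∃ c, ∀ n, ∫ x, ‖g n x‖ ∂μ ≤ c) → (∀ n, ∫ x, g n x ∂μ = 1) →
  (∀ V ∈ 𝓝 (1 : G), Tendsto (fun n => ∫ x in Vᶜ, ‖g n x‖ ∂μ) atTop (𝓝 0)) → A = FA μ

/-! ### Part II: one-parameter subgroups and characters -/

/-- averages along a one-parameter subgroup -/
def S_IDENT : Prop := ∀ u : G → ℂ, Cc u → ∀ γ : ℝ → G, IsOne γ → ∀ f : ℝ → ℂ, Integrable f →
  Integrable (fun r : ℝ => f r • U μ (γ r) (cl μ u)) ∧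
  ((∫ r : ℝ, f r • U μ (γ r) (cl μ u)) = 0 → ∀ y, ∫ r : ℝ, f r * u (γ r * y) = 0) ∧
  ∀ g : G, (∀ y, ∫ r : ℝ, f r * u (γ r * y) = u (g * y)) →
    (∫ r : ℝ, f r • U μ (γ r) (cl μ u)) = U μ g (cl μ u)

/-- a one-parameter subgroup along which `A` is analytic is trivial -/
def S_CHI : Prop := ∀ A : Set (G → ℂ), IsAlg μ A → ∀ γ : ℝ → G, IsOne γ →
  (∀ u ∈ A, ∀ ε > 0, ∃ v ∈ A, Cc v ∧ (∀ x, ‖u x - v x‖ ≤ ε) ∧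
    ∀ y, Ana (fun r => v (γ r * y))) → ∀ t, γ t = 1

/-- extension of local one-parameter subgroups -/
def S_EXT : Prop := ∀ (g : ℝ → G) (ε : ℝ), 0 < ε → g 0 = 1 →
  ContinuousOn g (Set.Ioo (-ε) ε) →
  (∀ s t, |s| < ε → |t| < ε → |s + t| < ε → g (s + t) = g s * g t) →
  ∃ γ : ℝ → G, IsOne γ ∧ ∀ᶠ t in 𝓝 (0 : ℝ), γ t = g t

end A

/-! ### Part III: analysis -/

/-- the monotonicity argument -/
def S_MONO : Prop := ∀ (K : Type) [NormedAddCommGroup K] [InnerProductSpace ℂ K]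
  [CompleteSpace K] (V : ℝ → K →L[ℂ] K), (∀ t x, ‖V t x‖ = ‖x‖) →
  (∀ s t x, V (s + t) x = V s (V t x)) → (∀ x, Continuous fun t => V t x) →
  ∀ u u' : K, HasDerivAt (fun t : ℝ => V t u) u' 0 →
  (∀ (n : ℕ) (c : Fin n → ℂ) (r : Fin n → ℝ),
    0 ≤ (-Complex.I * ⟪∑ j, c j • V (r j) u, ∑ j, c j • V (r j) u'⟫_ℂ).re) →
  ∀ a : ℂ, a.im < 0 → ∫ r : ℝ, ((r : ℂ) - a)⁻¹ ^ 2 • V r u = 0

/-- analytic extension -/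
def S_HOL : Prop := ∀ g : ℝ → ℂ, Continuous g → (∃ c, ∀ t, ‖g t‖ ≤ c) → Ana g →
  ∃ F : ℂ → ℂ, DifferentiableOn ℂ F {z | 0 < z.im} ∧
    ∀ x s : ℝ, 0 < s → F (x + s * Complex.I) = ∫ t : ℝ, ((Po s (t - x) : ℝ) : ℂ) * g t

/-- the Poisson kernel -/
def S_BDY : Prop := (∀ s : ℝ, 0 < s → Continuous (Po s) ∧ Integrable (Po s) ∧
    ∫ t, Po s t = 1 ∧ ∀ t, 0 < Po s t) ∧
  ∀ g : ℝ → ℂ, Continuous g → (∃ c, ∀ t, ‖g t‖ ≤ c) → ∀ x : ℝ,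
    Tendsto (fun s : ℝ => ∫ t : ℝ, ((Po s (t - x) : ℝ) : ℂ) * g t) (𝓝[>] 0) (𝓝 (g x))

/-- Poisson formula for bounded analytic functions in the upper half plane -/
def S_POI : Prop := ∀ (F : ℂ → ℂ) (c : ℝ), DifferentiableOn ℂ F {z | 0 < z.im} →
  (∀ z : ℂ, 0 < z.im → ‖F z‖ ≤ c) → ∀ f : ℝ → ℂ, Continuous f →
  (∀ t : ℝ, Tendsto (fun δ : ℝ => F (t + δ * Complex.I)) (𝓝[>] 0) (𝓝 (f t))) →
  ∀ s : ℝ, 0 < s → F (s * Complex.I) = ∫ t : ℝ, ((Po s t : ℝ) : ℂ) * f t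

/-- multiplicativity of the Poisson integral -/
def S_MULT : Prop := ∀ g₁ g₂ : ℝ → ℂ, Continuous g₁ → Continuous g₂ →
  (∃ c, ∀ t, ‖g₁ t‖ ≤ c) → (∃ c, ∀ t, ‖g₂ t‖ ≤ c) → Ana g₁ → Ana g₂ → ∀ s : ℝ, 0 < s →
  ∫ t : ℝ, ((Po s t : ℝ) : ℂ) * (g₁ t * g₂ t) =
    (∫ t : ℝ, ((Po s t : ℝ) : ℂ) * g₁ t) * ∫ t : ℝ, ((Po s t : ℝ) : ℂ) * g₂ t

/-- strict convexity -/
def S_STRC : Prop := ∀ (K : Type) [NormedAddCommGroup K] [InnerProductSpace ℂ K]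
  [CompleteSpace K] (v : ℝ → K) (w : K) (c : ℝ) (p : ℝ → ℝ), Continuous v →
  (∀ t, ‖v t‖ = c) → ‖w‖ = c → Continuous p → (∀ t, 0 < p t) → Integrable p →
  ∫ t, p t = 1 → ∫ t, ((p t : ℝ) : ℂ) • v t = w → ∀ t, v t = w

/-- second order expansions -/
def S_PE1 : Prop :=
  (∀ (E F : Type) [NormedAddCommGroup E] [NormedSpace ℝ E] [NormedAddCommGroup F]
    [NormedSpace ℝ F] (f g : E → F), Pe2 f → Pe2 g → Pe2 (f + g)) ∧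
  (∀ (E F F' : Type) [NormedAddCommGroup E] [NormedSpace ℝ E] [NormedAddCommGroup F]
    [NormedSpace ℝ F] [NormedAddCommGroup F'] [NormedSpace ℝ F'] (T : F →L[ℝ] F') (f : E → F),
    Pe2 f → Pe2 (fun a => T (f a))) ∧
  (∀ (E : Type) [NormedAddCommGroup E] [NormedSpace ℝ E] (f g : E → ℂ), Pe2 f → Pe2 g →
    Pe2 (f * g)) ∧
  (∀ (E F : Type) [NormedAddCommGroup E] [NormedSpace ℝ E] [NormedAddCommGroup F]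
    [NormedSpace ℝ F] (f : E → F) (L : E →L[ℝ] F) (B : E →L[ℝ] E →L[ℝ] F),
    (fun a => f a - f 0 - L a - B a a) =o[𝓝 0] (fun a => ‖a‖ ^ 2) → HasFDerivAt f L 0)

def S_PE2 : Prop :=
  (∀ (E F : Type) [NormedAddCommGroup E] [NormedSpace ℝ E] [NormedAddCommGroup F]
    [NormedSpace ℝ F] (f : E → F), ContDiffAt ℝ 2 f 0 → Pe2 f) ∧
  (∀ (E F : Type) [NormedAddCommGroup E] [NormedSpace ℝ E] [NormedAddCommGroup F]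
    [NormedSpace ℝ F] (f : E → F) (c : E → E), Pe2 f → ContDiffAt ℝ 2 c 0 → c 0 = 0 →
    Pe2 (f ∘ c))

/-- separation in finite dimension -/
def S_SEP : Prop := ∀ (E : Type) [NormedAddCommGroup E] [NormedSpace ℝ E]
  [FiniteDimensional ℝ E] (S : Set (E →L[ℝ] ℝ)), Convex ℝ S → S.Nonempty → 0 ∉ S →
  ∃ X : E, X ≠ 0 ∧ ∀ α ∈ S, 0 ≤ α X

/-- Laplace integrals with a doubling measure -/
def S_MEAS : Prop := ∀ (X : Type) [MeasurableSpace X] (ν : Measure X) (N : Set X) (ρ : X → ℝ)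
  (L r₀ : ℝ), MeasurableSet N → Measurable ρ → ν N ≠ ⊤ → 0 < r₀ → (∀ x, 0 ≤ ρ x) →
  (∀ x ∈ N, ρ x ≤ r₀) → (∀ r, 0 < r → r ≤ r₀ → 0 < ν.real {x | x ∈ N ∧ ρ x ≤ r}) →
  (∀ r, 0 < r → 2 * r ≤ r₀ →
    ν.real {x | x ∈ N ∧ ρ x ≤ 2 * r} ≤ L * ν.real {x | x ∈ N ∧ ρ x ≤ r}) → ∀ c > 0,
  (∃ K, ∀ n : ℕ, 1 ≤ n * r₀ ^ 2 →
    ∫ x in N, (1 + n * ρ x ^ 2) * Real.exp (-c * n * ρ x ^ 2) ∂ν ≤
      K * ν.real {x | x ∈ N ∧ ρ x ≤ 1 / Real.sqrt n}) ∧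
  (∀ q, 0 ≤ q → q < 1 → Tendsto (fun n : ℕ => q ^ n /
    ν.real {x | x ∈ N ∧ ρ x ≤ 1 / Real.sqrt n}) atTop (𝓝 0))

section B

variable (G : Type) [Group G] [TopologicalSpace G] [IsTopologicalGroup G] [T2Space G]
  [LocallyCompactSpace G] [SecondCountableTopology G] [MeasurableSpace G] [BorelSpace G]
  (μ : Measure G) [μ.IsHaarMeasure] (E : Type) [NormedAddCommGroup E] [NormedSpace ℝ E]
  [FiniteDimensional ℝ E]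

/-! ### Part IV: smooth vectors -/

/-- smooth vectors: linear combinations, translates, coefficients -/
def S_SM1 : Prop := ∀ C : LieChart G E,
  (∀ ξ η : HH μ, Sm μ C ξ → Sm μ C η → Sm μ C (ξ + η)) ∧
  (∀ (c : ℂ) (ξ : HH μ), Sm μ C ξ → Sm μ C (c • ξ)) ∧
  (∀ (g : G) (ξ : HH μ), Sm μ C ξ → Sm μ C (U μ g ξ)) ∧
  (∀ ξ η : HH μ, Sm μ C ξ → Pe2 fun a : E => mc μ ξ η (C.κ.symm a))

/-- convolutions with smooth functions are smooth vectors -/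
def S_SM2 : Prop := ∀ C : LieChart G E, ∃ r₁ : ℝ, 0 < r₁ ∧ ∀ F : E → ℂ, ContDiff ℝ ∞ F →
  tsupport F ⊆ Metric.ball 0 r₁ → Cc (lift C F) ∧
  ∀ w : G → ℂ, Cc w → Sm μ C (cl μ (conv μ (lift C F) w))

/-- density of smooth vectors -/
def S_SM3 : Prop := ∀ C : LieChart G E, ∀ A : Set (G → ℂ), IsAlg μ A → ∀ w ∈ A, Cc w →
  ∀ ε > 0, ∃ v ∈ A, Cc v ∧ Sm μ C (cl μ v) ∧ (∀ x, ‖w x - v x‖ ≤ ε) ∧ ‖cl μ w - cl μ v‖ ≤ ε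

/-- local one-parameter subgroups -/
def S_ODE : Prop := ∀ (C : LieChart G E) (X : E), ∃ ε : ℝ, 0 < ε ∧ ∃ g : ℝ → G, g 0 = 1 ∧
  ContinuousOn g (Set.Ioo (-ε) ε) ∧ HasDerivAt (fun t => C.κ (g t)) X 0 ∧
  ∀ s t, |s| < ε → |t| < ε → |s + t| < ε → g (s + t) = g s * g t

/-- one-parameter subgroups -/
def S_OPS : Prop := ∀ (C : LieChart G E) (X : E), ∃ γ : ℝ → G, IsOne γ ∧
  HasDerivAt (fun t => C.κ (γ t)) X 0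

/-! ### Part V: the class of normalised functions -/

def S_P1 : Prop := ∀ (C : LieChart G E) (A : Set (G → ℂ)), IsAlg μ A →
  (∀ φ ψ, InP C A φ → InP C A ψ → InP C A (φ * ψ)) ∧
  (∀ φ ψ (t : ℝ), InP C A φ → InP C A ψ → 0 ≤ t → t ≤ 1 →
    InP C A ((t : ℂ) • φ + ((1 - t : ℝ) : ℂ) • ψ)) ∧
  (∀ φ, InP C A φ → ∃ α, HasAl C φ α) ∧
  (∀ φ α β, HasAl C φ α → HasAl C φ β → α = β) ∧
  (∀ φ ψ α β, InP C A φ → InP C A ψ → HasAl C φ α → HasAl C ψ β → HasAl C (φ * ψ) (α + β)) ∧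
  (∀ φ ψ α β (t : ℝ), HasAl C φ α → HasAl C ψ β →
    HasAl C ((t : ℂ) • φ + ((1 - t : ℝ) : ℂ) • ψ) (t • α + (1 - t) • β))

def S_P2 : Prop := ∀ (C : LieChart G E) (A : Set (G → ℂ)), IsAlg μ A → ∀ u ∈ A, Cc u →
  Sm μ C (cl μ u) → cl μ u ≠ 0 →
  InP C A ((((‖cl μ u‖ ^ 2 : ℝ) : ℂ)⁻¹) • mc μ (cl μ u) (cl μ u))

/-- strictness -/
def S_ST1 : Prop := ∀ (C : LieChart G E) (A : Set (G → ℂ)), IsAlg μ A →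
  (∀ φ ψ, InP C A φ → InP C A ψ → Strict C φ → Strict C (φ * ψ)) ∧
  (∀ φ ψ (t : ℝ), InP C A φ → InP C A ψ → Strict C φ → Strict C ψ → 0 ≤ t → t ≤ 1 →
    Strict C ((t : ℂ) • φ + ((1 - t : ℝ) : ℂ) • ψ))

/-- separation of a point from the identity -/
def S_OFF : Prop := ∀ (C : LieChart G E) (A : Set (G → ℂ)), IsAlg μ A → ∀ x : G, x ≠ 1 →
  ∃ φ, InP C A φ ∧ ‖φ x‖ < 1

/-- nondegeneracy in a direction -/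
def S_DIR : Prop := ∀ (C : LieChart G E) (A : Set (G → ℂ)), IsAlg μ A → ∀ X : E, X ≠ 0 →
  ∃ φ, InP C A φ ∧ ∃ c > 0, ∀ᶠ t in 𝓝 (0 : ℝ), ‖φ (C.κ.symm (t • X))‖ ≤ 1 - c * t ^ 2

/-- existence of a strict function -/
def S_ST2 : Prop := ∀ (C : LieChart G E) (A : Set (G → ℂ)), IsAlg μ A →
  ∃ φ, InP C A φ ∧ Strict C φ

/-- positivity -/
def S_POS : Prop := ∀ (C : LieChart G E) (A : Set (G → ℂ)), IsAlg μ A → ∀ (X : E) (γ : ℝ → G),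
  IsOne γ → HasDerivAt (fun t => C.κ (γ t)) X 0 →
  (∀ φ α, InP C A φ → HasAl C φ α → 0 ≤ α X) → ∀ v ∈ A, Cc v → Sm μ C (cl μ v) →
  ∃ u' : HH μ, HasDerivAt (fun t : ℝ => U μ (γ t) (cl μ v)) u' 0 ∧
    ∀ (n : ℕ) (c : Fin n → ℂ) (r : Fin n → ℝ),
      0 ≤ (-Complex.I * ⟪∑ j, c j • U μ (γ (r j)) (cl μ v), ∑ j, c j • U μ (γ (r j)) u'⟫_ℂ).re

/-- no direction is positive -/
def S_NOPOS : Prop := ∀ (C : LieChart G E) (A : Set (G → ℂ)), IsAlg μ A → ∀ X : E, X ≠ 0 →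
  ¬ ∀ φ α, InP C A φ → HasAl C φ α → 0 ≤ α X

/-- a strict function without linear term -/
def S_CEN : Prop := ∀ (C : LieChart G E) (A : Set (G → ℂ)), IsAlg μ A →
  ∃ φ, InP C A φ ∧ Strict C φ ∧ HasAl C φ 0

/-! ### Part VI: Laplace method -/

/-- doubling -/
def S_DBL : Prop := ∀ C : LieChart G E, ∃ L r₀ : ℝ, 0 < r₀ ∧
  Metric.closedBall 0 r₀ ⊆ C.κ.target ∧ IsCompact (Bk C r₀) ∧
  (∀ r, 0 < r → r ≤ r₀ → 0 < μ.real (Bk C r)) ∧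
  ∀ r, 0 < r → 2 * r ≤ r₀ → μ.real (Bk C (2 * r)) ≤ L * μ.real (Bk C r)

/-- behaviour at the identity -/
def S_REAL : Prop := ∀ (C : LieChart G E) (A : Set (G → ℂ)) (φ : G → ℂ), InP C A φ →
  HasAl C φ 0 → (∃ K r : ℝ, 0 < r ∧ ∀ a : E, ‖a‖ < r → ‖φ (C.κ.symm a) - 1‖ ≤ K * ‖a‖ ^ 2) ∧
  ∀ ε > 0, ∃ r > 0, ∀ a : E, ‖a‖ < r → |(φ (C.κ.symm a)).im| ≤ ε * ‖a‖ ^ 2

/-- the approximate identity -/
def S_LAP : Prop := ∀ (C : LieChart G E) (A : Set (G → ℂ)), IsAlg μ A → ∀ φ, InP C A φ →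
  Strict C φ → HasAl C φ 0 → ∃ g : ℕ → G → ℂ, (∀ n, g n ∈ A ∧ Cc (g n)) ∧
  (∃ c, ∀ n, ∫ x, ‖g n x‖ ∂μ ≤ c) ∧ (∀ n, ∫ x, g n x ∂μ = 1) ∧
  ∀ V ∈ 𝓝 (1 : G), Tendsto (fun n => ∫ x in Vᶜ, ‖g n x‖ ∂μ) atTop (𝓝 0)

end B

/-- charts of Lie groups -/
def S_LG : Prop := ∀ (G E : Type) [Group G] [TopologicalSpace G] [NormedAddCommGroup E]
  [NormedSpace ℝ E] [FiniteDimensional ℝ E] [ChartedSpace E G] [LieGroup 𝓘(ℝ, E) ∞ G],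
  Nonempty (LieChart G E)

end

end Pool.Agent.W660.FL
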