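import Pool.Agent.W660.FL.Stm

/-!
Part CC of project FL: continuous functions with compact support in `L²(G)`.
-/

namespace Pool.Agent.W660.FL

open MeasureTheory Complex Filter Topology
open scoped ComplexConjugate InnerProductSpace Manifold ContDiff

noncomputable section

namespace TCC

section Alg

variable {G : Type} [TopologicalSpace G]

lemma add {u v : G → ℂ} (hu : Cc u) (hv : Cc v) : Cc (u + v) := ⟨hu.1.add hv.1, hu.2.add hv.2⟩

lemma smul (c : ℂ) {u : G → ℂ} (hu : Cc u) : Cc (c • u) :=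
  ⟨hu.1.const_smul c, hu.2.smul_left (f := fun _ => c)⟩

variable [Group G] [IsTopologicalGroup G]

lemma left (x : G) {u : G → ℂ} (hu : Cc u) : Cc (fun y => u (x * y)) :=
  ⟨hu.1.comp (continuous_const_mul x), hu.2.comp_homeomorph (Homeomorph.mulLeft x)⟩

lemma right (x : G) {u : G → ℂ} (hu : Cc u) : Cc (fun y => u (y * x)) :=
  ⟨hu.1.comp (continuous_mul_const x), hu.2.comp_homeomorph (Homeomorph.mulRight x)⟩

end Alg

lemma cl_eq {G : Type} [MeasurableSpace G] {μ : Measure G} {u : G → ℂ} (hu : MemLp u 2 μ) :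
    cl μ u = hu.toLp u := by
  unfold cl
  rw [dif_pos hu]

lemma memLp {G : Type} [Group G] [TopologicalSpace G] [MeasurableSpace G] [BorelSpace G]
    {μ : Measure G} [μ.IsHaarMeasure] {u : G → ℂ} (hu : Cc u) : MemLp u 2 μ :=
  hu.1.memLp_of_hasCompactSupport hu.2

end TCC

section A

variable (G : Type) [Group G] [TopologicalSpace G] [IsTopologicalGroup G] [T2Space G]
  [LocallyCompactSpace G] [SecondCountableTopology G] [MeasurableSpace G] [BorelSpace G]
  (μ : Measure G) [μ.IsHaarMeasure]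

theorem t_CC : S_CC G μ := by
  refine ⟨?_, ?_, ?_, ?_, ?_, ?_, ?_⟩
  · intro u hu
    exact ⟨TCC.memLp hu, hu.1.integrable_of_hasCompactSupport hu.2⟩
  · intro u v hu hv
    refine ⟨TCC.add hu hv, ?_⟩
    rw [TCC.cl_eq (TCC.memLp (TCC.add hu hv)), TCC.cl_eq (TCC.memLp hu),
      TCC.cl_eq (TCC.memLp hv), ← MemLp.toLp_add]
  · intro c u hu
    refine ⟨TCC.smul c hu, ?_⟩
    rw [TCC.cl_eq (TCC.memLp (TCC.smul c hu)), TCC.cl_eq (TCC.memLp hu),
      ← MemLp.toLp_const_smul]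
  · intro u hu x
    refine ⟨TCC.left x hu, TCC.right x hu, ?_⟩
    rw [TCC.cl_eq (TCC.memLp (TCC.left x hu)), TCC.cl_eq (TCC.memLp hu)]
    rfl
  · intro u v hu hv
    rw [TCC.cl_eq (TCC.memLp hv), TCC.cl_eq (TCC.memLp hu), L2.inner_def]
    apply integral_congr_ae
    filter_upwards [(TCC.memLp hv (μ := μ)).coeFn_toLp, (TCC.memLp hu (μ := μ)).coeFn_toLp]
      with y hy1 hy2
    rw [hy1, hy2]
    simp [mul_comm]
  · intro u v hu hv h
    rw [TCC.cl_eq (TCC.memLp hu), TCC.cl_eq (TCC.memLp hv), MemLp.toLp_eq_toLp_iff] at h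
    exact (hu.1.ae_eq_iff_eq μ hv.1).1 h
  · intro ξ ε hε
    have hreg : μ.Regular := inferInstance
    obtain ⟨u, hu1, hu2, hu3, hu4⟩ := (Lp.memLp ξ).exists_hasCompactSupport_eLpNorm_sub_le
      (by norm_num) (ε := ENNReal.ofReal ε) (by simpa using hε)
    refine ⟨u, ⟨hu3, hu1⟩, ?_⟩
    rw [TCC.cl_eq hu4]
    have h1 : ξ - hu4.toLp u = ((Lp.memLp ξ).sub hu4).toLp ((ξ : G → ℂ) - u) := by
      rw [MemLp.toLp_sub (Lp.memLp ξ) hu4, Lp.toLp_coeFn]
    rw [h1, Lp.norm_toLp]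
    exact ENNReal.toReal_le_of_le_ofReal hε.le hu2

end A

end

end Pool.Agent.W660.FL
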