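import Pool.Agent.W660.FL.Stm

/-!
Part CHI of project FL: a one-parameter subgroup along which `A` is analytic is trivial.
-/

namespace Pool.Agent.W660.FL

open MeasureTheory Complex Filter Topology
open scoped ComplexConjugate InnerProductSpace Manifold ContDiff

noncomputable section

namespace TCHI

lemma ker_norm (a : ℂ) (ha : a.im < 0) (r : ℝ) :
    ‖((r : ℂ) - a)⁻¹ ^ 2‖ = Real.pi / (-a.im) * Po (-a.im) (r - a.re) := by
  have h1 : ‖(r : ℂ) - a‖ ^ 2 = (-a.im) ^ 2 + (r - a.re) ^ 2 := by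
    rw [Complex.sq_norm, Complex.normSq_apply]
    simp
    ring
  rw [norm_pow, norm_inv, inv_pow, h1]
  unfold Po
  generalize hse : -a.im = s
  have hs : 0 < s := by linarith
  have h2 : s ^ 2 + (r - a.re) ^ 2 ≠ 0 := by positivity
  have hp : Real.pi ≠ 0 := Real.pi_ne_zero
  have hs' : s ≠ 0 := hs.ne'
  field_simp

lemma ker_int (hB : S_BDY) {a : ℂ} (ha : a.im < 0) :
    Integrable (fun r : ℝ => ((r : ℂ) - a)⁻¹ ^ 2) := by
  have h1 := (hB.1 (-a.im) (by linarith)).2.1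
  have h2 : Integrable (fun r : ℝ => Po (-a.im) (r - a.re)) := h1.comp_sub_right a.re
  have h3 := h2.const_mul (Real.pi / (-a.im))
  refine h3.mono' ?_ (Eventually.of_forall fun r => ?_)
  · have : Measurable (fun r : ℝ => ((r : ℂ) - a)⁻¹ ^ 2) := by fun_prop
    exact this.aestronglyMeasurable
  · exact (ker_norm a ha r).le

lemma bdd_int {f g : ℝ → ℂ} (hf : Integrable f) (hg : Continuous g) {c : ℝ} (hc : ∀ t, ‖g t‖ ≤ c) :
    Integrable (fun t => f t * g t) :=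
  hf.mul_bdd hg.aestronglyMeasurable (Eventually.of_forall hc)

lemma po_int (hB : S_BDY) {s : ℝ} (hs : 0 < s) : Integrable (fun t : ℝ => ((Po s t : ℝ) : ℂ)) :=
  (hB.1 s hs).2.1.ofReal

end TCHI

section A

variable (G : Type) [Group G] [TopologicalSpace G] [IsTopologicalGroup G] [T2Space G]
  [LocallyCompactSpace G] [SecondCountableTopology G] [MeasurableSpace G] [BorelSpace G]
  (μ : Measure G) [μ.IsHaarMeasure]

open TCHI in
theorem t_CHI : S_UB G μ → S_CC G μ → S_DSA G μ → S_SUPD G μ → S_IDENT G μ → S_BDY → S_MULT →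
    S_STRC → S_CHI G μ := by
  intro hUB hCC hDSA hSUPD hIDENT hBDY hMULT hSTRC A hA γ hγ hAn
  have hγ0 : γ 0 = 1 := by
    have h1 := hγ.2 0 0
    rw [add_zero] at h1
    exact (left_eq_mul.1 h1)
  -- continuity and boundedness along the subgroup
  have hcont : ∀ u ∈ A, Continuous fun r => u (γ r) := fun u hu =>
    (hDSA A hA u hu).1.comp hγ.1
  have hbdd : ∀ u ∈ A, ∃ c, ∀ r, ‖u (γ r)‖ ≤ c := fun u hu => by
    obtain ⟨c, hc⟩ := (hDSA A hA u hu).2.1
    exact ⟨c, fun r => hc _⟩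
  -- analyticity
  have hana : ∀ u ∈ A, Ana fun r => u (γ r) := by
    intro u hu a ha
    have hk := ker_int hBDY ha
    set K : ℝ := ∫ r : ℝ, ‖((r : ℂ) - a)⁻¹ ^ 2‖ with hK
    have hK0 : 0 ≤ K := integral_nonneg fun r => norm_nonneg _
    by_contra hne
    have hpos : 0 < ‖∫ r : ℝ, u (γ r) * ((r : ℂ) - a)⁻¹ ^ 2‖ := norm_pos_iff.2 hne
    set D := ‖∫ r : ℝ, u (γ r) * ((r : ℂ) - a)⁻¹ ^ 2‖ with hD
    obtain ⟨v, hv, hvc, huv, hva⟩ := hAn u hu (D / (2 * (K + 1))) (by positivity)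
    have hv0 := hva 1 a ha
    simp only [mul_one] at hv0
    obtain ⟨c1, hc1⟩ := hbdd u hu
    obtain ⟨c2, hc2⟩ := hbdd v hv
    have i1 : Integrable (fun r : ℝ => u (γ r) * ((r : ℂ) - a)⁻¹ ^ 2) := by
      have := bdd_int hk (hcont u hu) hc1
      exact this.congr (Eventually.of_forall fun r => mul_comm _ _)
    have i2 : Integrable (fun r : ℝ => v (γ r) * ((r : ℂ) - a)⁻¹ ^ 2) := by
      have := bdd_int hk (hcont v hv) hc2
      exact this.congr (Eventually.of_forall fun r => mul_comm _ _)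
    have h1 : ∫ r : ℝ, u (γ r) * ((r : ℂ) - a)⁻¹ ^ 2 =
        ∫ r : ℝ, (u (γ r) * ((r : ℂ) - a)⁻¹ ^ 2 - v (γ r) * ((r : ℂ) - a)⁻¹ ^ 2) := by
      rw [integral_sub i1 i2, hv0, sub_zero]
    have hDe : D = ‖∫ r : ℝ, (u (γ r) * ((r : ℂ) - a)⁻¹ ^ 2 -
        v (γ r) * ((r : ℂ) - a)⁻¹ ^ 2)‖ := congrArg norm h1
    have h2 : D ≤ ∫ r : ℝ, D / (2 * (K + 1)) * ‖((r : ℂ) - a)⁻¹ ^ 2‖ := by
      calc D = _ := hDe
        _ ≤ ∫ r : ℝ, ‖u (γ r) * ((r : ℂ) - a)⁻¹ ^ 2 - v (γ r) * ((r : ℂ) - a)⁻¹ ^ 2‖ :=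
            norm_integral_le_integral_norm _
        _ ≤ _ := by
            refine integral_mono_of_nonneg (Eventually.of_forall fun r => norm_nonneg _)
              (hk.norm.const_mul _) (Eventually.of_forall fun r => ?_)
            show ‖u (γ r) * ((r : ℂ) - a)⁻¹ ^ 2 - v (γ r) * ((r : ℂ) - a)⁻¹ ^ 2‖ ≤ _
            rw [← sub_mul, norm_mul]
            exact mul_le_mul_of_nonneg_right (huv _) (norm_nonneg _)
    rw [integral_const_mul, ← hK] at h2
    have h3 : D / (2 * (K + 1)) * K ≤ D / 2 := by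
      rw [div_mul_eq_mul_div, div_le_div_iff₀ (by positivity) (by norm_num)]
      nlinarith
    linarith
  -- the characters
  set χ : ℝ → (G → ℂ) → ℂ := fun s u => ∫ t : ℝ, ((Po s t : ℝ) : ℂ) * u (γ t) with hχ
  obtain ⟨u0, hu0, hu1⟩ := hA.nz 1
  have htend := hBDY.2 (fun r => u0 (γ r)) (hcont u0 hu0) (hbdd u0 hu0) 0
  simp only [sub_zero, hγ0] at htend
  obtain ⟨s, hs1, hs⟩ := ((htend.eventually_ne hu1).and self_mem_nhdsWithin).exists
  have hs : 0 < s := hs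
  have hpi := po_int hBDY hs
  have hint : ∀ u ∈ A, Integrable (fun t : ℝ => ((Po s t : ℝ) : ℂ) * u (γ t)) := fun u hu => by
    obtain ⟨c, hc⟩ := hbdd u hu
    exact bdd_int hpi (hcont u hu) hc
  obtain ⟨g, hg⟩ := hA.spec (χ s)
    (by
      intro u hu v hv
      show ∫ t : ℝ, ((Po s t : ℝ) : ℂ) * (u (γ t) + v (γ t)) = _
      rw [hχ]
      simp only [mul_add]
      exact integral_add (hint u hu) (hint v hv))
    (by
      intro c u hu
      show ∫ t : ℝ, ((Po s t : ℝ) : ℂ) * (c * u (γ t)) = _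
      rw [hχ]
      rw [← integral_const_mul]
      exact integral_congr_ae (Eventually.of_forall fun t => by
        show ((Po s t : ℝ) : ℂ) * (c * u (γ t)) = c * (((Po s t : ℝ) : ℂ) * u (γ t))
        ring))
    (by
      intro u hu v hv
      exact hMULT _ _ (hcont u hu) (hcont v hv) (hbdd u hu) (hbdd v hv) (hana u hu) (hana v hv)
        s hs)
    ⟨u0, hu0, hs1⟩
  have hg2 : ∀ u ∈ A, ∀ y, ∫ t : ℝ, ((Po s t : ℝ) : ℂ) * u (γ t * y) = u (g * y) :=
    fun u hu y => hg _ (hA.right y u hu)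
  -- compactly supported functions
  have hcs : ∀ u ∈ A, Cc u → ∀ t, u (γ t) = u 1 := by
    intro u hu huc t
    have h1 := (hIDENT u huc γ hγ (fun t => ((Po s t : ℝ) : ℂ)) hpi).2.2 g (hg2 u hu)
    have h2 := hSTRC (HH μ) (fun t => U μ (γ t) (cl μ u)) (U μ g (cl μ u)) ‖cl μ u‖ (Po s)
      ((hUB.2.2.1 (cl μ u)).comp hγ.1) (fun t => LinearIsometry.norm_map _ _)
      (LinearIsometry.norm_map _ _) (hBDY.1 s hs).1 (hBDY.1 s hs).2.2.2 (hBDY.1 s hs).2.1
      (hBDY.1 s hs).2.2.1 h1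
    have h3 : U μ (γ t) (cl μ u) = cl μ u := by
      have h4 : U μ (γ t) (cl μ u) = U μ g (cl μ u) := h2 t
      have h5 : U μ (γ 0) (cl μ u) = U μ g (cl μ u) := h2 0
      rw [h4, ← h5, hγ0]
      exact hUB.2.1 _
    obtain ⟨h6, -, h7⟩ := hCC.2.2.2.1 u huc (γ t)
    rw [h7] at h3
    have h8 := hCC.2.2.2.2.2.1 _ _ h6 huc h3
    have h9 := congrFun h8 1
    simpa using h9
  have hall : ∀ u ∈ A, ∀ t, u (γ t) = u 1 := by
    intro u hu t
    by_contra hne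
    have hpos : 0 < ‖u (γ t) - u 1‖ := norm_pos_iff.2 (sub_ne_zero.2 hne)
    obtain ⟨v, hv, hvc, huv⟩ := hSUPD A hA u hu (‖u (γ t) - u 1‖ / 3) (by positivity)
    have h1 := hcs v hv hvc t
    have h2 : u (γ t) - u 1 = (u (γ t) - v (γ t)) - (u 1 - v 1) := by rw [h1]; ring
    have h3 : ‖u (γ t) - u 1‖ ≤ ‖u (γ t) - u 1‖ / 3 + ‖u (γ t) - u 1‖ / 3 := by
      calc ‖u (γ t) - u 1‖ = ‖(u (γ t) - v (γ t)) - (u 1 - v 1)‖ := by rw [← h2]
        _ ≤ ‖u (γ t) - v (γ t)‖ + ‖u 1 - v 1‖ := norm_sub_le _ _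
        _ ≤ _ := add_le_add (huv _) (huv _)
    linarith
  intro t
  by_contra hne
  obtain ⟨u, hu, h1⟩ := hA.sep (γ t) 1 hne
  exact h1 (hall u hu t)

end A

end

end Pool.Agent.W660.FL
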