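import Pool.Agent.W660.FL.Stm

/-! Convolutions in `L²` (project FL, part CONVL). -/

namespace Pool.Agent.W660.FL

open MeasureTheory Complex Filter Topology
open scoped ComplexConjugate InnerProductSpace Manifold ContDiff

noncomputable section

variable (G : Type) [Group G] [TopologicalSpace G] [IsTopologicalGroup G] [T2Space G]
  [LocallyCompactSpace G] [SecondCountableTopology G] [MeasurableSpace G] [BorelSpace G]
  (μ : Measure G) [μ.IsHaarMeasure]

theorem t_CONVL : S_UB G μ → S_CC G μ → S_CONVL G μ := by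
  intro hUB hCC f w hf hw
  obtain ⟨hU1, hU2, hU3, hU4⟩ := hUB
  obtain ⟨hC1, hC2, hC3, hC4, hC5, hC6, hC7⟩ := hCC
  -- continuity with compact support of the convolution
  have hcc : Cc (conv μ f w) := by
    constructor
    · have h1 : conv μ f w = fun x => ∫ z in tsupport f, f z * w (z⁻¹ * x) ∂μ := by
        funext x
        unfold conv
        rw [setIntegral_eq_integral_of_forall_compl_eq_zero]
        intro z hz
        rw [image_eq_zero_of_notMem_tsupport hz, zero_mul]
      rw [h1]
      refine continuous_parametric_integral_of_continuous (f := fun x z => f z * w (z⁻¹ * x)) ?_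
        hf.2
      exact (hf.1.comp continuous_snd).mul
        (hw.1.comp ((continuous_inv.comp continuous_snd).mul continuous_fst))
    · refine HasCompactSupport.intro (hf.2.isCompact.mul hw.2.isCompact) ?_
      intro x hx
      unfold conv
      rw [← integral_zero G ℂ (μ := μ)]
      congr 1
      funext z
      by_cases hz : z ∈ tsupport f
      · have h2 : z⁻¹ * x ∉ tsupport w := by
          intro h2
          exact hx ⟨z, hz, z⁻¹ * x, h2, by simp⟩
        rw [image_eq_zero_of_notMem_tsupport h2, mul_zero]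
      · rw [image_eq_zero_of_notMem_tsupport hz, zero_mul]
  have hint : Integrable (fun z => f z • U μ z⁻¹ (cl μ w)) μ := by
    refine Continuous.integrable_of_hasCompactSupport ?_ ?_
    · exact hf.1.smul ((hU3 (cl μ w)).comp continuous_inv)
    · exact HasCompactSupport.smul_right (f := f) (f' := fun z => U μ z⁻¹ (cl μ w)) hf.2
  refine ⟨hcc, hint, ?_⟩
  have key : ∀ v : G → ℂ, Cc v →
      ⟪cl μ v, cl μ (conv μ f w)⟫_ℂ = ⟪cl μ v, ∫ z, f z • U μ z⁻¹ (cl μ w) ∂μ⟫_ℂ := by
    intro v hv
    rw [hC5 _ _ hcc hv, ← integral_inner hint]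
    have e1 : (fun z => ⟪cl μ v, f z • U μ z⁻¹ (cl μ w)⟫_ℂ) =
        fun z => ∫ y, conj (v y) * (f z * w (z⁻¹ * y)) ∂μ := by
      funext z
      rw [inner_smul_right, (hC4 w hw z⁻¹).2.2, hC5 _ _ (hC4 w hw z⁻¹).1 hv, ← integral_const_mul]
      congr 1
      funext y
      ring
    have e2 : (fun y => conj (v y) * conv μ f w y) =
        fun y => ∫ z, conj (v y) * (f z * w (z⁻¹ * y)) ∂μ := by
      funext y
      unfold conv
      rw [← integral_const_mul]
    rw [e1, e2]
    refine integral_integral_swap_of_hasCompactSupport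
      (f := fun y z => conj (v y) * (f z * w (z⁻¹ * y))) ?_ ?_
    · exact (continuous_conj.comp (hv.1.comp continuous_fst)).mul
        ((hf.1.comp continuous_snd).mul
          (hw.1.comp ((continuous_inv.comp continuous_snd).mul continuous_fst)))
    · refine HasCompactSupport.intro (hv.2.isCompact.prod hf.2.isCompact) ?_
      rintro ⟨y, z⟩ hyz
      simp only [Function.uncurry_apply_pair]
      by_cases hy : y ∈ tsupport v
      · have hz : z ∉ tsupport f := fun hz => hyz ⟨hy, hz⟩
        rw [image_eq_zero_of_notMem_tsupport hz]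
        simp
      · rw [image_eq_zero_of_notMem_tsupport hy]
        simp
  rw [← sub_eq_zero]
  set d := cl μ (conv μ f w) - ∫ z, f z • U μ z⁻¹ (cl μ w) ∂μ with hd
  have h0 : ∀ v : G → ℂ, Cc v → ⟪cl μ v, d⟫_ℂ = 0 := by
    intro v hv
    rw [hd, inner_sub_right, key v hv, sub_self]
  by_contra hne
  have hpos : 0 < ‖d‖ := norm_pos_iff.2 hne
  obtain ⟨u, hu, hdu⟩ := hC7 d (‖d‖ / 2) (by positivity)
  have h3 : ⟪d, d⟫_ℂ = ⟪d - cl μ u, d⟫_ℂ := by
    rw [inner_sub_left d (cl μ u) d, h0 u hu, sub_zero]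
  have h4 : ‖d‖ ^ 2 ≤ ‖d‖ / 2 * ‖d‖ := by
    calc ‖d‖ ^ 2 = ‖⟪d, d⟫_ℂ‖ := by
          rw [inner_self_eq_norm_sq_to_K]
          simp
      _ = ‖⟪d - cl μ u, d⟫_ℂ‖ := by rw [h3]
      _ ≤ ‖d - cl μ u‖ * ‖d‖ := norm_inner_le_norm _ _
      _ ≤ _ := by gcongr
  nlinarith

end

end Pool.Agent.W660.FL
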