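import Pool.Agent.W660.FL.Stm

namespace Pool.Agent.W660.FL

open MeasureTheory Complex Filter Topology
open scoped ComplexConjugate InnerProductSpace Manifold ContDiff

noncomputable section

section A

variable (G : Type) [Group G] [TopologicalSpace G] [IsTopologicalGroup G] [T2Space G]
  [LocallyCompactSpace G] [SecondCountableTopology G] [MeasurableSpace G] [BorelSpace G]
  (μ : Measure G) [μ.IsHaarMeasure]

theorem TDSA.infa_mono {c c' : ℝ} {u : G → ℂ} (h : InFA μ c u) (hc : c ≤ c') : InFA μ c' u := by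
  obtain ⟨ξ, η, h1, h2, h3, h4⟩ := h
  exact ⟨ξ, η, h1, h2, h3.trans hc, h4⟩

theorem TDSA.inner_int_left {f : G → HH μ} (hf : Integrable f μ) (v : HH μ) :
    ⟪∫ z, f z ∂μ, v⟫_ℂ = ∫ z, ⟪f z, v⟫_ℂ ∂μ := by
  have h1 : ⟪∫ z, f z ∂μ, v⟫_ℂ = conj ⟪v, ∫ z, f z ∂μ⟫_ℂ := (inner_conj_symm _ _).symm
  rw [h1, ← integral_inner hf v, ← integral_conj]
  apply integral_congr_ae
  exact Eventually.of_forall fun z => inner_conj_symm _ _

theorem t_DSA : S_UB G μ → S_CC G μ → S_FAC G μ → S_SA G μ → S_INTA G μ → S_DSA G μ := by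
  intro hUB hCC hFAC _hSA hINT A hA u hu
  obtain ⟨u1, -, u3, u4⟩ := hUB
  obtain ⟨c1, c2, c3, c4, c5, c6, c7⟩ := hCC
  obtain ⟨f1, f2⟩ := hFAC
  obtain ⟨c, hc⟩ := hA.sub hu
  obtain ⟨ξ0, η0, -, hux⟩ := f2 c u hc
  have hcont : Continuous u := by
    have : u = fun x => ⟪η0, U μ x ξ0⟫_ℂ := by
      funext x; exact hux x
    rw [this]
    exact continuous_const.inner (u3 ξ0)
  refine ⟨hcont, ⟨‖η0‖ * ‖ξ0‖, fun x => ?_⟩, ?_⟩
  · rw [hux x]
    unfold mc
    refine (norm_inner_le_norm _ _).trans ?_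
    rw [LinearIsometry.norm_map]
  intro hcs
  have hCu : Cc u := ⟨hcont, hcs⟩
  have key : ∀ w : G → ℂ, Cc w → mc μ (cl μ u) (cl μ w) ∈ A := by
    intro w hw
    let f : G → HH μ := fun y => w y • U μ y⁻¹ η0
    have hfc : Continuous f := by
      have h2 : Continuous fun y : G => U μ y⁻¹ η0 := (u3 η0).comp continuous_inv
      exact hw.1.smul h2
    have hfs : HasCompactSupport f := by
      exact hw.2.smul_right
    have hfi : Integrable f μ := hfc.integrable_of_hasCompactSupport hfs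
    have hval : ∀ y x : G, ⟪f y, U μ x ξ0⟫_ℂ = conj (w y) * u (x * y) := by
      intro y x
      show ⟪w y • U μ y⁻¹ η0, U μ x ξ0⟫_ℂ = _
      rw [inner_smul_left, ← u4 y (U μ x ξ0) η0, ← u1 x y ξ0, hux (x * y)]
      rfl
    have hfA : ∀ z, mc μ ξ0 (f z) ∈ A := by
      intro z
      have : mc μ ξ0 (f z) = conj (w z) • (fun x => u (x * z)) := by
        funext x
        show ⟪f z, U μ x ξ0⟫_ℂ = conj (w z) * u (x * z)
        exact hval z x
      rw [this]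
      exact hA.smul _ _ (hA.right z u hu)
    have h3 := (hINT A hA).2 ξ0 f hfi hfA
    have h4 : mc μ (cl μ u) (cl μ w) = mc μ ξ0 (∫ z, f z ∂μ) := by
      funext x
      show ⟪cl μ w, U μ x (cl μ u)⟫_ℂ = ⟪∫ z, f z ∂μ, U μ x ξ0⟫_ℂ
      rw [TDSA.inner_int_left G μ hfi, (c4 u hCu x).2.2, c5 _ _ (c4 u hCu x).1 hw]
      apply integral_congr_ae
      exact Eventually.of_forall fun y => (hval y x).symm
    rw [h4]
    exact h3
  intro η
  apply hA.closed
  · exact ⟨_, f1 (cl μ u) η⟩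
  · intro ε hε
    obtain ⟨w, hw, hd⟩ := c7 η (ε / (‖cl μ u‖ + 1)) (by positivity)
    refine ⟨mc μ (cl μ u) (cl μ w), key w hw, ?_⟩
    have h5 : mc μ (cl μ u) η - mc μ (cl μ u) (cl μ w) = mc μ (cl μ u) (η - cl μ w) := by
      funext x
      show ⟪η, U μ x (cl μ u)⟫_ℂ - ⟪cl μ w, U μ x (cl μ u)⟫_ℂ = ⟪η - cl μ w, U μ x (cl μ u)⟫_ℂ
      rw [inner_sub_left]
    rw [h5]
    apply TDSA.infa_mono G μ (f1 (cl μ u) (η - cl μ w))
    have h6 : 0 ≤ ‖cl μ u‖ := norm_nonneg _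
    calc ‖cl μ u‖ * ‖η - cl μ w‖ ≤ (‖cl μ u‖ + 1) * (ε / (‖cl μ u‖ + 1)) := by
          apply mul_le_mul (by linarith) hd (norm_nonneg _) (by linarith)
      _ = ε := by field_simp

end A

end

end Pool.Agent.W660.FL
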