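import Pool.Agent.W660.FL.Stm

namespace Pool.Agent.W660.FL

open MeasureTheory Complex Filter Topology
open scoped ComplexConjugate InnerProductSpace Manifold ContDiff

noncomputable section

namespace TEXT

variable {G : Type} [Group G] [TopologicalSpace G]

/-- the dyadic power -/
def FF (g : ℝ → G) (k : ℕ) (t : ℝ) : G := g (t / 2 ^ k) ^ (2 ^ k)

theorem FF_succ {g : ℝ → G} {ε : ℝ} (hε : 0 < ε)
    (hg : ∀ s t, |s| < ε → |t| < ε → |s + t| < ε → g (s + t) = g s * g t) (k : ℕ) (t : ℝ)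
    (h : |t| < 2 ^ k * ε) : FF g (k + 1) t = FF g k t := by
  unfold FF
  have h2 : (0 : ℝ) < 2 ^ k := by positivity
  have e1 : |t / 2 ^ k| < ε := by
    rw [abs_div, abs_of_pos h2, div_lt_iff₀ h2]
    linarith [mul_comm ((2 : ℝ) ^ k) ε]
  have e2 : t / 2 ^ (k + 1) + t / 2 ^ (k + 1) = t / 2 ^ k := by
    rw [pow_succ]
    field_simp
    ring
  have e3 : |t / 2 ^ (k + 1)| < ε := by
    have : t / 2 ^ (k + 1) = (t / 2 ^ k) / 2 := by
      rw [pow_succ]
      field_simp
    rw [this, abs_div, abs_two]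
    linarith [abs_nonneg (t / 2 ^ k)]
  have e4 := hg (t / 2 ^ (k + 1)) (t / 2 ^ (k + 1)) e3 e3 (by rw [e2]; exact e1)
  rw [e2] at e4
  rw [e4, ← pow_two, ← pow_mul]
  congr 1
  rw [pow_succ, Nat.mul_comm]

theorem FF_le {g : ℝ → G} {ε : ℝ} (hε : 0 < ε)
    (hg : ∀ s t, |s| < ε → |t| < ε → |s + t| < ε → g (s + t) = g s * g t) (k j : ℕ) (t : ℝ)
    (h : |t| < 2 ^ k * ε) : FF g (k + j) t = FF g k t := by
  induction j with
  | zero => rfl
  | succ j ih =>
    rw [← Nat.add_assoc, FF_succ hε hg _ _ _, ih]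
    refine lt_of_lt_of_le h ?_
    apply mul_le_mul_of_nonneg_right _ hε.le
    exact pow_le_pow_right₀ (by norm_num) (Nat.le_add_right k j)

theorem ex_k {ε : ℝ} (hε : 0 < ε) (t : ℝ) : ∃ k : ℕ, |t| < 2 ^ k * ε := by
  obtain ⟨k, hk⟩ := pow_unbounded_of_one_lt (|t| / ε) (by norm_num : (1 : ℝ) < 2)
  exact ⟨k, by rwa [div_lt_iff₀ hε] at hk⟩

end TEXT

open TEXT

theorem t_EXT (G : Type) [Group G] [TopologicalSpace G] [IsTopologicalGroup G] : S_EXT G := by
  classical
  intro g ε hε h0 hc hg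
  let γ : ℝ → G := fun t => FF g (Nat.find (ex_k hε t)) t
  have hγ : ∀ (k : ℕ) (t : ℝ), |t| < 2 ^ k * ε → γ t = FF g k t := by
    intro k t h
    have h1 := Nat.find_spec (ex_k hε t)
    have h2 : Nat.find (ex_k hε t) ≤ k := Nat.find_min' _ h
    obtain ⟨j, hj⟩ := Nat.exists_eq_add_of_le h2
    show FF g (Nat.find (ex_k hε t)) t = FF g k t
    conv_rhs => rw [hj]
    exact (FF_le hε hg _ j t h1).symm
  refine ⟨γ, ⟨?_, ?_⟩, ?_⟩
  · rw [continuous_iff_continuousAt]
    intro t0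
    obtain ⟨k, hk⟩ := ex_k hε t0
    have h2 : (0 : ℝ) < 2 ^ k := by positivity
    have hev : γ =ᶠ[𝓝 t0] FF g k := by
      have : ∀ᶠ t in 𝓝 t0, |t| < 2 ^ k * ε := continuous_abs.continuousAt.eventually_lt continuousAt_const hk
      filter_upwards [this] with t ht
      exact hγ k t ht
    have hcont : ContinuousAt (FF g k) t0 := by
      have h3 : ContinuousAt g (t0 / 2 ^ k) := by
        apply hc.continuousAt
        apply Ioo_mem_nhds
        · rw [lt_div_iff₀ h2]
          have := (abs_lt.1 hk).1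
          linarith [mul_comm ((2 : ℝ) ^ k) ε]
        · rw [div_lt_iff₀ h2]
          have := (abs_lt.1 hk).2
          linarith [mul_comm ((2 : ℝ) ^ k) ε]
      have h4 : ContinuousAt (fun t : ℝ => t / 2 ^ k) t0 := (continuous_id.div_const _).continuousAt
      have h5 : ContinuousAt (fun t : ℝ => g (t / 2 ^ k)) t0 := ContinuousAt.comp (f := fun t : ℝ => t / 2 ^ k) h3 h4
      exact h5.pow (2 ^ k)
    exact hcont.congr hev.symm
  · intro s t
    obtain ⟨k, hk⟩ := ex_k hε (|s| + |t|)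
    rw [abs_of_nonneg (by positivity)] at hk
    have hs : |s| < 2 ^ k * ε := by linarith [abs_nonneg t]
    have ht : |t| < 2 ^ k * ε := by linarith [abs_nonneg s]
    have hst : |s + t| < 2 ^ k * ε := lt_of_le_of_lt (abs_add_le s t) hk
    rw [hγ k s hs, hγ k t ht, hγ k (s + t) hst]
    unfold FF
    have h2 : (0 : ℝ) < 2 ^ k := by positivity
    have hd : ∀ x : ℝ, |x| < 2 ^ k * ε → |x / 2 ^ k| < ε := by
      intro x hx
      rw [abs_div, abs_of_pos h2, div_lt_iff₀ h2]
      linarith [mul_comm ((2 : ℝ) ^ k) ε]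
    have e1 : g ((s + t) / 2 ^ k) = g (s / 2 ^ k) * g (t / 2 ^ k) := by
      rw [add_div]
      exact hg _ _ (hd s hs) (hd t ht) (by rw [← add_div]; exact hd _ hst)
    have e2 : g ((s + t) / 2 ^ k) = g (t / 2 ^ k) * g (s / 2 ^ k) := by
      rw [add_comm s t, add_div]
      exact hg _ _ (hd t ht) (hd s hs) (by rw [← add_div, add_comm t s]; exact hd _ hst)
    have hcomm : Commute (g (s / 2 ^ k)) (g (t / 2 ^ k)) := e1.symm.trans e2
    rw [e1, hcomm.mul_pow]
  · have : ∀ᶠ t in 𝓝 (0 : ℝ), |t| < ε := by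
      have h := continuous_abs.continuousAt.eventually_lt (x₀ := (0 : ℝ)) (g := fun _ => ε) continuousAt_const (by simpa using hε)
      exact h
    filter_upwards [this] with t ht
    rw [hγ 0 t (by simpa using ht)]
    unfold FF
    simp

end

end Pool.Agent.W660.FL
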