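import Pool.Agent.W660.FL.Stm

namespace Pool.Agent.W660.FL

open MeasureTheory Complex Filter Topology
open scoped ComplexConjugate InnerProductSpace Manifold ContDiff

noncomputable section

variable (G : Type) [Group G] [TopologicalSpace G] [IsTopologicalGroup G] [T2Space G]
  [LocallyCompactSpace G] [SecondCountableTopology G] [MeasurableSpace G] [BorelSpace G]
  (μ : Measure G) [μ.IsHaarMeasure]

theorem t_FIN : S_UB G μ → S_CC G μ → S_SA G μ → S_DSA G μ → S_CONVA G μ → S_CONVL G μ →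
    S_FIN G μ := by
  intro hUB hCC hSA hDSA hCA hCL A hA g hg hbd hint hconc
  obtain ⟨c, hc⟩ := hbd
  obtain ⟨_, _, _, hclosed, _, hfin⟩ := hSA A hA
  apply hfin
  intro ζ
  apply hclosed ζ
  intro ε hε
  obtain ⟨f, hf, hfe⟩ := hCC.2.2.2.2.2.2 ζ (ε / 2) (half_pos hε)
  -- the difference function
  have hFc : Continuous fun z : G => U μ z⁻¹ (cl μ f) - cl μ f :=
    ((hUB.2.2.1 (cl μ f)).comp continuous_inv).sub continuous_const
  have hc0 : 0 ≤ c := le_trans (integral_nonneg fun _ => norm_nonneg _) (hc 0)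
  have hδ : 0 < ε / (4 * (c + 1)) := by positivity
  obtain ⟨V, hVdef⟩ : ∃ V : Set G, V = {z | ‖U μ z⁻¹ (cl μ f) - cl μ f‖ < ε / (4 * (c + 1))} :=
    ⟨_, rfl⟩
  have hVo : IsOpen V := by
    rw [hVdef]
    exact isOpen_lt hFc.norm continuous_const
  have hV1 : V ∈ 𝓝 (1 : G) := by
    apply hVo.mem_nhds
    rw [hVdef]
    simp only [Set.mem_ofPred_eq, inv_one, hUB.2.1, sub_self, norm_zero]
    exact hδ
  have hη : 0 < ε / (4 * (2 * ‖cl μ f‖ + 1)) := by positivity
  obtain ⟨n, hn⟩ := ((hconc V hV1).eventually (gt_mem_nhds hη)).exists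
  have hgi : Integrable (g n) μ := (hCC.1 (g n) (hg n).2).2
  obtain ⟨hCc, hI, hcl⟩ := hCL (g n) f (hg n).2 hf
  have h1 : cl μ (conv μ (g n) f) - cl μ f
      = ∫ z, g n z • (U μ z⁻¹ (cl μ f) - cl μ f) ∂μ := by
    have h2 : (∫ z, g n z • cl μ f ∂μ) = cl μ f := by
      rw [integral_smul_const, hint n, one_smul]
    have h3 : Integrable (fun z => g n z • cl μ f) μ := hgi.smul_const _
    simp only [smul_sub]
    rw [integral_sub hI h3, h2, hcl]
  have hgn : Integrable (fun z => ‖g n z‖) μ := hgi.norm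
  have h4 : ‖cl μ (conv μ (g n) f) - cl μ f‖ ≤ ε / 2 := by
    rw [h1]
    have hVm : MeasurableSet Vᶜ := hVo.measurableSet.compl
    calc ‖∫ z, g n z • (U μ z⁻¹ (cl μ f) - cl μ f) ∂μ‖
        ≤ ∫ z, (ε / (4 * (c + 1)) * ‖g n z‖ +
            Vᶜ.indicator (fun z => 2 * ‖cl μ f‖ * ‖g n z‖) z) ∂μ := by
          apply norm_integral_le_of_norm_le
          · exact (hgn.const_mul _).add ((hgn.const_mul _).indicator hVm)
          · refine Eventually.of_forall fun z => ?_
            rw [norm_smul]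
            by_cases hz : z ∈ V
            · have hz' : z ∉ Vᶜ := fun h => h hz
              rw [Set.indicator_of_notMem hz', add_zero, mul_comm]
              have : ‖U μ z⁻¹ (cl μ f) - cl μ f‖ < ε / (4 * (c + 1)) := by
                rw [hVdef] at hz; exact hz
              exact mul_le_mul_of_nonneg_right this.le (norm_nonneg _)
            · have hz' : z ∈ Vᶜ := hz
              rw [Set.indicator_of_mem hz']
              have h5 : ‖U μ z⁻¹ (cl μ f) - cl μ f‖ ≤ 2 * ‖cl μ f‖ := by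
                refine (norm_sub_le _ _).trans ?_
                rw [(U μ z⁻¹).norm_map]
                linarith
              have h6 : ‖g n z‖ * ‖U μ z⁻¹ (cl μ f) - cl μ f‖ ≤ 2 * ‖cl μ f‖ * ‖g n z‖ := by
                rw [mul_comm]
                exact mul_le_mul_of_nonneg_right h5 (norm_nonneg _)
              have h7 : 0 ≤ ε / (4 * (c + 1)) * ‖g n z‖ := by positivity
              linarith
      _ = ε / (4 * (c + 1)) * (∫ z, ‖g n z‖ ∂μ) +
            2 * ‖cl μ f‖ * ∫ z in Vᶜ, ‖g n z‖ ∂μ := by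
          rw [integral_add (hgn.const_mul _) ((hgn.const_mul _).indicator hVm),
            integral_const_mul, integral_indicator hVm, integral_const_mul]
      _ ≤ ε / (4 * (c + 1)) * c +
            2 * ‖cl μ f‖ * (ε / (4 * (2 * ‖cl μ f‖ + 1))) := by
          gcongr
          exact hc n
      _ ≤ ε / 4 + ε / 4 := by
          have e1 : ε / (4 * (c + 1)) * c ≤ ε / 4 := by
            rw [div_mul_eq_mul_div, div_le_div_iff₀ (by positivity) (by norm_num)]
            nlinarith
          have e2 : 2 * ‖cl μ f‖ * (ε / (4 * (2 * ‖cl μ f‖ + 1))) ≤ ε / 4 := by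
            have hp : 0 ≤ ‖cl μ f‖ := norm_nonneg _
            rw [mul_div_assoc', div_le_div_iff₀ (by positivity) (by norm_num)]
            nlinarith
          linarith
      _ = ε / 2 := by ring
  refine ⟨cl μ (conv μ (g n) f), ?_, ?_⟩
  · exact (hDSA A hA _ ((hCA (g n) f (hg n).2 hf A hA).2 (hg n).1)).2.2 hCc.2
  · calc ‖ζ - cl μ (conv μ (g n) f)‖
        = ‖(ζ - cl μ f) - (cl μ (conv μ (g n) f) - cl μ f)‖ := by congr 1; abel
      _ ≤ ‖ζ - cl μ f‖ + ‖cl μ (conv μ (g n) f) - cl μ f‖ := norm_sub_le _ _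
      _ ≤ ε / 2 + ε / 2 := add_le_add hfe h4
      _ = ε := by ring

end

end Pool.Agent.W660.FL
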