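import Pool.Agent.W660.FL.Stm

/-!
Project FL, part IDENT: averages along a one-parameter subgroup.
-/

namespace Pool.Agent.W660.FL

open MeasureTheory Complex Filter Topology
open scoped ComplexConjugate InnerProductSpace Manifold ContDiff

noncomputable section

section A

variable (G : Type) [Group G] [TopologicalSpace G] [IsTopologicalGroup G] [T2Space G]
  [LocallyCompactSpace G] [SecondCountableTopology G] [MeasurableSpace G] [BorelSpace G]
  (μ : Measure G) [μ.IsHaarMeasure]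

namespace TIDENT

variable {G} {μ}

theorem bound {u : G → ℂ} (hu : Cc u) : ∃ K : ℝ, 0 ≤ K ∧ ∀ x, ‖u x‖ ≤ K := by
  obtain ⟨K, hK⟩ := hu.2.exists_bound_of_continuous hu.1
  exact ⟨max K 0, le_max_right _ _, fun x => (hK x).trans (le_max_left _ _)⟩

/-- the function `h y = ∫ f r * u (γ r * y) dr` is continuous -/
theorem hcont {u : G → ℂ} (hu : Cc u) {γ : ℝ → G} (hγ : Continuous γ) {f : ℝ → ℂ}
    (hf : Integrable f) : Continuous fun y : G => ∫ r : ℝ, f r * u (γ r * y) := by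
  obtain ⟨K, hK0, hK⟩ := bound hu
  refine continuous_of_dominated (bound := fun r => ‖f r‖ * K) ?_ ?_ (hf.norm.mul_const K) ?_
  · intro y
    have h1 : Continuous fun r : ℝ => u (γ r * y) := hu.1.comp (hγ.mul continuous_const)
    exact hf.1.mul h1.aestronglyMeasurable
  · intro y
    filter_upwards with r
    rw [norm_mul]
    exact mul_le_mul_of_nonneg_left (hK _) (norm_nonneg _)
  · filter_upwards with r
    exact continuous_const.mul (hu.1.comp (continuous_const.mul continuous_id))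

/-- Fubini -/
theorem fub (hcc : S_CC G μ) {u v : G → ℂ} (hu : Cc u) (hv : Cc v) {γ : ℝ → G}
    (hγ : Continuous γ) {f : ℝ → ℂ} (hf : Integrable f) :
    ∫ r : ℝ, f r * ∫ y, conj (v y) * u (γ r * y) ∂μ =
      ∫ y, conj (v y) * (∫ r : ℝ, f r * u (γ r * y)) ∂μ := by
  obtain ⟨K, hK0, hK⟩ := bound hu
  have hvi : Integrable v μ := (hcc.1 v hv).2
  have hint : Integrable (fun z : ℝ × G => f z.1 * (conj (v z.2) * u (γ z.1 * z.2)))
      (volume.prod μ) := by
    have hb : Integrable (fun z : ℝ × G => ‖f z.1‖ * (‖v z.2‖ * K)) (volume.prod μ) :=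
      hf.norm.mul_prod (hvi.norm.mul_const K)
    refine Integrable.mono' hb ?_ ?_
    · have h1 : Continuous fun z : ℝ × G => conj (v z.2) * u (γ z.1 * z.2) := by
        have h2 : Continuous fun z : ℝ × G => v z.2 := hv.1.comp continuous_snd
        have h3 : Continuous fun z : ℝ × G => u (γ z.1 * z.2) :=
          hu.1.comp ((hγ.comp continuous_fst).mul continuous_snd)
        exact (Complex.continuous_conj.comp h2).mul h3
      exact (hf.1.comp_fst).mul h1.aestronglyMeasurable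
    · filter_upwards with z
      rw [norm_mul, norm_mul, RCLike.norm_conj]
      gcongr
      exact hK _
  have h1 : ∫ r : ℝ, f r * ∫ y, conj (v y) * u (γ r * y) ∂μ =
      ∫ r : ℝ, ∫ y, f r * (conj (v y) * u (γ r * y)) ∂μ := by
    apply integral_congr_ae
    filter_upwards with r
    rw [integral_const_mul]
  have h2 : ∫ y, conj (v y) * (∫ r : ℝ, f r * u (γ r * y)) ∂μ =
      ∫ y, (∫ r : ℝ, f r * (conj (v y) * u (γ r * y))) ∂μ := by
    apply integral_congr_ae
    filter_upwards with y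
    rw [← integral_const_mul]
    apply integral_congr_ae
    filter_upwards with r
    ring
  rw [h1, h2]
  exact integral_integral_swap hint

theorem integ (hub : S_UB G μ) (ξ : HH μ) {γ : ℝ → G}
    (hγ : Continuous γ) {f : ℝ → ℂ} (hf : Integrable f) :
    Integrable (fun r : ℝ => f r • U μ (γ r) ξ) := by
  have h1 : Continuous fun r : ℝ => U μ (γ r) ξ := (hub.2.2.1 ξ).comp hγ
  refine Integrable.mono' (hf.norm.mul_const ‖ξ‖) (hf.1.smul h1.aestronglyMeasurable) ?_
  filter_upwards with r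
  rw [norm_smul, LinearIsometry.norm_map]

/-- the inner products with the classes of functions in `Cc` -/
theorem inn (hub : S_UB G μ) (hcc : S_CC G μ) {u v : G → ℂ} (hu : Cc u) (hv : Cc v) {γ : ℝ → G}
    (hγ : Continuous γ) {f : ℝ → ℂ} (hf : Integrable f) :
    ⟪cl μ v, ∫ r : ℝ, f r • U μ (γ r) (cl μ u)⟫_ℂ =
      ∫ y, conj (v y) * (∫ r : ℝ, f r * u (γ r * y)) ∂μ := by
  rw [← fub hcc hu hv hγ hf, ← integral_inner (integ hub (cl μ u) hγ hf)]
  apply integral_congr_ae
  filter_upwards with r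
  have h1 := hcc.2.2.2.1 u hu (γ r)
  rw [inner_smul_right, h1.2.2, hcc.2.2.2.2.1 _ v h1.1 hv]

end TIDENT

open TIDENT in
theorem t_IDENT : S_UB G μ → S_CC G μ → S_IDENT G μ := by
  intro hub hcc u hu γ hγ f hf
  refine ⟨integ hub (cl μ u) hγ.1 hf, ?_, ?_⟩
  · intro h0 y0
    by_contra hne
    have hc := hcont (G := G) hu hγ.1 hf
    obtain ⟨χ, hχ1, hχ2, hχ3⟩ := exists_continuous_nonneg_pos (X := G) y0
    set h : G → ℂ := fun y => ∫ r : ℝ, f r * u (γ r * y) with hh
    have hv : Cc (fun y => ((χ y : ℝ) : ℂ) * h y) := by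
      refine ⟨(Complex.continuous_ofReal.comp χ.continuous).mul hc, ?_⟩
      have h1 : HasCompactSupport fun y : G => ((χ y : ℝ) : ℂ) :=
        hχ1.comp_left (g := fun t : ℝ => (t : ℂ)) Complex.ofReal_zero
      exact h1.mul_right
    have h1 := inn hub hcc hu hv hγ.1 hf
    rw [h0, inner_zero_right] at h1
    have h2 : ∫ y, conj (((χ y : ℝ) : ℂ) * h y) * (∫ r : ℝ, f r * u (γ r * y)) ∂μ =
        ((∫ y, χ y * ‖h y‖ ^ 2 ∂μ : ℝ) : ℂ) := by
      rw [← integral_complex_ofReal]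
      apply integral_congr_ae
      filter_upwards with y
      show conj (((χ y : ℝ) : ℂ) * h y) * h y = ((χ y * ‖h y‖ ^ 2 : ℝ) : ℂ)
      rw [map_mul, Complex.conj_ofReal, mul_assoc, Complex.conj_mul']
      push_cast
      ring
    rw [h2] at h1
    have h3 : ∫ y, χ y * ‖h y‖ ^ 2 ∂μ = 0 := by
      exact_mod_cast h1.symm
    have h4 : Continuous fun y => χ y * ‖h y‖ ^ 2 := χ.continuous.mul (hc.norm.pow 2)
    have h5 : HasCompactSupport fun y => χ y * ‖h y‖ ^ 2 := hχ1.mul_right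
    have h6 : 0 < ∫ y, χ y * ‖h y‖ ^ 2 ∂μ := by
      apply h4.integral_pos_of_hasCompactSupport_nonneg_nonzero (x := y0) h5
      · intro y
        exact mul_nonneg (hχ2 y) (by positivity)
      · have h7 : h y0 ≠ 0 := hne
        have h8 : ‖h y0‖ ≠ 0 := norm_ne_zero_iff.2 h7
        positivity
    linarith
  · intro g hg
    set I : HH μ := ∫ r : ℝ, f r • U μ (γ r) (cl μ u) with hI
    have h1 : ∀ v : G → ℂ, Cc v → ⟪cl μ v, I - U μ g (cl μ u)⟫_ℂ = 0 := by
      intro v hv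
      have h2 := hcc.2.2.2.1 u hu g
      rw [inner_sub_right, hI, inn hub hcc hu hv hγ.1 hf, h2.2.2, hcc.2.2.2.2.1 _ v h2.1 hv,
        sub_eq_zero]
      apply integral_congr_ae
      filter_upwards with y
      rw [hg y]
    rw [← sub_eq_zero, ← norm_le_zero_iff]
    set ζ : HH μ := I - U μ g (cl μ u) with hζ
    apply le_of_forall_pos_le_add
    intro ε hε
    rw [zero_add]
    obtain ⟨v, hv, hvε⟩ := hcc.2.2.2.2.2.2 ζ ε hε
    by_contra hcon
    push Not at hcon
    have h3 : ⟪ζ, ζ⟫_ℂ = ⟪ζ - cl μ v, ζ⟫_ℂ := by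
      rw [show ⟪ζ - cl μ v, ζ⟫_ℂ = ⟪ζ, ζ⟫_ℂ - ⟪cl μ v, ζ⟫_ℂ from inner_sub_left _ _ _, h1 v hv,
        sub_zero]
    have h4 : ‖ζ‖ ^ 2 ≤ ε * ‖ζ‖ := by
      calc ‖ζ‖ ^ 2 = ‖⟪ζ, ζ⟫_ℂ‖ := by
            rw [inner_self_eq_norm_sq_to_K]
            simp
        _ = ‖⟪ζ - cl μ v, ζ⟫_ℂ‖ := by rw [h3]
        _ ≤ ‖ζ - cl μ v‖ * ‖ζ‖ := norm_inner_le_norm _ _
        _ ≤ ε * ‖ζ‖ := mul_le_mul_of_nonneg_right hvε (norm_nonneg _)
    nlinarith [norm_nonneg ζ]

end A

end

end Pool.Agent.W660.FL
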