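import Pool.Agent.W660.FL.Stm

/-!
Project FL: the approximate identity (Laplace method).
-/

namespace Pool.Agent.W660.FL

open MeasureTheory Complex Filter Topology
open scoped ComplexConjugate InnerProductSpace Manifold ContDiff

noncomputable section

namespace TLAP


lemma pow_diff (a b : ℂ) (r : ℝ) (ha : ‖a‖ = r) (hb : ‖b‖ = r) (n : ℕ) :
    ‖a ^ (n + 1) - b ^ (n + 1)‖ ≤ (n + 1) * r ^ n * ‖a - b‖ := by
  have hr : 0 ≤ r := by rw [← ha]; exact norm_nonneg _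
  induction n with
  | zero => simp
  | succ n ih =>
    have e : a ^ (n + 1 + 1) - b ^ (n + 1 + 1) =
        a ^ (n + 1) * (a - b) + (a ^ (n + 1) - b ^ (n + 1)) * b := by ring
    rw [e]
    calc ‖a ^ (n + 1) * (a - b) + (a ^ (n + 1) - b ^ (n + 1)) * b‖
        ≤ ‖a ^ (n + 1) * (a - b)‖ + ‖(a ^ (n + 1) - b ^ (n + 1)) * b‖ := norm_add_le _ _
      _ = r ^ (n + 1) * ‖a - b‖ + ‖a ^ (n + 1) - b ^ (n + 1)‖ * r := by
          rw [norm_mul, norm_mul, norm_pow, ha, hb]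
      _ ≤ r ^ (n + 1) * ‖a - b‖ + ((n + 1) * r ^ n * ‖a - b‖) * r := by gcongr
      _ = ((n + 1 : ℕ) + 1) * r ^ (n + 1) * ‖a - b‖ := by push_cast; ring

lemma sub_norm_le (z : ℂ) (hz : 0 ≤ z.re) : ‖z - (‖z‖ : ℂ)‖ ≤ 2 * |z.im| := by
  have h1 : ‖z‖ ≤ |z.re| + |z.im| := Complex.norm_le_abs_re_add_abs_im z
  have h2 : z.re ≤ ‖z‖ := Complex.re_le_norm z
  rw [abs_of_nonneg hz] at h1
  have h3 : ‖z - (‖z‖ : ℂ)‖ ≤ |(z - (‖z‖ : ℂ)).re| + |(z - (‖z‖ : ℂ)).im| :=
    Complex.norm_le_abs_re_add_abs_im _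
  rw [Complex.sub_re, Complex.sub_im, Complex.ofReal_re, Complex.ofReal_im, sub_zero,
    abs_of_nonpos (by linarith : z.re - ‖z‖ ≤ 0)] at h3
  linarith

lemma exp_le_one_sub {x : ℝ} (h0 : 0 ≤ x) (h1 : x ≤ 1 / 2) : Real.exp (-(2 * x)) ≤ 1 - x := by
  have h2 : 2 * x + 1 ≤ Real.exp (2 * x) := Real.add_one_le_exp _
  have h3 : 0 < Real.exp (2 * x) := Real.exp_pos _
  rw [Real.exp_neg, inv_le_comm₀ h3 (by linarith)]
  refine le_trans ?_ h2
  rw [inv_le_iff_one_le_mul₀ (by linarith)]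
  nlinarith

section

variable {X : Type} [MeasurableSpace X] (μ : Measure X) (φ : X → ℂ) (N S : Set X) (ρ : X → ℝ)
  (c K K1 R : ℝ)

lemma int_pow (hφm : Measurable φ) (hSfin : μ S ≠ ⊤)
    (hφS : ∀ x, x ∉ S → φ x = 0) (hφ1 : ∀ x, ‖φ x‖ ≤ 1) (n : ℕ) (hn : 1 ≤ n) :
    Integrable (fun x => φ x ^ n) μ := by
  rw [← integrableOn_iff_integrable_of_support_subset (s := S)]
  · refine Measure.integrableOn_of_bounded (M := 1) hSfin (hφm.pow_const n).aestronglyMeasurable ?_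
    refine Eventually.of_forall fun x => ?_
    rw [norm_pow]
    exact pow_le_one₀ (norm_nonneg _) (hφ1 x)
  · intro x hx
    by_contra h
    apply hx
    change φ x ^ n = 0
    rw [hφS x h, zero_pow (by omega)]

lemma int_npow (hφm : Measurable φ) (hSfin : μ S ≠ ⊤)
    (hφS : ∀ x, x ∉ S → φ x = 0) (hφ1 : ∀ x, ‖φ x‖ ≤ 1) (n : ℕ) (hn : 1 ≤ n) :
    Integrable (fun x => ‖φ x‖ ^ n) μ := by
  have h := (int_pow μ φ S hφm hSfin hφS hφ1 n hn).norm
  simpa only [norm_pow] using h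

lemma tail (hφm : Measurable φ) (hS : MeasurableSet S) (hSfin : μ S ≠ ⊤)
    (hφS : ∀ x, x ∉ S → φ x = 0) (hφ1 : ∀ x, ‖φ x‖ ≤ 1) (n : ℕ) (hn : 1 ≤ n)
    (B : Set X) (hB : MeasurableSet B) (q : ℝ) (hq : 0 ≤ q) (hBq : ∀ x, x ∈ B → ‖φ x‖ ≤ q) :
    ∫ x in B, ‖φ x‖ ^ n ∂μ ≤ q ^ n * μ.real S := by
  have hi : Integrable (S.indicator fun _ => q ^ n) μ :=
    (integrable_indicator_iff hS).2 (integrableOn_const hSfin)
  calc ∫ x in B, ‖φ x‖ ^ n ∂μ ≤ ∫ x in B, S.indicator (fun _ => q ^ n) x ∂μ := by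
        refine setIntegral_mono_on (int_npow μ φ S hφm hSfin hφS hφ1 n hn).integrableOn
          hi.integrableOn hB fun x hx => ?_
        by_cases hxS : x ∈ S
        · rw [Set.indicator_of_mem hxS]
          exact pow_le_pow_left₀ (norm_nonneg _) (hBq x hx) n
        · rw [Set.indicator_of_notMem hxS, hφS x hxS, norm_zero, zero_pow (by omega)]
    _ ≤ ∫ x, S.indicator (fun _ => q ^ n) x ∂μ := by
        refine setIntegral_le_integral hi (Eventually.of_forall fun x => ?_)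
        exact Set.indicator_nonneg (fun _ _ => by positivity) x
    _ = q ^ n * μ.real S := by
        rw [integral_indicator hS, setIntegral_const, smul_eq_mul, mul_comm]

theorem core (hc : 0 < c) (hK : 0 ≤ K) (hK1 : 0 < K1)
    (hφm : Measurable φ) (hS : MeasurableSet S) (hSfin : μ S ≠ ⊤) (hN : MeasurableSet N)
    (hNfin : μ N ≠ ⊤)
    (hφS : ∀ x, x ∉ S → φ x = 0) (hφ1 : ∀ x, ‖φ x‖ ≤ 1)
    (hρm : Measurable ρ) (hρ0 : ∀ x, 0 ≤ ρ x) (hρR : ∀ x ∈ N, ρ x ≤ R)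
    (h1 : ∀ x ∈ N, ‖φ x‖ ≤ Real.exp (-c * ρ x ^ 2))
    (h2 : ∀ x ∈ N, Real.exp (-(2 * K) * ρ x ^ 2) ≤ ‖φ x‖)
    (h3 : ∀ x ∈ N, 0 ≤ (φ x).re)
    (h4 : ∀ ε > 0, ∃ (B : Set X) (q : ℝ), MeasurableSet B ∧ B ⊆ N ∧ 0 ≤ q ∧ q < 1 ∧
      (∀ x ∈ B, |(φ x).im| ≤ ε * ρ x ^ 2) ∧ ∀ x, x ∉ B → ‖φ x‖ ≤ q)
    (m : ℕ → ℝ) (hm : ∀ n : ℕ, m n = μ.real {x | x ∈ N ∧ ρ x ≤ 1 / Real.sqrt n})
    (n1 : ℕ) (hm0 : ∀ n, n1 ≤ n → 0 < m n)
    (hmK : ∀ n : ℕ, n1 ≤ n →
      ∫ x in N, (1 + n * ρ x ^ 2) * Real.exp (-(c / 2) * n * ρ x ^ 2) ∂μ ≤ K1 * m n)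
    (hmq : ∀ q : ℝ, 0 ≤ q → q < 1 → Tendsto (fun n : ℕ => q ^ n / m n) atTop (𝓝 0)) :
    ∃ (n0 : ℕ) (κ K2 : ℝ), 0 < κ ∧ 0 < K2 ∧ n1 ≤ n0 ∧ 1 ≤ n0 ∧ ∀ n, n0 ≤ n →
      κ * m n ≤ ‖∫ x, φ x ^ n ∂μ‖ ∧ ∫ x, ‖φ x‖ ^ n ∂μ ≤ K2 * m n := by
  set κ0 : ℝ := Real.exp (-(2 * K)) with hκ0
  have hκ0p : 0 < κ0 := Real.exp_pos _
  set ε : ℝ := κ0 / (8 * K1) with hε
  have hεp : 0 < ε := by positivity
  obtain ⟨B, q, hBm, hBN, hq0, hq1, hBim, hBq⟩ := h4 ε hεp
  set μS : ℝ := μ.real S with hμS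
  have hμS0 : 0 ≤ μS := measureReal_nonneg
  -- eventually `q ^ n` is small
  set δ : ℝ := min (κ0 / (8 * (μS + 1))) (1 / (μS + 1)) with hδ
  have hδp : 0 < δ := by
    rw [hδ]
    exact lt_min (by positivity) (by positivity)
  obtain ⟨n2, hn2⟩ := Filter.eventually_atTop.1 ((hmq q hq0 hq1).eventually_lt_const hδp)
  have hF : ∀ n : ℕ, IntegrableOn
      (fun x => (1 + n * ρ x ^ 2) * Real.exp (-(c / 2) * n * ρ x ^ 2)) N μ := by
    intro n
    refine Measure.integrableOn_of_bounded (M := 1 + n * R ^ 2) hNfin ?_ ?_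
    · have : Measurable (fun x => (1 + n * ρ x ^ 2) * Real.exp (-(c / 2) * n * ρ x ^ 2)) := by
        fun_prop
      exact this.aestronglyMeasurable
    · refine (ae_restrict_iff' hN).2 (Eventually.of_forall fun x hx => ?_)
      have e1 : 0 ≤ 1 + n * ρ x ^ 2 := by positivity
      have e2 : ρ x ^ 2 ≤ R ^ 2 := pow_le_pow_left₀ (hρ0 x) (hρR x hx) 2
      have e3 : Real.exp (-(c / 2) * n * ρ x ^ 2) ≤ 1 := by
        rw [Real.exp_le_one_iff]
        have : 0 ≤ (c / 2) * n * ρ x ^ 2 := by positivity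
        linarith
      rw [Real.norm_of_nonneg (mul_nonneg e1 (Real.exp_pos _).le)]
      calc (1 + n * ρ x ^ 2) * Real.exp (-(c / 2) * n * ρ x ^ 2) ≤ (1 + n * ρ x ^ 2) * 1 := by
            gcongr
        _ ≤ 1 + n * R ^ 2 := by rw [mul_one]; gcongr
  refine ⟨max (max n1 n2) 2, κ0 / 2, K1 + 1, by positivity, by positivity,
    (le_max_left _ _).trans (le_max_left _ _), by omega, ?_⟩
  intro n hn
  have hnn1 : n1 ≤ n := ((le_max_left _ _).trans (le_max_left _ _)).trans hn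
  have hnn2 : n2 ≤ n := ((le_max_right _ _).trans (le_max_left _ _)).trans hn
  have hn2' : 2 ≤ n := (le_max_right _ _).trans hn
  have hmn := hm0 n hnn1
  have hqn : q ^ n ≤ δ * m n := by
    have := hn2 n hnn2
    rw [div_lt_iff₀ hmn] at this
    exact this.le
  have hqS1 : q ^ n * μS ≤ κ0 / 8 * m n := by
    have e1 : δ ≤ κ0 / (8 * (μS + 1)) := min_le_left _ _
    calc q ^ n * μS ≤ (κ0 / (8 * (μS + 1)) * m n) * (μS + 1) := by
          refine mul_le_mul (hqn.trans ?_) (by linarith) hμS0 (by positivity)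
          gcongr
      _ = κ0 / 8 * m n := by field_simp
  have hqS2 : q ^ n * μS ≤ 1 * m n := by
    have e1 : δ ≤ 1 / (μS + 1) := min_le_right _ _
    calc q ^ n * μS ≤ (1 / (μS + 1) * m n) * (μS + 1) := by
          refine mul_le_mul (hqn.trans ?_) (by linarith) hμS0 (by positivity)
          gcongr
      _ = 1 * m n := by field_simp
  have hip := int_pow μ φ S hφm hSfin hφS hφ1 n (by omega)
  have hinp := int_npow μ φ S hφm hSfin hφS hφ1 n (by omega)
  -- the upper bound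
  have hup : ∫ x, ‖φ x‖ ^ n ∂μ ≤ (K1 + 1) * m n := by
    rw [← integral_add_compl hN hinp]
    have e1 : ∫ x in N, ‖φ x‖ ^ n ∂μ ≤ K1 * m n := by
      refine le_trans (setIntegral_mono_on hinp.integrableOn (hF n) hN fun x hx => ?_) (hmK n hnn1)
      have f1 : ‖φ x‖ ^ n ≤ Real.exp (-c * ρ x ^ 2) ^ n :=
        pow_le_pow_left₀ (norm_nonneg _) (h1 x hx) n
      rw [← Real.exp_nat_mul] at f1
      have f2 : Real.exp (n * (-c * ρ x ^ 2)) ≤ Real.exp (-(c / 2) * n * ρ x ^ 2) := by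
        apply Real.exp_le_exp.2
        have : 0 ≤ (c / 2) * n * ρ x ^ 2 := by positivity
        linarith
      calc ‖φ x‖ ^ n ≤ Real.exp (-(c / 2) * n * ρ x ^ 2) := f1.trans f2
        _ = 1 * Real.exp (-(c / 2) * n * ρ x ^ 2) := (one_mul _).symm
        _ ≤ (1 + n * ρ x ^ 2) * Real.exp (-(c / 2) * n * ρ x ^ 2) := by
          refine mul_le_mul_of_nonneg_right ?_ (Real.exp_pos _).le
          have : 0 ≤ (n : ℝ) * ρ x ^ 2 := by positivity
          linarith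
    have e2 : ∫ x in Nᶜ, ‖φ x‖ ^ n ∂μ ≤ q ^ n * μS :=
      tail μ φ S hφm hS hSfin hφS hφ1 n (by omega) Nᶜ hN.compl q hq0
        fun x hx => hBq x fun hxB => hx (hBN hxB)
    linarith
  refine ⟨?_, hup⟩
  -- the lower bound of the absolute integral
  have hlow : κ0 * m n ≤ ∫ x, ‖φ x‖ ^ n ∂μ := by
    set Bn : Set X := {x | x ∈ N ∧ ρ x ≤ 1 / Real.sqrt n} with hBn
    have hBnm : MeasurableSet Bn := hN.inter (measurableSet_le hρm measurable_const)
    have hnpos : (0 : ℝ) < n := by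
      have : 0 < n := by omega
      exact_mod_cast this
    calc κ0 * m n = ∫ x in Bn, κ0 ∂μ := by
          rw [setIntegral_const, smul_eq_mul, hm n, mul_comm]
      _ ≤ ∫ x in Bn, ‖φ x‖ ^ n ∂μ := by
          refine setIntegral_mono_on (integrableOn_const ?_) hinp.integrableOn hBnm fun x hx => ?_
          · exact measure_ne_top_of_subset (fun x hx => hx.1) hNfin
          · obtain ⟨hxN, hxρ⟩ := hx
            have f1 := pow_le_pow_left₀ (Real.exp_pos _).le (h2 x hxN) n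
            rw [← Real.exp_nat_mul] at f1
            refine le_trans ?_ f1
            rw [hκ0]
            apply Real.exp_le_exp.2
            have f2 : ρ x ^ 2 ≤ 1 / n := by
              have := pow_le_pow_left₀ (hρ0 x) hxρ 2
              rw [div_pow, one_pow, Real.sq_sqrt hnpos.le] at this
              exact this
            have f3 : n * ρ x ^ 2 ≤ 1 := by
              rw [le_div_iff₀ hnpos] at f2
              linarith
            have f4 : (2 * K) * (n * ρ x ^ 2) ≤ (2 * K) * 1 :=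
              mul_le_mul_of_nonneg_left f3 (by linarith)
            linarith
      _ ≤ ∫ x, ‖φ x‖ ^ n ∂μ :=
          setIntegral_le_integral hinp (Eventually.of_forall fun x => by positivity)
  -- the difference
  have hdi : Integrable (fun x => φ x ^ n - (‖φ x‖ : ℂ) ^ n) μ := by
    refine hip.sub ?_
    have := hinp.ofReal (𝕜 := ℂ)
    refine this.congr (Eventually.of_forall fun x => ?_)
    simp
  have hdiff : ∫ x, ‖φ x ^ n - (‖φ x‖ : ℂ) ^ n‖ ∂μ ≤ κ0 / 2 * m n := by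
    rw [← integral_add_compl hBm hdi.norm]
    have e1 : ∫ x in B, ‖φ x ^ n - (‖φ x‖ : ℂ) ^ n‖ ∂μ ≤ 2 * ε * (K1 * m n) := by
      calc ∫ x in B, ‖φ x ^ n - (‖φ x‖ : ℂ) ^ n‖ ∂μ
          ≤ ∫ x in B, 2 * ε * ((1 + n * ρ x ^ 2) * Real.exp (-(c / 2) * n * ρ x ^ 2)) ∂μ := by
            refine setIntegral_mono_on hdi.norm.integrableOn
              (((hF n).mono_set hBN).const_mul _) hBm fun x hx => ?_
            obtain ⟨k, rfl⟩ : ∃ k, n = k + 1 := ⟨n - 1, by omega⟩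
            have g1 := pow_diff (φ x) (‖φ x‖ : ℂ) ‖φ x‖ rfl
              (by rw [Complex.norm_real, norm_norm]) k
            have g2 := sub_norm_le (φ x) (h3 x (hBN hx))
            have g3 := hBim x hx
            have g4 : ‖φ x‖ ^ k ≤ Real.exp (-(c / 2) * (k + 1 : ℕ) * ρ x ^ 2) := by
              have g5 := pow_le_pow_left₀ (norm_nonneg _) (h1 x (hBN hx)) k
              rw [← Real.exp_nat_mul] at g5
              refine g5.trans (Real.exp_le_exp.2 ?_)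
              have hk : (1 : ℝ) ≤ k := by
                have : 1 ≤ k := by omega
                exact_mod_cast this
              have g6 : 0 ≤ (c / 2) * (k - 1) * ρ x ^ 2 :=
                mul_nonneg (mul_nonneg (by positivity) (by linarith)) (by positivity)
              push_cast
              nlinarith [g6]
            calc ‖φ x ^ (k + 1) - (‖φ x‖ : ℂ) ^ (k + 1)‖
                ≤ (k + 1) * ‖φ x‖ ^ k * ‖φ x - (‖φ x‖ : ℂ)‖ := g1
              _ ≤ (k + 1) * Real.exp (-(c / 2) * (k + 1 : ℕ) * ρ x ^ 2) *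
                  (2 * (ε * ρ x ^ 2)) := by
                gcongr
                linarith
              _ = 2 * ε * (((k + 1 : ℕ) * ρ x ^ 2) *
                  Real.exp (-(c / 2) * (k + 1 : ℕ) * ρ x ^ 2)) := by push_cast; ring
              _ ≤ 2 * ε * ((1 + (k + 1 : ℕ) * ρ x ^ 2) *
                  Real.exp (-(c / 2) * (k + 1 : ℕ) * ρ x ^ 2)) := by
                gcongr
                linarith
        _ = 2 * ε * ∫ x in B, (1 + n * ρ x ^ 2) * Real.exp (-(c / 2) * n * ρ x ^ 2) ∂μ :=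
            integral_const_mul _ _
        _ ≤ 2 * ε * ∫ x in N, (1 + n * ρ x ^ 2) * Real.exp (-(c / 2) * n * ρ x ^ 2) ∂μ := by
            refine mul_le_mul_of_nonneg_left ?_ (by positivity)
            refine setIntegral_mono_set (hF n) (Eventually.of_forall fun x => ?_)
              (LE.le.eventuallyLE hBN)
            have : 0 ≤ (n : ℝ) * ρ x ^ 2 := by positivity
            exact mul_nonneg (by linarith) (Real.exp_pos _).le
        _ ≤ 2 * ε * (K1 * m n) := by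
            refine mul_le_mul_of_nonneg_left (hmK n hnn1) (by positivity)
    have e2 : ∫ x in Bᶜ, ‖φ x ^ n - (‖φ x‖ : ℂ) ^ n‖ ∂μ ≤ 2 * (q ^ n * μS) := by
      calc ∫ x in Bᶜ, ‖φ x ^ n - (‖φ x‖ : ℂ) ^ n‖ ∂μ
          ≤ ∫ x in Bᶜ, 2 * ‖φ x‖ ^ n ∂μ := by
            refine setIntegral_mono_on hdi.norm.integrableOn (hinp.const_mul 2).integrableOn
              hBm.compl fun x _ => ?_
            calc ‖φ x ^ n - (‖φ x‖ : ℂ) ^ n‖ ≤ ‖φ x ^ n‖ + ‖(‖φ x‖ : ℂ) ^ n‖ := norm_sub_le _ _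
              _ = 2 * ‖φ x‖ ^ n := by
                rw [norm_pow, norm_pow, Complex.norm_real, norm_norm]; ring
        _ = 2 * ∫ x in Bᶜ, ‖φ x‖ ^ n ∂μ := integral_const_mul _ _
        _ ≤ 2 * (q ^ n * μS) := by
            refine mul_le_mul_of_nonneg_left ?_ (by norm_num)
            exact tail μ φ S hφm hS hSfin hφS hφ1 n (by omega) Bᶜ hBm.compl q hq0
              fun x hx => hBq x hx
    have e3 : 2 * ε * (K1 * m n) = κ0 / 4 * m n := by
      rw [hε]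
      field_simp
      ring
    linarith
  have hI : ∫ x, (‖φ x‖ : ℂ) ^ n ∂μ = ((∫ x, ‖φ x‖ ^ n ∂μ : ℝ) : ℂ) := by
    have h := integral_complex_ofReal (μ := μ) (f := fun x => ‖φ x‖ ^ n)
    rw [← h]
    simp only [Complex.ofReal_pow]
  have hip2 : Integrable (fun x => (‖φ x‖ : ℂ) ^ n) μ := by
    have := hinp.ofReal (𝕜 := ℂ)
    refine this.congr (Eventually.of_forall fun x => ?_)
    simp
  have hsub : ∫ x, (φ x ^ n - (‖φ x‖ : ℂ) ^ n) ∂μ = ∫ x, φ x ^ n ∂μ - ∫ x, (‖φ x‖ : ℂ) ^ n ∂μ :=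
    integral_sub hip hip2
  have hnorm : ‖∫ x, (‖φ x‖ : ℂ) ^ n ∂μ‖ = ∫ x, ‖φ x‖ ^ n ∂μ := by
    rw [hI, Complex.norm_real, Real.norm_of_nonneg (integral_nonneg fun x => by positivity)]
  have h5 : ‖∫ x, (‖φ x‖ : ℂ) ^ n ∂μ‖ ≤ ‖∫ x, φ x ^ n ∂μ‖ +
      ‖∫ x, (φ x ^ n - (‖φ x‖ : ℂ) ^ n) ∂μ‖ := by
    have : ∫ x, (‖φ x‖ : ℂ) ^ n ∂μ = ∫ x, φ x ^ n ∂μ -
        ∫ x, (φ x ^ n - (‖φ x‖ : ℂ) ^ n) ∂μ := by rw [hsub]; ring
    rw [this]
    exact norm_sub_le _ _
  have h6 := norm_integral_le_integral_norm (μ := μ) (fun x => φ x ^ n - (‖φ x‖ : ℂ) ^ n)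
  rw [hnorm] at h5
  linarith

end


section chart

variable {G : Type} [Group G] [TopologicalSpace G] {E : Type} [NormedAddCommGroup E]
  [NormedSpace ℝ E]

lemma symm_zero (C : LieChart G E) : C.κ.symm 0 = 1 := by
  have h := C.κ.left_inv C.one_mem
  rwa [C.map_one] at h

lemma zero_mem (C : LieChart G E) : (0 : E) ∈ C.κ.target := by
  have h := C.κ.map_source C.one_mem
  rwa [C.map_one] at h

lemma bk_compact [FiniteDimensional ℝ E] (C : LieChart G E) (r : ℝ)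
    (h : Metric.closedBall 0 r ⊆ C.κ.target) : IsCompact (Bk C r) := by
  have := FiniteDimensional.proper_real E
  have e : Bk C r = C.κ.symm '' Metric.closedBall 0 r := by
    ext x
    constructor
    · rintro ⟨hx, hr⟩
      exact ⟨C.κ x, by rwa [mem_closedBall_zero_iff], C.κ.left_inv hx⟩
    · rintro ⟨a, ha, rfl⟩
      have ha' := h ha
      refine ⟨C.κ.map_target ha', ?_⟩
      rw [C.κ.right_inv ha']
      rwa [mem_closedBall_zero_iff] at ha
  rw [e]
  exact (isCompact_closedBall 0 r).image_of_continuousOn (C.κ.continuousOn_symm.mono h)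

lemma small (C : LieChart G E) (V : Set G) (hV : V ∈ 𝓝 (1 : G)) :
    ∃ r, 0 < r ∧ Bk C r ⊆ V := by
  have h : ContinuousAt C.κ.symm 0 := C.κ.continuousAt_symm (zero_mem C)
  have h2 : ∀ᶠ a in 𝓝 (0 : E), C.κ.symm a ∈ V := by
    apply h
    rw [symm_zero]
    exact hV
  obtain ⟨ε, hε, h3⟩ := Metric.eventually_nhds_iff.1 h2
  refine ⟨ε / 2, half_pos hε, ?_⟩
  rintro x ⟨hx, hr⟩
  have h4 : dist (C.κ x) 0 < ε := by
    rw [dist_zero_right]
    linarith
  have h5 := h3 h4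
  rwa [C.κ.left_inv hx] at h5

lemma offball (C : LieChart G E) (φ : G → ℂ) (hφ : Continuous φ) (hφ2 : HasCompactSupport φ)
    (hlt : ∀ x, x ≠ 1 → ‖φ x‖ < 1) (r : ℝ) (hr : 0 < r) :
    ∃ q : ℝ, 0 ≤ q ∧ q < 1 ∧ ∀ x, x ∉ Bk C r → ‖φ x‖ ≤ q := by
  set O : Set G := C.κ.source ∩ C.κ ⁻¹' (Metric.ball 0 r) with hO
  have hOo : IsOpen O := C.κ.isOpen_inter_preimage Metric.isOpen_ball
  have h1O : (1 : G) ∈ O := by
    refine ⟨C.one_mem, ?_⟩
    rw [Set.mem_preimage, C.map_one]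
    exact Metric.mem_ball_self hr
  have hOB : O ⊆ Bk C r := by
    rintro x ⟨hx, hx2⟩
    rw [Set.mem_preimage, mem_ball_zero_iff] at hx2
    exact ⟨hx, hx2.le⟩
  have hKc : IsCompact (tsupport φ \ O) := hφ2.isCompact.diff hOo
  rcases (tsupport φ \ O).eq_empty_or_nonempty with he | hne
  · refine ⟨0, le_rfl, one_pos, fun x hx => ?_⟩
    have hxt : x ∉ tsupport φ := by
      intro h
      have : x ∈ tsupport φ \ O := ⟨h, fun h2 => hx (hOB h2)⟩
      rw [he] at this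
      exact this
    rw [image_eq_zero_of_notMem_tsupport hxt, norm_zero]
  · obtain ⟨x₀, hx₀, hmax⟩ := hKc.exists_isMaxOn hne hφ.norm.continuousOn
    refine ⟨‖φ x₀‖, norm_nonneg _, hlt x₀ ?_, fun x hx => ?_⟩
    · rintro rfl
      exact hx₀.2 h1O
    · by_cases hxt : x ∈ tsupport φ
      · exact hmax ⟨hxt, fun h2 => hx (hOB h2)⟩
      · rw [image_eq_zero_of_notMem_tsupport hxt, norm_zero]
        exact norm_nonneg _

end chart

section alg

variable {G : Type} [Group G] [TopologicalSpace G] [MeasurableSpace G] {μ : Measure G}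
  {A : Set (G → ℂ)}

lemma pow_mem (hA : IsAlg μ A) {φ : G → ℂ} (hφ : φ ∈ A) (k : ℕ) : φ ^ (k + 1) ∈ A := by
  induction k with
  | zero => simpa using hφ
  | succ k ih =>
    rw [pow_succ]
    exact hA.mul _ ih _ hφ

end alg

end TLAP

open TLAP in
theorem t_LAP (G : Type) [Group G] [TopologicalSpace G] [IsTopologicalGroup G] [T2Space G]
    [LocallyCompactSpace G] [SecondCountableTopology G] [MeasurableSpace G] [BorelSpace G]
    (μ : Measure G) [μ.IsHaarMeasure] (E : Type) [NormedAddCommGroup E] [NormedSpace ℝ E]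
    [FiniteDimensional ℝ E] : S_DBL G μ E → S_MEAS → S_REAL G E → S_LAP G μ E := by
  intro hD hM hR C A hA φ hP hSt hal
  obtain ⟨L, r₀, hr₀, htar, -, hpos, hdbl⟩ := hD C
  obtain ⟨⟨K, rK, hrK, hK⟩, hIm⟩ := hR C A φ hP hal
  obtain ⟨hlt, c, hc, hev⟩ := hSt
  obtain ⟨rc, hrc, hc'⟩ := Metric.eventually_nhds_iff.1 hev
  obtain ⟨hφA, ⟨hφc, hφs⟩, hφ1, hφn, -, -⟩ := hP
  set K' : ℝ := max K 1 with hK'
  have hK'1 : 1 ≤ K' := le_max_right _ _
  set r₁ : ℝ := min (min r₀ (min (rK / 2) (rc / 2))) (1 / (2 * K')) with hr₁def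
  have hr₁ : 0 < r₁ := by
    rw [hr₁def]
    refine lt_min (lt_min hr₀ (lt_min (half_pos hrK) (half_pos hrc))) (by positivity)
  have hr₁0 : r₁ ≤ r₀ := (min_le_left _ _).trans (min_le_left _ _)
  have hr₁K : r₁ < rK := by
    have : r₁ ≤ rK / 2 := (min_le_left _ _).trans ((min_le_right _ _).trans (min_le_left _ _))
    linarith
  have hr₁c : r₁ < rc := by
    have : r₁ ≤ rc / 2 := (min_le_left _ _).trans ((min_le_right _ _).trans (min_le_right _ _))
    linarith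
  have hr₁2 : K' * r₁ ≤ 1 / 2 := by
    have h : r₁ ≤ 1 / (2 * K') := min_le_right _ _
    calc K' * r₁ ≤ K' * (1 / (2 * K')) := by gcongr
      _ = 1 / 2 := by field_simp
  have hr₁1 : r₁ ≤ 1 := by nlinarith
  have htar' : ∀ r, r ≤ r₀ → Metric.closedBall (0 : E) r ⊆ C.κ.target := fun r hr =>
    (Metric.closedBall_subset_closedBall hr).trans htar
  set N : Set G := Bk C r₁ with hN
  have hNc : IsCompact N := bk_compact C r₁ (htar' r₁ hr₁0)
  have hNm : MeasurableSet N := hNc.isClosed.measurableSet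
  have hNfin : μ N ≠ ⊤ := hNc.measure_lt_top.ne
  set ρ : G → ℝ := N.indicator (fun x => ‖C.κ x‖) with hρ
  have hρN : ∀ x ∈ N, ρ x = ‖C.κ x‖ := fun x hx => Set.indicator_of_mem hx _
  have hρm : Measurable ρ := by
    classical
    rw [hρ, ← Set.piecewise_eq_indicator]
    refine ContinuousOn.measurable_piecewise ?_ continuousOn_const hNm
    exact (C.κ.continuousOn.mono fun x hx => hx.1).norm
  have hρ0 : ∀ x, 0 ≤ ρ x := fun x => Set.indicator_nonneg (fun _ _ => norm_nonneg _) x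
  have hρle : ∀ x ∈ N, ρ x ≤ r₁ := fun x hx => by
    rw [hρN x hx]
    exact hx.2
  have hset : ∀ r, r ≤ r₁ → {x | x ∈ N ∧ ρ x ≤ r} = Bk C r := by
    intro r hr
    ext x
    constructor
    · rintro ⟨hx, hx2⟩
      rw [hρN x hx] at hx2
      exact ⟨hx.1, hx2⟩
    · rintro ⟨hx, hx2⟩
      have hxN : x ∈ N := ⟨hx, hx2.trans hr⟩
      refine ⟨hxN, ?_⟩
      rw [hρN x hxN]
      exact hx2
  have hmeas := hM G μ N ρ L r₁ hNm hρm hNfin hr₁ hρ0 hρle
    (fun r hr hr' => by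
      rw [hset r hr']
      exact hpos r hr (hr'.trans hr₁0))
    (fun r hr hr' => by
      rw [hset r (by linarith), hset (2 * r) hr']
      exact hdbl r hr (hr'.trans hr₁0))
    (c / 2) (half_pos hc)
  obtain ⟨⟨K1, hK1⟩, hq⟩ := hmeas
  set m : ℕ → ℝ := fun n => μ.real {x | x ∈ N ∧ ρ x ≤ 1 / Real.sqrt n} with hm
  set n1 : ℕ := max 1 ⌈1 / r₁ ^ 2⌉₊ with hn1
  have hn1' : ∀ n : ℕ, n1 ≤ n → 1 ≤ n * r₁ ^ 2 := by
    intro n hn
    have h1 : (1 / r₁ ^ 2 : ℝ) ≤ n :=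
      (Nat.le_ceil _).trans (by exact_mod_cast (le_max_right _ _).trans hn)
    rwa [div_le_iff₀ (by positivity)] at h1
  have hm0 : ∀ n, n1 ≤ n → 0 < m n := by
    intro n hn
    have hnpos : (0 : ℝ) < n := by
      have : 1 ≤ n := (le_max_left _ _).trans hn
      exact_mod_cast this
    have hs : 0 < Real.sqrt n := Real.sqrt_pos.2 hnpos
    have h1 : 1 / Real.sqrt n ≤ r₁ := by
      rw [div_le_iff₀ hs]
      have h2 := hn1' n hn
      have h3 : (r₁ * Real.sqrt n) ^ 2 = n * r₁ ^ 2 := by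
        rw [mul_pow, Real.sq_sqrt hnpos.le]; ring
      rw [← h3] at h2
      have h4 : 0 ≤ r₁ * Real.sqrt n := by positivity
      nlinarith
    rw [hm]
    change 0 < μ.real {x | x ∈ N ∧ ρ x ≤ 1 / Real.sqrt n}
    rw [hset _ h1]
    exact hpos _ (by positivity) (h1.trans hr₁0)
  have hx : ∀ x ∈ N, ‖φ x - 1‖ ≤ K' * ρ x ^ 2 ∧ K' * ρ x ^ 2 ≤ 1 / 2 := by
    intro x hx
    have h1 := hρle x hx
    have h2 := hK (C.κ x) (lt_of_le_of_lt hx.2 hr₁K)
    rw [C.κ.left_inv hx.1] at h2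
    rw [hρN x hx] at h1 ⊢
    refine ⟨h2.trans (mul_le_mul_of_nonneg_right (le_max_left _ _) (by positivity)), ?_⟩
    have h3 : ‖C.κ x‖ ^ 2 ≤ r₁ * 1 := by
      rw [pow_two]
      exact mul_le_mul h1 (h1.trans hr₁1) (norm_nonneg _) hr₁.le
    calc K' * ‖C.κ x‖ ^ 2 ≤ K' * (r₁ * 1) := by gcongr
      _ ≤ 1 / 2 := by linarith
  obtain ⟨n0, κ, K2, hκ, hK2, hn10, hn01, hmain⟩ := core μ φ N (tsupport φ) ρ c K' (max K1 1) r₁ hc
    (by linarith) (lt_of_lt_of_le one_pos (le_max_right _ _)) hφc.measurable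
    (isClosed_tsupport φ).measurableSet hφs.isCompact.measure_lt_top.ne hNm hNfin
    (fun x hx => image_eq_zero_of_notMem_tsupport hx) hφn hρm hρ0 hρle
    (fun x hx => by
      have h2 := hc' (y := C.κ x) (by
        rw [dist_zero_right]
        exact lt_of_le_of_lt hx.2 hr₁c)
      rw [C.κ.left_inv hx.1] at h2
      rw [hρN x hx]
      refine h2.trans ?_
      have h3 := Real.add_one_le_exp (-c * ‖C.κ x‖ ^ 2)
      linarith)
    (fun x hx' => by
      obtain ⟨h2, h3⟩ := hx x hx'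
      have h4 := exp_le_one_sub (x := K' * ρ x ^ 2) (by positivity) h3
      have h5 : 1 - ‖φ x - 1‖ ≤ ‖φ x‖ := by
        have h6 : ‖(1 : ℂ)‖ ≤ ‖φ x‖ + ‖φ x - 1‖ := by
          have : (1 : ℂ) = φ x - (φ x - 1) := by ring
          calc ‖(1 : ℂ)‖ = ‖φ x - (φ x - 1)‖ := by rw [← this]
            _ ≤ _ := norm_sub_le _ _
        rw [norm_one] at h6
        linarith
      have e : -(2 * K') * ρ x ^ 2 = -(2 * (K' * ρ x ^ 2)) := by ring
      rw [e]
      linarith)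
    (fun x hx' => by
      obtain ⟨h2, h3⟩ := hx x hx'
      have h4 := Complex.abs_re_le_norm (φ x - 1)
      rw [Complex.sub_re, Complex.one_re] at h4
      have h5 := (abs_le.1 h4).1
      linarith)
    (fun ε hε => by
      obtain ⟨rε, hrε, hIm'⟩ := hIm ε hε
      have hr2 : 0 < min r₁ (rε / 2) := lt_min hr₁ (half_pos hrε)
      obtain ⟨q, hq0, hq1, hqq⟩ := offball C φ hφc hφs hlt _ hr2
      refine ⟨Bk C (min r₁ (rε / 2)), q, ?_, ?_, hq0, hq1, ?_, hqq⟩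
      · exact (bk_compact C _ (htar' _ ((min_le_left _ _).trans hr₁0))).isClosed.measurableSet
      · exact fun x hx => ⟨hx.1, hx.2.trans (min_le_left _ _)⟩
      · intro x hx
        have hxN : x ∈ N := ⟨hx.1, hx.2.trans (min_le_left _ _)⟩
        have h2 := hIm' (C.κ x) (by
          have := hx.2.trans (min_le_right _ _)
          linarith)
        rw [C.κ.left_inv hx.1] at h2
        rw [hρN x hxN]
        exact h2)
    m (fun _ => rfl) n1 hm0
    (fun n hn => (hK1 n (hn1' n hn)).trans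
      (mul_le_mul_of_nonneg_right (le_max_left _ _) (hm0 n hn).le))
    hq
  -- the approximate identity
  have hmk : ∀ n : ℕ, 0 < m (n + n0) := fun n => hm0 _ (hn10.trans (Nat.le_add_left _ _))
  set I : ℕ → ℂ := fun n => ∫ x, φ x ^ (n + n0) ∂μ with hI
  have hIk : ∀ n, κ * m (n + n0) ≤ ‖I n‖ := fun n => (hmain (n + n0) (Nat.le_add_left _ _)).1
  have hIn : ∀ n, I n ≠ 0 := by
    intro n h0
    have h1 := hIk n
    rw [h0, norm_zero] at h1
    have := mul_pos hκ (hmk n)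
    linarith
  have hJ : ∀ n : ℕ, ∫ x, ‖φ x‖ ^ (n + n0) ∂μ ≤ K2 * m (n + n0) :=
    fun n => (hmain (n + n0) (Nat.le_add_left _ _)).2
  have hnorm : ∀ (n : ℕ) (x : G), ‖((I n)⁻¹ • φ ^ (n + n0)) x‖ =
      ‖I n‖⁻¹ * ‖φ x‖ ^ (n + n0) := by
    intro n x
    rw [Pi.smul_apply, Pi.pow_apply, norm_smul, norm_inv, norm_pow]
  have hinp : ∀ n : ℕ, Integrable (fun x => ‖φ x‖ ^ (n + n0)) μ := fun n =>
    int_npow μ φ (tsupport φ) hφc.measurable hφs.isCompact.measure_lt_top.ne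
      (fun x hx => image_eq_zero_of_notMem_tsupport hx) hφn (n + n0) (by omega)
  refine ⟨fun n => (I n)⁻¹ • φ ^ (n + n0), ?_, ⟨K2 / κ, ?_⟩, ?_, ?_⟩
  · intro n
    obtain ⟨k, hk⟩ : ∃ k, n + n0 = k + 1 := ⟨n + n0 - 1, by omega⟩
    refine ⟨hA.smul _ _ ?_, ?_, ?_⟩
    · rw [hk]
      exact pow_mem hA hφA k
    · exact (hφc.pow _).const_smul _
    · refine hφs.mono ?_
      intro x hx hx0
      apply hx
      have hx0' : φ x = 0 := hx0
      change ((I n)⁻¹ • φ ^ (n + n0)) x = 0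
      rw [Pi.smul_apply, Pi.pow_apply, hx0', hk, zero_pow (by omega), smul_zero]
  · intro n
    simp only [hnorm]
    rw [integral_const_mul]
    have h1 := hIk n
    have h2 := hJ n
    have h3 := hmk n
    have h4 : 0 < κ * m (n + n0) := mul_pos hκ h3
    calc ‖I n‖⁻¹ * ∫ x, ‖φ x‖ ^ (n + n0) ∂μ ≤ (κ * m (n + n0))⁻¹ * (K2 * m (n + n0)) := by
          refine mul_le_mul (inv_anti₀ h4 h1) h2 (integral_nonneg fun x => by positivity)
            (by positivity)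
      _ = K2 / κ := by
          field_simp
  · intro n
    have e : (fun x => ((I n)⁻¹ • φ ^ (n + n0)) x) = fun x => (I n)⁻¹ * φ x ^ (n + n0) := by
      ext x
      rw [Pi.smul_apply, Pi.pow_apply, smul_eq_mul]
    change ∫ x, ((I n)⁻¹ • φ ^ (n + n0)) x ∂μ = 1
    rw [e, integral_const_mul]
    exact inv_mul_cancel₀ (hIn n)
  · intro V hV
    obtain ⟨r, hr, hrV⟩ := small C V hV
    obtain ⟨r', hr', hr'r, hr'0⟩ : ∃ r', 0 < r' ∧ r' ≤ r ∧ r' ≤ r₀ :=
      ⟨min r r₀, lt_min hr hr₀, min_le_left _ _, min_le_right _ _⟩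
    obtain ⟨q, hq0, hq1, hqq⟩ := offball C φ hφc hφs hlt r' hr'
    have hBm : MeasurableSet (Bk C r') := (bk_compact C r' (htar' r' hr'0)).isClosed.measurableSet
    have hBV : Vᶜ ⊆ (Bk C r')ᶜ := fun x hx hxB => hx (hrV ⟨hxB.1, hxB.2.trans hr'r⟩)
    set μS : ℝ := μ.real (tsupport φ) with hμS
    have hlim : Tendsto (fun n : ℕ => (q ^ (n + n0) / m (n + n0)) * (μS / κ)) atTop (𝓝 0) := by
      have h1 := ((tendsto_add_atTop_iff_nat n0).2 (hq q hq0 hq1)).mul_const (μS / κ)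
      rwa [zero_mul] at h1
    refine squeeze_zero (fun n => integral_nonneg fun x => norm_nonneg _) (fun n => ?_) hlim
    change ∫ x in Vᶜ, ‖((I n)⁻¹ • φ ^ (n + n0)) x‖ ∂μ ≤ _
    simp only [hnorm]
    rw [integral_const_mul]
    have h1 := hIk n
    have h3 := hmk n
    have h4 : 0 < κ * m (n + n0) := mul_pos hκ h3
    have h5 : ∫ x in Vᶜ, ‖φ x‖ ^ (n + n0) ∂μ ≤ q ^ (n + n0) * μS := by
      refine le_trans (setIntegral_mono_set (hinp n).integrableOn
        (Eventually.of_forall fun x => by positivity) (LE.le.eventuallyLE hBV)) ?_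
      exact tail μ φ (tsupport φ) hφc.measurable (isClosed_tsupport φ).measurableSet
        hφs.isCompact.measure_lt_top.ne (fun x hx => image_eq_zero_of_notMem_tsupport hx) hφn
        (n + n0) (by omega) _ hBm.compl q hq0 (fun x hx => hqq x hx)
    calc ‖I n‖⁻¹ * ∫ x in Vᶜ, ‖φ x‖ ^ (n + n0) ∂μ
        ≤ (κ * m (n + n0))⁻¹ * (q ^ (n + n0) * μS) := by
          refine mul_le_mul (inv_anti₀ h4 h1) h5 (integral_nonneg fun x => by positivity)
            (by positivity)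
      _ = (q ^ (n + n0) / m (n + n0)) * (μS / κ) := by
          field_simp

end

end Pool.Agent.W660.FL
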