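import Pool.Agent.W660.FL.Stm

/-!
Project FL, part NOPOS: no direction is positive.
-/

namespace Pool.Agent.W660.FL

open MeasureTheory Complex Filter Topology
open scoped ComplexConjugate InnerProductSpace Manifold ContDiff

namespace TNOPOS

theorem normSq_eq (r : ℝ) (a : ℂ) : ‖((r : ℂ) - a)⁻¹ ^ 2‖ = ((r - a.re) ^ 2 + a.im ^ 2)⁻¹ := by
  rw [norm_pow, norm_inv, inv_pow, Complex.sq_norm, Complex.normSq_apply]
  congr 1
  simp only [Complex.sub_re, Complex.ofReal_re, Complex.sub_im, Complex.ofReal_im]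
  ring

theorem integrable_kernel (a : ℂ) (ha : a.im < 0) :
    Integrable (fun r : ℝ => ((r : ℂ) - a)⁻¹ ^ 2) := by
  have hne : a.im ≠ 0 := ha.ne
  have h1 : Integrable (fun r : ℝ => (1 + ((r - a.re) / a.im) ^ 2)⁻¹) := by
    have h2 : Integrable (fun r : ℝ => (1 + (r / a.im) ^ 2)⁻¹) :=
      integrable_inv_one_add_sq.comp_div hne
    exact h2.comp_sub_right a.re
  have h3 : Integrable (fun r : ℝ => (a.im ^ 2)⁻¹ * (1 + ((r - a.re) / a.im) ^ 2)⁻¹) :=
    h1.const_mul _
  refine h3.mono' ?_ (Filter.Eventually.of_forall (fun r => ?_))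
  · have hc : Continuous (fun r : ℝ => ((r : ℂ) - a)⁻¹ ^ 2) := by
      refine (Continuous.inv₀ (by fun_prop) ?_).pow 2
      intro r hr
      have h4 := congrArg Complex.im hr
      simp only [Complex.sub_im, Complex.ofReal_im, Complex.zero_im] at h4
      exact hne (by linarith)
    exact hc.aestronglyMeasurable
  · rw [normSq_eq]
    apply le_of_eq
    rw [← mul_inv]
    congr 1
    field_simp
    ring

end TNOPOS

variable (G : Type) [Group G] [TopologicalSpace G] [IsTopologicalGroup G] [T2Space G]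
  [LocallyCompactSpace G] [SecondCountableTopology G] [MeasurableSpace G] [BorelSpace G]
  (μ : Measure G) [μ.IsHaarMeasure] (E : Type) [NormedAddCommGroup E] [NormedSpace ℝ E]
  [FiniteDimensional ℝ E]

theorem t_NOPOS : S_UB G μ → S_MONO → S_SM3 G μ E → S_IDENT G μ → S_POS G μ E → S_CHI G μ →
    S_SUPD G μ → S_OPS G E → S_NOPOS G μ E := by
  intro hUB hMONO hSM3 hIDENT hPOS hCHI hSUPD hOPS C A hA X hX hall
  obtain ⟨γ, hγ, hder⟩ := hOPS C X
  have hcore : ∀ v ∈ A, Cc v → Sm μ C (cl μ v) → ∀ y, Ana (fun r => v (γ r * y)) := by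
    intro v hv hcc hsm y a ha
    obtain ⟨u', hu', hpos⟩ := hPOS C A hA X γ hγ hder hall v hv hcc hsm
    have h1 := hMONO (HH μ) (fun t => (U μ (γ t)).toContinuousLinearMap)
      (fun t x => (U μ (γ t)).norm_map x)
      (fun s t x => by
        show U μ (γ (s + t)) x = U μ (γ s) (U μ (γ t) x)
        rw [add_comm, hγ.2, hUB.1])
      (fun x => by
        show Continuous fun t => U μ (γ t) x
        exact (hUB.2.2.1 x).comp hγ.1)
      (cl μ v) u' hu' hpos a ha
    have h2 := (hIDENT v hcc γ hγ (fun r => ((r : ℂ) - a)⁻¹ ^ 2)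
      (TNOPOS.integrable_kernel a ha)).2.1 h1 y
    rw [← h2]
    refine integral_congr_ae (Filter.Eventually.of_forall (fun r => ?_))
    exact mul_comm _ _
  have hone : ∀ t, γ t = 1 := by
    refine hCHI A hA γ hγ (fun u hu ε hε => ?_)
    obtain ⟨w, hw, hwc, hwe⟩ := hSUPD A hA u hu (ε / 2) (half_pos hε)
    obtain ⟨v, hv, hvc, hvs, hve, -⟩ := hSM3 C A hA w hw hwc (ε / 2) (half_pos hε)
    refine ⟨v, hv, hvc, fun x => ?_, hcore v hv hvc hvs⟩
    calc ‖u x - v x‖ = ‖(u x - w x) + (w x - v x)‖ := by congr 1; ring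
      _ ≤ ‖u x - w x‖ + ‖w x - v x‖ := norm_add_le _ _
      _ ≤ ε / 2 + ε / 2 := add_le_add (hwe x) (hve x)
      _ = ε := add_halves ε
  have hconst : (fun t => C.κ (γ t)) = fun _ => (0 : E) := by
    funext t
    rw [hone t, C.map_one]
  rw [hconst] at hder
  exact hX (hder.unique (hasDerivAt_const (0 : ℝ) (0 : E)))

end Pool.Agent.W660.FL
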