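import Pool.Agent.W660.FL.Stm

/-!
`S_PHI` from `S_UB`, `S_CC` and `S_DSA`.
-/

namespace Pool.Agent.W660.FL

open MeasureTheory Complex Filter Topology
open scoped ComplexConjugate InnerProductSpace Manifold ContDiff

noncomputable section

variable (G : Type) [Group G] [TopologicalSpace G] [IsTopologicalGroup G] [T2Space G]
  [LocallyCompactSpace G] [SecondCountableTopology G] [MeasurableSpace G] [BorelSpace G]
  (μ : Measure G) [μ.IsHaarMeasure]

/-- the coefficient function is an integral -/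
theorem TPHI.mc_eq (hCC : S_CC G μ) (u : G → ℂ) (hu : Cc u) (x : G) :
    mc μ (cl μ u) (cl μ u) x = ∫ y, conj (u y) * u (x * y) ∂μ := by
  obtain ⟨_, _, _, h4, h5, _⟩ := hCC
  obtain ⟨h1, _, h3⟩ := h4 u hu x
  unfold mc
  rw [h3]
  exact h5 _ _ h1 hu

open scoped Pointwise in
theorem t_PHI : S_UB G μ → S_CC G μ → S_DSA G μ → S_PHI G μ := by
  intro hUB hCC hDSA A hA u huA hus
  obtain ⟨hcont, _, hSA⟩ := hDSA A hA u huA
  have hu : Cc u := ⟨hcont, hus⟩
  obtain ⟨hm, h1, hc, hadj⟩ := hUB
  refine ⟨hSA hus (cl μ u), ⟨?_, ?_⟩, ?_, ?_, ?_⟩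
  · exact continuous_const.inner (hc (cl μ u))
  · have hK : IsCompact (tsupport u * (tsupport u)⁻¹) := by
      have h : IsCompact (tsupport u) := hus
      exact h.mul h.inv
    refine HasCompactSupport.intro hK ?_
    intro x hx
    rw [TPHI.mc_eq G μ hCC u hu x]
    have : (fun y => conj (u y) * u (x * y)) = fun _ => (0 : ℂ) := by
      funext y
      by_contra hne
      have hy : u y ≠ 0 := by
        intro h0
        apply hne
        simp [h0]
      have hxy : u (x * y) ≠ 0 := by
        intro h0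
        apply hne
        simp [h0]
      apply hx
      refine Set.mem_mul.2 ⟨x * y, subset_tsupport u hxy, y⁻¹, ?_, by group⟩
      exact Set.inv_mem_inv.2 (subset_tsupport u hy)
    rw [this, integral_zero]
  · unfold mc
    rw [h1, inner_self_eq_norm_sq_to_K]
    norm_cast
  · intro x
    unfold mc
    calc ‖⟪cl μ u, U μ x (cl μ u)⟫_ℂ‖ ≤ ‖cl μ u‖ * ‖U μ x (cl μ u)‖ := norm_inner_le_norm _ _
      _ = ‖cl μ u‖ ^ 2 := by rw [LinearIsometry.norm_map]; ring
  · intro x
    unfold mc
    rw [hadj, inv_inv, inner_conj_symm]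

end

end Pool.Agent.W660.FL
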