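import Pool.Agent.W660.FL.Stm

/-!
Part REAL of project FL: behaviour at the identity of a normalised function without linear term.
-/

namespace Pool.Agent.W660.FL

open MeasureTheory Complex Filter Topology
open scoped ComplexConjugate InnerProductSpace Manifold ContDiff

noncomputable section

variable (G : Type) [Group G] [TopologicalSpace G] [IsTopologicalGroup G] [T2Space G]
  [LocallyCompactSpace G] [SecondCountableTopology G] [MeasurableSpace G] [BorelSpace G]
  (μ : Measure G) [μ.IsHaarMeasure] (E : Type) [NormedAddCommGroup E] [NormedSpace ℝ E]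
  [FiniteDimensional ℝ E]

namespace TREAL

variable {G E}

omit [IsTopologicalGroup G] [T2Space G] [LocallyCompactSpace G] [SecondCountableTopology G]
  [MeasurableSpace G] [BorelSpace G] [FiniteDimensional ℝ E] in
lemma symm_zero (C : LieChart G E) : C.κ.symm 0 = 1 := by
  have := C.κ.left_inv C.one_mem
  rwa [C.map_one] at this

omit [IsTopologicalGroup G] [T2Space G] [LocallyCompactSpace G] [SecondCountableTopology G]
  [MeasurableSpace G] [BorelSpace G] [FiniteDimensional ℝ E] in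
lemma zero_mem (C : LieChart G E) : (0 : E) ∈ C.κ.target := by
  have := C.κ.map_source C.one_mem
  rwa [C.map_one] at this

omit [IsTopologicalGroup G] [T2Space G] [LocallyCompactSpace G] [SecondCountableTopology G]
  [MeasurableSpace G] [BorelSpace G] [FiniteDimensional ℝ E] in
lemma j_deriv (C : LieChart G E) (hinv : ∀ᶠ a in 𝓝 (0 : E), (C.κ.symm a)⁻¹ ∈ C.κ.source) :
    HasFDerivAt (fun a : E => C.κ (C.κ.symm a)⁻¹) (-ContinuousLinearMap.id ℝ E) 0 := by
  have hj : DifferentiableAt ℝ (fun a : E => C.κ (C.κ.symm a)⁻¹) 0 :=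
    C.inv.differentiableAt (by simp)
  obtain ⟨J, hJ⟩ := hj
  have hm : DifferentiableAt ℝ (fun p : E × E => C.κ (C.κ.symm p.1 * C.κ.symm p.2)) (0, 0) :=
    C.mul.differentiableAt (by simp)
  obtain ⟨M, hM⟩ := hm
  have hj0 : C.κ (C.κ.symm (0 : E))⁻¹ = 0 := by
    rw [symm_zero, inv_one, C.map_one]
  have htar : ∀ᶠ a in 𝓝 (0 : E), a ∈ C.κ.target := C.κ.open_target.mem_nhds (zero_mem C)
  -- first partial
  have h1 : ∀ u : E, M (u, 0) = u := by
    have hA : HasFDerivAt (fun a : E => C.κ (C.κ.symm a * C.κ.symm 0))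
        (M.comp (ContinuousLinearMap.inl ℝ E E)) 0 := by
      have hin : HasFDerivAt (fun a : E => ((a, 0) : E × E)) (ContinuousLinearMap.inl ℝ E E) 0 :=
        (ContinuousLinearMap.inl ℝ E E).hasFDerivAt
      exact HasFDerivAt.comp (f := fun a : E => ((a, 0) : E × E)) (0 : E) hM hin
    have hB : HasFDerivAt (fun a : E => C.κ (C.κ.symm a * C.κ.symm 0))
        (ContinuousLinearMap.id ℝ E) 0 := by
      refine (hasFDerivAt_id (0 : E)).congr_of_eventuallyEq ?_
      filter_upwards [htar] with a ha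
      rw [symm_zero, mul_one, C.κ.right_inv ha, id]
    intro u
    have := congrArg (fun T : E →L[ℝ] E => T u) (hA.unique hB)
    simpa using this
  have h2 : ∀ u : E, M (0, u) = u := by
    have hA : HasFDerivAt (fun a : E => C.κ (C.κ.symm 0 * C.κ.symm a))
        (M.comp (ContinuousLinearMap.inr ℝ E E)) 0 := by
      have hin : HasFDerivAt (fun a : E => ((0, a) : E × E)) (ContinuousLinearMap.inr ℝ E E) 0 :=
        (ContinuousLinearMap.inr ℝ E E).hasFDerivAt
      exact HasFDerivAt.comp (f := fun a : E => ((0, a) : E × E)) (0 : E) hM hin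
    have hB : HasFDerivAt (fun a : E => C.κ (C.κ.symm 0 * C.κ.symm a))
        (ContinuousLinearMap.id ℝ E) 0 := by
      refine (hasFDerivAt_id (0 : E)).congr_of_eventuallyEq ?_
      filter_upwards [htar] with a ha
      rw [symm_zero, one_mul, C.κ.right_inv ha, id]
    intro u
    have := congrArg (fun T : E →L[ℝ] E => T u) (hA.unique hB)
    simpa using this
  -- composition
  have h3 : HasFDerivAt (fun a : E => C.κ (C.κ.symm a * C.κ.symm (C.κ (C.κ.symm a)⁻¹)))
      (M.comp ((ContinuousLinearMap.id ℝ E).prod J)) 0 := by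
    have hin : HasFDerivAt (fun a : E => ((a, C.κ (C.κ.symm a)⁻¹) : E × E))
        ((ContinuousLinearMap.id ℝ E).prod J) 0 := (hasFDerivAt_id (0 : E)).prodMk hJ
    have hM' : HasFDerivAt (fun p : E × E => C.κ (C.κ.symm p.1 * C.κ.symm p.2)) M
        ((fun a : E => ((a, C.κ (C.κ.symm a)⁻¹) : E × E)) 0) := by
      simpa [hj0] using hM
    exact HasFDerivAt.comp (f := fun a : E => ((a, C.κ (C.κ.symm a)⁻¹) : E × E)) (0 : E) hM' hin
  have h4 : HasFDerivAt (fun a : E => C.κ (C.κ.symm a * C.κ.symm (C.κ (C.κ.symm a)⁻¹)))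
      (0 : E →L[ℝ] E) 0 := by
    refine (hasFDerivAt_const (0 : E) (0 : E)).congr_of_eventuallyEq ?_
    filter_upwards [hinv] with a ha
    rw [C.κ.left_inv ha, mul_inv_cancel, C.map_one]
  have h5 := h3.unique h4
  have h6 : J = -ContinuousLinearMap.id ℝ E := by
    ext u
    have := congrArg (fun T : E →L[ℝ] E => T u) h5
    simp only [ContinuousLinearMap.comp_apply, ContinuousLinearMap.prod_apply,
      ContinuousLinearMap.zero_apply, ContinuousLinearMap.id_apply] at this
    have h7 : ((u, J u) : E × E) = (u, 0) + (0, J u) := by simp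
    rw [h7, map_add, h1, h2] at this
    simp only [ContinuousLinearMap.neg_apply, ContinuousLinearMap.id_apply]
    exact eq_neg_of_add_eq_zero_right this
  rw [← h6]; exact hJ

end TREAL

open TREAL in
theorem t_REAL : S_PE1 → S_PE2 → S_REAL G E := by
  intro hP1 _ C A φ hφ hal
  obtain ⟨-, -, hφ1, -, hφc, L, B, hLB⟩ := hφ
  have hL := hP1.2.2.2 E ℂ _ L B hLB
  have hL0 : L = 0 := by
    have := hL.unique hal
    rw [this]; ext; simp
  have hsz := symm_zero C
  have h0 : φ (C.κ.symm 0) = 1 := by rw [hsz, hφ1]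
  set h : E → ℂ := fun a => φ (C.κ.symm a) with hh
  have hg : (fun a => h a - 1 - B a a) =o[𝓝 0] fun a => ‖a‖ ^ 2 := by
    have : (fun a => h a - 1 - B a a) = (fun a => h a - h 0 - L a - B a a) := by
      funext a; simp [hh, h0, hL0]
    rw [this]; exact hLB
  refine ⟨?_, ?_⟩
  · have h1 := hg.bound (c := 1) one_pos
    obtain ⟨r, hr, hr'⟩ := Metric.eventually_nhds_iff.1 h1
    refine ⟨‖B‖ + 1, r, hr, fun a ha => ?_⟩
    have h2 := hr' (y := a) (by simpa [dist_zero_right] using ha)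
    have h3 : ‖B a a‖ ≤ ‖B‖ * ‖a‖ ^ 2 := by
      have := B.le_opNorm₂ a a
      calc ‖B a a‖ ≤ ‖B‖ * ‖a‖ * ‖a‖ := this
        _ = ‖B‖ * ‖a‖ ^ 2 := by ring
    have h4 : ‖h a - 1‖ ≤ ‖h a - 1 - B a a‖ + ‖B a a‖ := by
      calc ‖h a - 1‖ = ‖(h a - 1 - B a a) + B a a‖ := by congr 1; ring
        _ ≤ _ := norm_add_le _ _
    have h5 : ‖(‖a‖ ^ 2 : ℝ)‖ = ‖a‖ ^ 2 := by
      rw [Real.norm_eq_abs, abs_of_nonneg (by positivity)]
    rw [h5] at h2
    change ‖h a - 1‖ ≤ _
    calc ‖h a - 1‖ ≤ 1 * ‖a‖ ^ 2 + ‖B‖ * ‖a‖ ^ 2 := h4.trans (add_le_add h2 h3)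
      _ = (‖B‖ + 1) * ‖a‖ ^ 2 := by ring
  · have hcont : ContinuousAt C.κ.symm (0 : E) := C.κ.continuousAt_symm (zero_mem C)
    have hinv : ∀ᶠ a in 𝓝 (0 : E), (C.κ.symm a)⁻¹ ∈ C.κ.source := by
      have hc : ContinuousAt (fun a => (C.κ.symm a)⁻¹) (0 : E) := hcont.inv
      refine hc.eventually_mem (C.κ.open_source.mem_nhds ?_)
      rw [hsz, inv_one]; exact C.one_mem
    have hjd := j_deriv C hinv
    set j : E → E := fun a => C.κ (C.κ.symm a)⁻¹ with hj
    have hj0 : j 0 = 0 := by simp [hj, hsz, C.map_one]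
    have he : (fun a => j a + a) =o[𝓝 0] fun a => a := by
      have := hjd.isLittleO
      simpa [hj0] using this
    have hjO : j =O[𝓝 0] fun a => a := by
      have h1 : (fun a => (j a + a) - a) =O[𝓝 0] fun a => a :=
        he.isBigO.sub (Asymptotics.isBigO_refl _ _)
      simpa using h1
    have hjt : Tendsto j (𝓝 0) (𝓝 0) := by
      have := hjd.continuousAt.tendsto
      rwa [hj0] at this
    have hnO : (fun a : E => ‖a‖ ^ 2) =O[𝓝 0] fun a : E => ‖a‖ ^ 2 := Asymptotics.isBigO_refl _ _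
    have hgj : (fun a => h (j a) - 1 - B (j a) (j a)) =o[𝓝 0] fun a => ‖a‖ ^ 2 := by
      have h1 := hg.comp_tendsto hjt
      refine h1.trans_isBigO ?_
      have h2 : (fun a => ‖j a‖ ^ 2) =O[𝓝 0] fun a => ‖a‖ ^ 2 :=
        (hjO.norm_norm).pow 2
      exact h2
    have hee : (fun a => B (j a) (j a) - B a a) =o[𝓝 0] fun a => ‖a‖ ^ 2 := by
      have hid : (fun a => B (j a) (j a) - B a a) =
          fun a => B (j a + a) (j a) - B a (j a + a) := by
        funext a
        simp only [map_add, ContinuousLinearMap.add_apply]; ring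
      rw [hid]
      have h1 : (fun a => B (j a + a) (j a)) =o[𝓝 0] fun a => ‖a‖ ^ 2 := by
        have h2 : (fun a => B (j a + a) (j a)) =O[𝓝 0] fun a => ‖j a + a‖ * ‖j a‖ := by
          refine Asymptotics.IsBigO.of_bound ‖B‖ (Eventually.of_forall fun a => ?_)
          rw [Real.norm_eq_abs, abs_of_nonneg (by positivity), ← mul_assoc]
          exact B.le_opNorm₂ _ _
        refine h2.trans_isLittleO ?_
        have h3 : (fun a => ‖j a + a‖ * ‖j a‖) =o[𝓝 0] fun a : E => ‖a‖ * ‖a‖ :=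
          (he.norm_norm).mul_isBigO (hjO.norm_norm)
        simpa [pow_two] using h3
      have h1' : (fun a => B a (j a + a)) =o[𝓝 0] fun a => ‖a‖ ^ 2 := by
        have h2 : (fun a => B a (j a + a)) =O[𝓝 0] fun a => ‖a‖ * ‖j a + a‖ := by
          refine Asymptotics.IsBigO.of_bound ‖B‖ (Eventually.of_forall fun a => ?_)
          rw [Real.norm_eq_abs, abs_of_nonneg (by positivity), ← mul_assoc]
          exact B.le_opNorm₂ _ _
        refine h2.trans_isLittleO ?_
        have h3 : (fun a => ‖a‖ * ‖j a + a‖) =o[𝓝 0] fun a : E => ‖a‖ * ‖a‖ :=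
          (Asymptotics.isBigO_refl (fun a : E => ‖a‖) (𝓝 0)).mul_isLittleO (he.norm_norm)
        simpa [pow_two] using h3
      exact h1.sub h1'
    have htot : (fun a => (h a - 1 - B a a) - (h (j a) - 1 - B (j a) (j a)) -
        (B (j a) (j a) - B a a)) =o[𝓝 0] fun a => ‖a‖ ^ 2 := (hg.sub hgj).sub hee
    have hconj : ∀ᶠ a in 𝓝 (0 : E), h (j a) = conj (h a) := by
      filter_upwards [hinv] with a ha
      have : C.κ.symm (j a) = (C.κ.symm a)⁻¹ := C.κ.left_inv ha
      change φ (C.κ.symm (j a)) = conj (φ (C.κ.symm a))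
      rw [this, hφc]
    intro ε hε
    have h1 := htot.bound (c := ε) hε
    obtain ⟨r, hr, hr'⟩ := Metric.eventually_nhds_iff.1 (h1.and hconj)
    refine ⟨r, hr, fun a ha => ?_⟩
    obtain ⟨h2, h3⟩ := hr' (y := a) (by simpa [dist_zero_right] using ha)
    have h5 : ‖(‖a‖ ^ 2 : ℝ)‖ = ‖a‖ ^ 2 := by
      rw [Real.norm_eq_abs, abs_of_nonneg (by positivity)]
    rw [h5, h3] at h2
    have h6 : (h a - 1 - B a a) - (conj (h a) - 1 - B (j a) (j a)) - (B (j a) (j a) - B a a) =
        h a - conj (h a) := by ring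
    rw [h6, Complex.sub_conj] at h2
    have h7 : ‖((2 * (h a).im : ℝ) : ℂ) * I‖ = 2 * |(h a).im| := by
      rw [norm_mul, Complex.norm_I, mul_one, Complex.norm_real, Real.norm_eq_abs, abs_mul, abs_two]
    rw [h7] at h2
    have h8 : 0 ≤ |(h a).im| := abs_nonneg _
    change |(h a).im| ≤ _
    linarith

end

end Pool.Agent.W660.FL
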