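import Pool.Agent.W660.FL.Stm

namespace Pool.Agent.W660.FL

open MeasureTheory Complex Filter Topology
open scoped ComplexConjugate InnerProductSpace Manifold ContDiff

noncomputable section

namespace TSM1

theorem pe2_congr {E F : Type} [NormedAddCommGroup E] [NormedSpace ℝ E] [NormedAddCommGroup F]
    [NormedSpace ℝ F] {f g : E → F} (hf : Pe2 f) (h : f =ᶠ[𝓝 0] g) : Pe2 g := by
  obtain ⟨L, B, hB⟩ := hf
  refine ⟨L, B, hB.congr' ?_ EventuallyEq.rfl⟩
  filter_upwards [h] with a ha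
  rw [ha, h.eq_of_nhds]

end TSM1

variable (G : Type) [Group G] [TopologicalSpace G] [IsTopologicalGroup G] [T2Space G]
  [LocallyCompactSpace G] [SecondCountableTopology G] [MeasurableSpace G] [BorelSpace G]
  (μ : Measure G) [μ.IsHaarMeasure] (E : Type) [NormedAddCommGroup E] [NormedSpace ℝ E]
  [FiniteDimensional ℝ E]

theorem t_SM1 : S_UB G μ → S_PE1 → S_PE2 → S_SM1 G μ E := by
  intro hUB hPE1 hPE2 C
  have hscal : ∀ (T : HH μ →L[ℂ] HH μ) (f : E → HH μ), Pe2 f → Pe2 (fun a => T (f a)) := by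
    intro T f hf
    exact hPE1.2.1 E (HH μ) (HH μ) (T.restrictScalars ℝ) f hf
  refine ⟨?_, ?_, ?_, ?_⟩
  · intro ξ η hξ hη
    have h := hPE1.1 E (HH μ) _ _ hξ hη
    refine TSM1.pe2_congr h (Eventually.of_forall fun a => ?_)
    simp only [Pi.add_apply, map_add]
  · intro c ξ hξ
    have h := hscal (c • ContinuousLinearMap.id ℂ (HH μ)) _ hξ
    refine TSM1.pe2_congr h (Eventually.of_forall fun a => ?_)
    simp only [_root_.smul_apply, ContinuousLinearMap.id_apply, map_smul]
  · intro g ξ hξ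
    have h0t : (0 : E) ∈ C.κ.target := by
      rw [← C.map_one]
      exact C.κ.map_source C.one_mem
    have hs0 : C.κ.symm 0 = 1 := by
      rw [← C.map_one]
      exact C.κ.left_inv C.one_mem
    have hc : ContDiffAt ℝ 2 (fun a : E => C.κ (g * C.κ.symm a * g⁻¹)) 0 :=
      (C.cnj g).of_le (WithTop.coe_le_coe.2 (le_top : (2 : ℕ∞) ≤ ⊤))
    have hc0 : C.κ (g * C.κ.symm 0 * g⁻¹) = 0 := by
      rw [hs0, mul_one, mul_inv_cancel, C.map_one]
    have h1 := hPE2.2 E (HH μ) (fun a : E => U μ (C.κ.symm a) ξ)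
      (fun a : E => C.κ (g * C.κ.symm a * g⁻¹)) hξ hc hc0
    have h2 := hscal (U μ g).toContinuousLinearMap _ h1
    refine TSM1.pe2_congr h2 ?_
    have hcont : ContinuousAt (fun a : E => g * C.κ.symm a * g⁻¹) 0 := by
      have h3 : ContinuousAt C.κ.symm 0 := C.κ.symm.continuousAt h0t
      exact (continuousAt_const.mul h3).mul continuousAt_const
    have hsrc : ∀ᶠ a in 𝓝 (0 : E), g * C.κ.symm a * g⁻¹ ∈ C.κ.source := by
      refine hcont.eventually_mem (C.κ.open_source.mem_nhds ?_)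
      rw [hs0, mul_one, mul_inv_cancel]
      exact C.one_mem
    filter_upwards [hsrc] with a ha
    simp only [Function.comp_apply, LinearIsometry.coe_toContinuousLinearMap]
    rw [C.κ.left_inv ha, ← hUB.1, ← hUB.1]
    congr 1
    group
  · intro ξ η hξ
    have h := hPE1.2.1 E (HH μ) ℂ ((innerSL ℂ η).restrictScalars ℝ) _ hξ
    exact h

end

end Pool.Agent.W660.FL
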