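import Pool.Agent.W660.FL.Stm

/-!
Part SM2 of project FL: convolutions with smooth functions are smooth vectors.
-/

namespace Pool.Agent.W660.FL

open MeasureTheory Complex Filter Topology
open scoped ComplexConjugate InnerProductSpace Manifold ContDiff

noncomputable section

section B

variable (G : Type) [Group G] [TopologicalSpace G] [IsTopologicalGroup G] [T2Space G]
  [LocallyCompactSpace G] [SecondCountableTopology G] [MeasurableSpace G] [BorelSpace G]
  (μ : Measure G) [μ.IsHaarMeasure] (E : Type) [NormedAddCommGroup E] [NormedSpace ℝ E]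
  [FiniteDimensional ℝ E]

namespace TSM2

omit [T2Space G] [LocallyCompactSpace G] [SecondCountableTopology G] [MeasurableSpace G]
  [BorelSpace G] [FiniteDimensional ℝ E] in
/-- a radius in which everything is defined -/
theorem radius (C : LieChart G E) : ∃ R : ℝ, 0 < R ∧ Metric.ball 0 R ⊆ C.κ.target ∧
    (∀ a b : E, ‖a‖ < R → ‖b‖ < R → C.κ.symm a * C.κ.symm b ∈ C.κ.source) ∧
    ∀ a b : E, ‖a‖ < R → ‖b‖ < R →
      ContDiffAt ℝ 2 (fun p : E × E => C.κ (C.κ.symm p.1 * C.κ.symm p.2)) (a, b) := by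
  have h0 : (0 : E) ∈ C.κ.target := by
    rw [← C.map_one]; exact C.κ.map_source C.one_mem
  have hs0 : C.κ.symm 0 = 1 := by
    rw [← C.map_one]; exact C.κ.left_inv C.one_mem
  have hc : ContinuousAt C.κ.symm (0 : E) := C.κ.continuousAt_symm h0
  have h1 : ∀ᶠ a in 𝓝 (0 : E), a ∈ C.κ.target := C.κ.open_target.mem_nhds h0
  have h2 : ∀ᶠ p in 𝓝 ((0 : E), (0 : E)), C.κ.symm p.1 * C.κ.symm p.2 ∈ C.κ.source := by
    have hc1 : ContinuousAt (fun p : E × E => C.κ.symm p.1 * C.κ.symm p.2) ((0 : E), (0 : E)) := by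
      refine ContinuousAt.mul ?_ ?_
      · exact ContinuousAt.comp (f := Prod.fst) (g := C.κ.symm) (x := ((0 : E), (0 : E))) hc
          continuousAt_fst
      · exact ContinuousAt.comp (f := Prod.snd) (g := C.κ.symm) (x := ((0 : E), (0 : E))) hc
          continuousAt_snd
    refine hc1.eventually (C.κ.open_source.mem_nhds ?_)
    show C.κ.symm 0 * C.κ.symm 0 ∈ C.κ.source
    rw [hs0, one_mul]; exact C.one_mem
  have h3 : ∀ᶠ p in 𝓝 ((0 : E), (0 : E)),
      ContDiffAt ℝ 2 (fun p : E × E => C.κ (C.κ.symm p.1 * C.κ.symm p.2)) p := by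
    have h2i : (2 : WithTop ℕ∞) ≤ ∞ := by
      have : ((2 : ℕ∞) : WithTop ℕ∞) ≤ ∞ := WithTop.coe_le_coe.2 le_top
      exact this
    exact ContDiffAt.eventually (C.mul.of_le h2i) (by simp)
  obtain ⟨r1, hr1, h1'⟩ := Metric.eventually_nhds_iff.1 h1
  obtain ⟨r2, hr2, h2'⟩ := Metric.eventually_nhds_iff.1 (h2.and h3)
  have hd : ∀ a b : E, ‖a‖ < r2 → ‖b‖ < r2 → dist (a, b) ((0 : E), (0 : E)) < r2 := by
    intro a b ha hb
    rw [Prod.dist_eq]
    simpa [dist_zero_right] using ⟨ha, hb⟩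
  refine ⟨min r1 r2, lt_min hr1 hr2, ?_, ?_, ?_⟩
  · intro a ha
    refine h1' (lt_of_lt_of_le (Metric.mem_ball.1 ha) (min_le_left _ _))
  · intro a b ha hb
    exact (h2' (hd a b (lt_of_lt_of_le ha (min_le_right _ _))
      (lt_of_lt_of_le hb (min_le_right _ _)))).1
  · intro a b ha hb
    exact (h2' (hd a b (lt_of_lt_of_le ha (min_le_right _ _))
      (lt_of_lt_of_le hb (min_le_right _ _)))).2

variable {G E}

omit [T2Space G] [IsTopologicalGroup G] [LocallyCompactSpace G] [SecondCountableTopology G]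
  [MeasurableSpace G] [BorelSpace G] [FiniteDimensional ℝ E] in
/-- `lift` vanishes off the compact set -/
theorem lift_zero (C : LieChart G E) {r : ℝ} {F : E → ℂ}
    (hs : tsupport F ⊆ Metric.ball 0 r) (z : G)
    (hz : z ∉ C.κ.symm '' Metric.closedBall 0 r) : lift C F z = 0 := by
  classical
  unfold lift
  split_ifs with h
  · by_contra hne
    have h1 : C.κ z ∈ Metric.ball (0 : E) r := hs (subset_tsupport F hne)
    exact hz ⟨C.κ z, Metric.ball_subset_closedBall h1, C.κ.left_inv h⟩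
  · rfl

omit [T2Space G] [IsTopologicalGroup G] [LocallyCompactSpace G] [SecondCountableTopology G]
  [MeasurableSpace G] [BorelSpace G] in
theorem isCompact_img (C : LieChart G E) {r : ℝ}
    (hr : Metric.closedBall 0 r ⊆ C.κ.target) :
    IsCompact (C.κ.symm '' Metric.closedBall (0 : E) r) := by
  have : ProperSpace E := FiniteDimensional.proper_real E
  exact (isCompact_closedBall (0 : E) r).image_of_continuousOn (C.κ.continuousOn_symm.mono hr)

omit [IsTopologicalGroup G] [LocallyCompactSpace G] [SecondCountableTopology G]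
  [MeasurableSpace G] [BorelSpace G] in
theorem lift_Cc (C : LieChart G E) {r : ℝ} (hr : Metric.closedBall 0 r ⊆ C.κ.target)
    {F : E → ℂ} (hF : Continuous F) (hs : tsupport F ⊆ Metric.ball 0 r) : Cc (lift C F) := by
  classical
  have hK := isCompact_img C hr
  refine ⟨?_, HasCompactSupport.intro hK (lift_zero C hs)⟩
  rw [continuous_iff_continuousAt]
  intro z
  by_cases hz : z ∈ C.κ.source
  · have h1 : ContinuousAt (fun y => F (C.κ y)) z :=
      hF.continuousAt.comp (C.κ.continuousAt hz)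
    refine h1.congr ?_
    filter_upwards [C.κ.open_source.mem_nhds hz] with y hy
    unfold lift
    rw [if_pos hy]
  · have hzK : z ∉ C.κ.symm '' Metric.closedBall (0 : E) r := by
      rintro ⟨b, hb, rfl⟩
      exact hz (C.κ.map_target (hr hb))
    have h1 : ContinuousAt (fun _ : G => (0 : ℂ)) z := continuousAt_const
    refine h1.congr ?_
    filter_upwards [hK.isClosed.isOpen_compl.mem_nhds hzK] with y hy
    exact (lift_zero C hs y hy).symm

/-- the kernel -/
def ker (C : LieChart G E) (R : ℝ) (F : E → ℂ) (a s : E) : ℂ := by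
  classical exact if ‖s‖ < R then F (C.κ (C.κ.symm a * C.κ.symm (-s))) else 0

omit [T2Space G] [IsTopologicalGroup G] [LocallyCompactSpace G] [SecondCountableTopology G]
  [MeasurableSpace G] [BorelSpace G] [FiniteDimensional ℝ E] in
theorem ker_pos (C : LieChart G E) {R : ℝ} (F : E → ℂ) (a : E) {s : E} (hs : ‖s‖ < R) :
    ker C R F a s = F (C.κ (C.κ.symm a * C.κ.symm (-s))) := by
  unfold ker
  rw [if_pos hs]

omit [T2Space G] [IsTopologicalGroup G] [LocallyCompactSpace G] [SecondCountableTopology G]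
  [MeasurableSpace G] [BorelSpace G] [FiniteDimensional ℝ E] in
theorem ker_neg (C : LieChart G E) {R : ℝ} (F : E → ℂ) (a : E) {s : E} (hs : ¬ ‖s‖ < R) :
    ker C R F a s = 0 := by
  unfold ker
  rw [if_neg hs]

/-- the small neighbourhood -/
theorem small (C : LieChart G E) {R : ℝ} (hR : 0 < R) (hT : Metric.ball 0 R ⊆ C.κ.target)
    (hm : ∀ a b : E, ‖a‖ < R → ‖b‖ < R → C.κ.symm a * C.κ.symm b ∈ C.κ.source)
    {F : E → ℂ} (hs : tsupport F ⊆ Metric.ball 0 (R / 3)) :
    ∃ δ : ℝ, 0 < δ ∧ δ ≤ R ∧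
      (∀ a : E, ‖a‖ < δ → ∀ z : G, lift C F (C.κ.symm a * z) ≠ 0 →
        z ∈ C.κ.source ∩ C.κ ⁻¹' Metric.ball 0 (2 * (R / 3))) ∧
      (∀ a : E, ‖a‖ < δ → ∀ z ∈ C.κ.source ∩ C.κ ⁻¹' Metric.ball 0 (2 * (R / 3)),
        lift C F (C.κ.symm a * z) = ker C R F a (0 - C.κ z)) ∧
      (∀ a : E, ‖a‖ < δ → ∀ s : E, 2 * (R / 3) ≤ ‖s‖ → ker C R F a s = 0) := by
  classical
  have h0 : (0 : E) ∈ C.κ.target := by
    rw [← C.map_one]; exact C.κ.map_source C.one_mem
  have hs0 : C.κ.symm 0 = 1 := by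
    rw [← C.map_one]; exact C.κ.left_inv C.one_mem
  have hc : ContinuousAt C.κ.symm (0 : E) := C.κ.continuousAt_symm h0
  have hT3 : Metric.closedBall 0 (R / 3) ⊆ C.κ.target := fun a ha => hT (by
    rw [mem_closedBall_zero_iff] at ha
    rw [mem_ball_zero_iff]
    linarith)
  have hK := isCompact_img C hT3
  have hV : IsOpen (C.κ.source ∩ C.κ ⁻¹' Metric.ball (0 : E) (2 * (R / 3))) :=
    C.κ.isOpen_inter_preimage Metric.isOpen_ball
  have hKV : C.κ.symm '' Metric.closedBall (0 : E) (R / 3) ⊆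
      C.κ.source ∩ C.κ ⁻¹' Metric.ball (0 : E) (2 * (R / 3)) := by
    rintro _ ⟨b, hb, rfl⟩
    refine ⟨C.κ.map_target (hT3 hb), ?_⟩
    show C.κ (C.κ.symm b) ∈ Metric.ball (0 : E) (2 * (R / 3))
    rw [C.κ.right_inv (hT3 hb), mem_ball_zero_iff]
    rw [mem_closedBall_zero_iff] at hb
    linarith
  obtain ⟨W, hW, hWK⟩ := compact_open_separated_mul_left hK hV hKV
  have hinv : ∀ᶠ a in 𝓝 (0 : E), (C.κ.symm a)⁻¹ ∈ W := by
    have h1 : ContinuousAt (fun a : E => (C.κ.symm a)⁻¹) 0 := hc.inv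
    have h2 : W ∈ 𝓝 ((C.κ.symm (0 : E))⁻¹) := by
      rw [hs0, inv_one]
      exact hW
    exact h1.eventually h2
  obtain ⟨δ₀, hδ₀, hδ⟩ := Metric.eventually_nhds_iff.1 hinv
  have hmem : ∀ a : E, ‖a‖ < min δ₀ R → ∀ z : G, lift C F (C.κ.symm a * z) ≠ 0 →
        z ∈ C.κ.source ∩ C.κ ⁻¹' Metric.ball 0 (2 * (R / 3)) := by
    intro a ha z hz
    have h1 : C.κ.symm a * z ∈ C.κ.symm '' Metric.closedBall (0 : E) (R / 3) := by
      by_contra h
      exact hz (lift_zero C hs _ h)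
    have h2 : (C.κ.symm a)⁻¹ ∈ W := hδ (by
      rw [dist_zero_right]; exact lt_of_lt_of_le ha (min_le_left _ _))
    have h3 := hWK (Set.mul_mem_mul h2 h1)
    rwa [inv_mul_cancel_left] at h3
  refine ⟨min δ₀ R, lt_min hδ₀ hR, min_le_right _ _, hmem, ?_, ?_⟩
  · intro a ha z hz
    have hzn : ‖C.κ z‖ < R := by
      have := hz.2
      rw [Set.mem_preimage, mem_ball_zero_iff] at this
      linarith
    rw [ker_pos C F a (by rw [zero_sub, norm_neg]; exact hzn), zero_sub, neg_neg,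
      C.κ.left_inv hz.1]
    unfold lift
    rw [if_pos]
    have := hm a (C.κ z) (lt_of_lt_of_le ha (min_le_right _ _)) hzn
    rwa [C.κ.left_inv hz.1] at this
  · intro a ha s hs'
    by_cases hsR : ‖s‖ < R
    · rw [ker_pos C F a hsR]
      by_contra hne
      have hsT : -s ∈ C.κ.target := hT (by rw [mem_ball_zero_iff, norm_neg]; exact hsR)
      have h1 : lift C F (C.κ.symm a * C.κ.symm (-s)) ≠ 0 := by
        unfold lift
        rw [if_pos (hm a (-s) (lt_of_lt_of_le ha (min_le_right _ _)) (by rwa [norm_neg]))]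
        exact hne
      have h2 := (hmem a ha _ h1).2
      rw [Set.mem_preimage, C.κ.right_inv hsT, mem_ball_zero_iff, norm_neg] at h2
      linarith
    · exact ker_neg C F a hsR

omit [T2Space G] [IsTopologicalGroup G] [LocallyCompactSpace G] [SecondCountableTopology G]
  [MeasurableSpace G] [BorelSpace G] [FiniteDimensional ℝ E] in
/-- smoothness of the kernel -/
theorem ker_smooth (C : LieChart G E) {R δ : ℝ} (hR : 0 < R) (hδR : δ ≤ R)
    (hm : ∀ a b : E, ‖a‖ < R → ‖b‖ < R →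
      ContDiffAt ℝ 2 (fun p : E × E => C.κ (C.κ.symm p.1 * C.κ.symm p.2)) (a, b))
    {F : E → ℂ} (hF : ContDiff ℝ 2 F)
    (hz : ∀ a : E, ‖a‖ < δ → ∀ s : E, 2 * (R / 3) ≤ ‖s‖ → ker C R F a s = 0) :
    ContDiffOn ℝ 2 (fun q : E × E => ker C R F q.1 q.2) (Metric.ball 0 δ ×ˢ Set.univ) := by
  rintro ⟨a, s⟩ ⟨ha, -⟩
  have ha' : ‖a‖ < δ := by simpa using ha
  refine ContDiffAt.contDiffWithinAt ?_
  by_cases hs : ‖s‖ < R
  · have h1 : ContDiffAt ℝ 2 (fun q : E × E => (q.1, -q.2)) (a, s) :=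
      contDiffAt_fst.prodMk contDiffAt_snd.neg
    have h2 := hm a (-s) (lt_of_lt_of_le ha' hδR) (by rwa [norm_neg])
    have h3 : ContDiffAt ℝ 2 (fun q : E × E => C.κ (C.κ.symm q.1 * C.κ.symm (-q.2))) (a, s) :=
      ContDiffAt.comp (a, s) (g := fun p : E × E => C.κ (C.κ.symm p.1 * C.κ.symm p.2)) h2 h1
    have h4 : ContDiffAt ℝ 2 (fun q : E × E => F (C.κ (C.κ.symm q.1 * C.κ.symm (-q.2)))) (a, s) :=
      hF.contDiffAt.comp (a, s) h3
    refine h4.congr_of_eventuallyEq ?_
    have h5 : ∀ᶠ q : E × E in 𝓝 (a, s), ‖q.2‖ < R :=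
      (continuous_snd.norm).continuousAt.eventually (gt_mem_nhds hs)
    filter_upwards [h5] with q hq
    exact ker_pos C F q.1 hq
  · have h4 : ContDiffAt ℝ 2 (fun _ : E × E => (0 : ℂ)) (a, s) := contDiffAt_const
    refine h4.congr_of_eventuallyEq ?_
    have h5 : ∀ᶠ q : E × E in 𝓝 (a, s), 2 * (R / 3) < ‖q.2‖ :=
      (continuous_snd.norm).continuousAt.eventually (lt_mem_nhds (by
        show 2 * (R / 3) < ‖s‖
        linarith [not_lt.1 hs]))
    have h6 : ∀ᶠ q : E × E in 𝓝 (a, s), ‖q.1‖ < δ :=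
      (continuous_fst.norm).continuousAt.eventually (gt_mem_nhds ha')
    filter_upwards [h5, h6] with q hq hq'
    exact hz q.1 hq' q.2 hq.le

/-- the translates of the convolution as a parametric integral over `E` -/
theorem main (C : LieChart G E) (hUB : S_UB G μ) (hCL : S_CONVL G μ)
    [MeasurableSpace E] [BorelSpace E] {R : ℝ} (hR : 0 < R) (hT : Metric.ball 0 R ⊆ C.κ.target)
    (hm : ∀ a b : E, ‖a‖ < R → ‖b‖ < R → C.κ.symm a * C.κ.symm b ∈ C.κ.source)
    (hsm : ∀ a b : E, ‖a‖ < R → ‖b‖ < R →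
      ContDiffAt ℝ 2 (fun p : E × E => C.κ (C.κ.symm p.1 * C.κ.symm p.2)) (a, b))
    {F : E → ℂ} (hF : ContDiff ℝ 2 F) (hs : tsupport F ⊆ Metric.ball 0 (R / 3))
    (w : G → ℂ) (hw : Cc w) :
    ∃ Φ : E → HH μ, ContDiffAt ℝ 2 Φ 0 ∧
      ∀ᶠ a in 𝓝 (0 : E), U μ (C.κ.symm a) (cl μ (conv μ (lift C F) w)) = Φ a := by
  classical
  have hprop : ProperSpace E := FiniteDimensional.proper_real E
  obtain ⟨δ, hδ, hδR, hd1, hd2, hd3⟩ := small C hR hT hm hs
  have hker := ker_smooth C hR hδR hsm hF hd3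
  have hT3 : Metric.closedBall 0 (R / 3) ⊆ C.κ.target := fun a ha => hT (by
    rw [mem_closedBall_zero_iff] at ha
    rw [mem_ball_zero_iff]
    linarith)
  have hT6 : Metric.closedBall 0 (2 * (R / 3)) ⊆ C.κ.target := fun a ha => hT (by
    rw [mem_closedBall_zero_iff] at ha
    rw [mem_ball_zero_iff]
    linarith)
  have hf : Cc (lift C F) := lift_Cc C hT3 hF.continuous hs
  obtain ⟨hU1, hU2, hU3, hU4⟩ := hUB
  obtain ⟨-, hint, hconv⟩ := hCL (lift C F) w hf hw
  set V : Set G := C.κ.source ∩ C.κ ⁻¹' Metric.ball 0 (2 * (R / 3)) with hV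
  have hVo : IsOpen V := C.κ.isOpen_inter_preimage Metric.isOpen_ball
  have hVm : MeasurableSet V := hVo.measurableSet
  have hVK : V ⊆ C.κ.symm '' Metric.closedBall (0 : E) (2 * (R / 3)) := by
    intro z hz
    exact ⟨C.κ z, Metric.ball_subset_closedBall hz.2, C.κ.left_inv hz.1⟩
  have hVfin : μ V < ⊤ := lt_of_le_of_lt (measure_mono hVK) (isCompact_img C hT6).measure_lt_top
  have : IsFiniteMeasure (μ.restrict V) := ⟨by rwa [Measure.restrict_apply_univ]⟩
  have hκm : AEMeasurable C.κ (μ.restrict V) :=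
    (C.κ.continuousOn.mono Set.inter_subset_left).aemeasurable hVm
  set ν : Measure E := Measure.map C.κ (μ.restrict V) with hν
  have hνfin : IsFiniteMeasure ν := Measure.isFiniteMeasure_map _ _
  set h : E → HH μ := C.κ.target.indicator (fun t => U μ (C.κ.symm t)⁻¹ (cl μ w)) with hh
  have hhm : AEStronglyMeasurable h ν := by
    rw [hh, aestronglyMeasurable_indicator_iff C.κ.open_target.measurableSet]
    refine ContinuousOn.aestronglyMeasurable ?_ C.κ.open_target.measurableSet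
    exact (hU3 (cl μ w)).comp_continuousOn C.κ.continuousOn_symm.inv
  have hhint : Integrable h ν := by
    refine Integrable.of_bound hhm ‖cl μ w‖ (Eventually.of_forall fun t => ?_)
    rw [hh]
    by_cases ht : t ∈ C.κ.target
    · rw [Set.indicator_of_mem ht, LinearIsometry.norm_map]
    · rw [Set.indicator_of_notMem ht, norm_zero]
      exact norm_nonneg _
  set L : HH μ →L[ℝ] ℂ →L[ℝ] HH μ := (ContinuousLinearMap.lsmul ℝ ℂ : ℂ →L[ℝ] HH μ →L[ℝ] HH μ).flip
    with hL
  have hcd := contDiffOn_convolution_right_with_param_comp (μ := ν) (n := 2) L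
    (s := Metric.ball (0 : E) δ) (v := fun _ : E => (0 : E)) contDiffOn_const
    (f := h) (g := fun a s => ker C R F a s) (k := Metric.closedBall (0 : E) (2 * (R / 3)))
    Metric.isOpen_ball (isCompact_closedBall _ _) (by
      intro a s ha hs'
      rw [mem_ball_zero_iff] at ha
      refine hd3 a ha s ?_
      rw [mem_closedBall_zero_iff, not_le] at hs'
      exact hs'.le) hhint.locallyIntegrable hker
  refine ⟨fun a => convolution h (fun s => ker C R F a s) L ν 0, ?_, ?_⟩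
  · exact hcd.contDiffAt (Metric.ball_mem_nhds _ hδ)
  · filter_upwards [Metric.ball_mem_nhds (0 : E) hδ] with a ha
    rw [mem_ball_zero_iff] at ha
    have hkc : Continuous fun s : E => ker C R F a s :=
      hker.continuousOn.comp_continuous (f := fun s : E => (a, s)) (by fun_prop) (fun s =>
        ⟨by rw [mem_ball_zero_iff]; exact ha, Set.mem_univ _⟩)
    set x := C.κ.symm a with hx
    have e1 : U μ x (∫ z, lift C F z • U μ z⁻¹ (cl μ w) ∂μ) =
        ∫ z, U μ x (lift C F z • U μ z⁻¹ (cl μ w)) ∂μ := ((U μ x).integral_comp_comm _).symm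
    have e2 : ∫ z, U μ x (lift C F z • U μ z⁻¹ (cl μ w)) ∂μ =
        ∫ z, (fun z => lift C F z • U μ (z⁻¹ * x) (cl μ w)) z ∂μ := by
      refine integral_congr_ae (Eventually.of_forall fun z => ?_)
      show U μ x (lift C F z • U μ z⁻¹ (cl μ w)) = lift C F z • U μ (z⁻¹ * x) (cl μ w)
      rw [LinearIsometry.map_smul, hU1]
    have e3 : ∫ z, (fun z => lift C F z • U μ (z⁻¹ * x) (cl μ w)) z ∂μ =
        ∫ z, lift C F (x * z) • U μ z⁻¹ (cl μ w) ∂μ := by
      rw [← integral_mul_left_eq_self _ x]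
      refine integral_congr_ae (Eventually.of_forall fun z => ?_)
      show lift C F (x * z) • U μ ((x * z)⁻¹ * x) (cl μ w) = lift C F (x * z) • U μ z⁻¹ (cl μ w)
      rw [mul_inv_rev, mul_assoc, inv_mul_cancel, mul_one]
    have e4 : ∫ z, lift C F (x * z) • U μ z⁻¹ (cl μ w) ∂μ =
        ∫ z in V, lift C F (x * z) • U μ z⁻¹ (cl μ w) ∂μ := by
      refine (setIntegral_eq_integral_of_forall_compl_eq_zero fun z hz => ?_).symm
      have : lift C F (x * z) = 0 := by
        by_contra hne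
        exact hz (hd1 a ha z hne)
      rw [this, zero_smul]
    have e5 : ∫ z in V, lift C F (x * z) • U μ z⁻¹ (cl μ w) ∂μ =
        ∫ z in V, L (h (C.κ z)) (ker C R F a (0 - C.κ z)) ∂μ := by
      refine setIntegral_congr_fun hVm fun z hz => ?_
      have h1 : h (C.κ z) = U μ z⁻¹ (cl μ w) := by
        rw [hh, Set.indicator_of_mem (C.κ.map_source hz.1), C.κ.left_inv hz.1]
      show lift C F (x * z) • U μ z⁻¹ (cl μ w) = L (h (C.κ z)) (ker C R F a (0 - C.κ z))
      rw [h1, hd2 a ha z hz, hL]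
      rfl
    have e6 : ∫ z in V, L (h (C.κ z)) (ker C R F a (0 - C.κ z)) ∂μ =
        ∫ t, L (h t) (ker C R F a (0 - t)) ∂ν := by
      have hk0 : AEStronglyMeasurable (fun t : E => ker C R F a (0 - t)) ν :=
        (hkc.comp (by fun_prop : Continuous fun t : E => 0 - t)).aestronglyMeasurable
      have hme : AEStronglyMeasurable (fun t : E => L (h t) (ker C R F a (0 - t))) ν :=
        L.aestronglyMeasurable_comp₂ hhm hk0
      exact (integral_map hκm hme).symm
    rw [hconv, e1, e2, e3, e4, e5, e6]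
    rfl

end TSM2

theorem t_SM2 : S_UB G μ → S_CC G μ → S_CONVL G μ → S_PE2 → S_SM2 G μ E := by
  intro hUB _ hCL hPE C
  borelize E
  obtain ⟨R, hR, hT, hm, hsm⟩ := TSM2.radius G E C
  refine ⟨R / 3, by positivity, fun F hF hs => ?_⟩
  have hT3 : Metric.closedBall 0 (R / 3) ⊆ C.κ.target := fun a ha => hT (by
    rw [mem_closedBall_zero_iff] at ha
    rw [mem_ball_zero_iff]
    linarith)
  have h2i : (2 : WithTop ℕ∞) ≤ ∞ := by
    have : ((2 : ℕ∞) : WithTop ℕ∞) ≤ ∞ := WithTop.coe_le_coe.2 le_top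
    exact this
  refine ⟨TSM2.lift_Cc C hT3 hF.continuous hs, fun w hw => ?_⟩
  obtain ⟨Φ, hΦ, hΦe⟩ := TSM2.main μ C hUB hCL hR hT hm hsm (hF.of_le h2i) hs w hw
  obtain ⟨L, B, hLB⟩ := hPE.1 E (HH μ) Φ hΦ
  refine ⟨L, B, hLB.congr' ?_ (EventuallyEq.refl _ _)⟩
  filter_upwards [hΦe] with a ha
  rw [← ha, ← hΦe.self_of_nhds]

end B

end

end Pool.Agent.W660.FL
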