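import Pool.Agent.W660.FL.Stm

/-!
Project FL, part SUPD: uniform density of the compactly supported elements.
-/

namespace Pool.Agent.W660.FL

open MeasureTheory Complex Filter Topology
open scoped ComplexConjugate InnerProductSpace Manifold ContDiff

noncomputable section

variable (G : Type) [Group G] [TopologicalSpace G] [IsTopologicalGroup G] [T2Space G]
  [LocallyCompactSpace G] [SecondCountableTopology G] [MeasurableSpace G] [BorelSpace G]
  (μ : Measure G) [μ.IsHaarMeasure]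

theorem t_SUPD : S_UB G μ → S_FAC G μ → S_DSA G μ → S_SUPD G μ := by
  intro _ hFAC hDSA A hA u hu ε hε
  obtain ⟨v, hvA, hvc, hInFA⟩ := hA.taub u hu ε hε
  obtain ⟨ξ, η, hle, huv⟩ := hFAC.2 ε (u - v) hInFA
  refine ⟨v, hvA, ⟨(hDSA A hA v hvA).1, hvc⟩, fun x => ?_⟩
  have h1 : u x - v x = mc μ ξ η x := huv x
  rw [h1]
  unfold mc
  calc ‖⟪η, U μ x ξ⟫_ℂ‖ ≤ ‖η‖ * ‖U μ x ξ‖ := norm_inner_le_norm _ _
    _ = ‖η‖ * ‖ξ‖ := by rw [(U μ x).norm_map]
    _ = ‖ξ‖ * ‖η‖ := mul_comm _ _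
    _ ≤ ε := hle

end

end Pool.Agent.W660.FL
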